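import Pool.Agent.Helper95.MEI.C6
import Pool.Agent.Helper22.MEI.CoMp

/-!
# Project MEI, all bodies, row CONST, part 7: the values in the space

`co b c x = (X, Y, Z)`, `w = Z - t`, the edge cell is `EC b c` of helper22.
-/

namespace Pool.Agent.Helper95.MEI.Cst

open MeasureTheory Set Real
open Helper80.CW Helper82.CW Helper22.Wedge
open Helper22.MEI (s t)
open scoped ENNReal RealInnerProductSpace

/-- the shift `w = z - t` -/
noncomputable def sh (q : ℝ × ℝ × ℝ) : ℝ × ℝ × ℝ := (q.1, q.2.1, q.2.2 - t)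

theorem sh_mp : MeasurePreserving sh volume volume := by
  have h1 : MeasurePreserving (fun z : ℝ => z - t) volume volume :=
    measurePreserving_sub_right volume t
  have h2 : MeasurePreserving (fun z : ℝ => z) volume volume := MeasurePreserving.id volume
  exact h2.prod (h2.prod h1)

theorem sh_cont : Continuous sh := by unfold sh; fun_prop

theorem sh_emb : MeasurableEmbedding sh := by
  refine sh_cont.measurableEmbedding fun p q h => ?_
  unfold sh at h
  simp only [Prod.mk.injEq, sub_left_inj] at h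
  exact Prod.ext h.1 (Prod.ext h.2.1 h.2.2)

theorem divF_dvp (x y w : ℝ) : Pool.Agent.Helper8.MEI.divF x y w = dvp (x, y, w) := rfl

variable (b : OrthonormalBasis (Fin 3) ℝ E3) (c : E3)

/-- coordinates relative to the midpoint of the edge -/
noncomputable def cs (x : E3) : ℝ × ℝ × ℝ := sh (co b c x)

theorem cs_mp : MeasurePreserving (cs b c) volume volume := sh_mp.comp (co_mp b c)

theorem cs_emb : MeasurableEmbedding (cs b c) := sh_emb.comp (co_emb b c)

theorem cs_cont : Continuous (cs b c) := sh_cont.comp (co_cd b c).continuous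

/-- `X* ∩ Z` in the space: the part of the Reuleaux tetrahedron in the edge cell -/
def AsE : Set E3 := {x | cs b c x ∈ As}

/-- the part of the spindle in the edge cell -/
def AxE : Set E3 := {x | cs b c x ∈ Ax}

theorem AsE_meas : MeasurableSet (AsE b c) := (cs_cont b c).measurable As_meas

theorem AxE_meas : MeasurableSet (AxE b c) := (cs_cont b c).measurable Ax_meas

theorem AsE_eq : AsE b c = EC b c ∩ {x | (cs b c x).1 ^ 2 + (cs b c x).2.1 ^ 2
    + (cs b c x).2.2 ^ 2 + √2 * (cs b c x).2.2 + |(cs b c x).2.1| ≤ 1 / 4} := rfl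

theorem AxE_eq : AxE b c = EC b c ∩ {x | (cs b c x).1 ^ 2 + (cs b c x).2.1 ^ 2
    + (cs b c x).2.2 ^ 2 + √3 * √((cs b c x).2.1 ^ 2 + (cs b c x).2.2 ^ 2) ≤ 1 / 4} := rfl

theorem vol_AsE : volume (AsE b c) = ENNReal.ofReal vAs := by
  rw [← volume_As]
  exact (cs_mp b c).measure_preimage As_meas.nullMeasurableSet

theorem vol_AxE : volume (AxE b c) = ENNReal.ofReal vAx := by
  rw [← volume_Ax]
  exact (cs_mp b c).measure_preimage Ax_meas.nullMeasurableSet

/-- the divergence of the field as a function on the space -/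
noncomputable def dvE (x : E3) : ℝ :=
  Pool.Agent.Helper8.MEI.divF (co b c x).1 (co b c x).2.1 ((co b c x).2.2 - t)

theorem dvE_eq (x : E3) : dvE b c x = dvp (cs b c x) := rfl

theorem dvE_cont : Continuous (dvE b c) := dvp_cont.comp (cs_cont b c)

theorem int_dvE_As : ∫ x in AsE b c, dvE b c x = fAs := by
  rw [← int_As]
  exact (cs_mp b c).setIntegral_preimage_emb (cs_emb b c) dvp As

theorem int_dvE_Ax : ∫ x in AxE b c, dvE b c x = fAx := by
  rw [← int_Ax]
  exact (cs_mp b c).setIntegral_preimage_emb (cs_emb b c) dvp Ax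

theorem intOn_AsE : IntegrableOn (dvE b c) (AsE b c) :=
  ((cs_mp b c).integrableOn_comp_preimage (cs_emb b c)).2 intOn_As

theorem intOn_AxE : IntegrableOn (dvE b c) (AxE b c) :=
  ((cs_mp b c).integrableOn_comp_preimage (cs_emb b c)).2 intOn_Ax

theorem int_half_As : ∫ x in AsE b c, (dvE b c x - 1 / 2) = fAs - vAs / 2 := by
  have fin1 : volume (AsE b c) ≠ ⊤ := by rw [vol_AsE]; exact ENNReal.ofReal_ne_top
  have i1 : IntegrableOn (fun _ : E3 => (1 / 2 : ℝ)) (AsE b c) := integrableOn_const fin1
  rw [integral_sub (intOn_AsE b c) i1, int_dvE_As]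
  simp only [integral_const, smul_eq_mul, Measure.real, Measure.restrict_apply_univ]
  rw [vol_AsE, ENNReal.toReal_ofReal vAs_nonneg]
  ring

theorem int_half_Ax : ∫ x in AxE b c, (dvE b c x - 1 / 2) = fAx - vAx / 2 := by
  have fin1 : volume (AxE b c) ≠ ⊤ := by rw [vol_AxE]; exact ENNReal.ofReal_ne_top
  have i1 : IntegrableOn (fun _ : E3 => (1 / 2 : ℝ)) (AxE b c) := integrableOn_const fin1
  rw [integral_sub (intOn_AxE b c) i1, int_dvE_Ax]
  simp only [integral_const, smul_eq_mul, Measure.real, Measure.restrict_apply_univ]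
  rw [vol_AxE, ENNReal.toReal_ofReal vAx_nonneg]
  ring

/-- values: flux constant identity -/
theorem K1v : (fAs - vAs / 2) + (fAx - vAx / 2) = (π / 6 - 3 / 2 * (√2 / 12) - Om / 3) / 3 := by
  unfold fAs fAx vAs vAx Om
  rw [om_eq, arccos_third]
  ring

/-- values: volume constant identity -/
theorem K2v : vAs + vAx = (VM - √2 / 12 - 4 * (Om / 3 - √2 / 12)) / 3 := by
  unfold vAs vAx VM Om
  rw [om_eq, arccos_third]
  ring

end Pool.Agent.Helper95.MEI.Cst
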