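import Pool.Agent.Helper95.MEI.C6

/-!
# Project MEI, all bodies, row CONST, part 8: numerical bounds
-/

namespace Pool.Agent.Helper95.MEI.Cst

open Set Real

theorem arctan_lo {x : ℝ} (hx : 0 ≤ x) :
    x - x ^ 3 / 3 + x ^ 5 / 5 - x ^ 7 / 7 + x ^ 9 / 9 - x ^ 11 / 11 ≤ arctan x := by
  have hd : ∀ y : ℝ, HasDerivAt (fun y : ℝ => arctan y
      - (y - y ^ 3 / 3 + y ^ 5 / 5 - y ^ 7 / 7 + y ^ 9 / 9 - y ^ 11 / 11))
      (y ^ 12 / (1 + y ^ 2)) y := by
    intro y
    have h := (Real.hasDerivAt_arctan y).sub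
      ((((((hasDerivAt_id' y).sub ((hasDerivAt_pow 3 y).div_const 3)).add
        ((hasDerivAt_pow 5 y).div_const 5)).sub ((hasDerivAt_pow 7 y).div_const 7)).add
        ((hasDerivAt_pow 9 y).div_const 9)).sub ((hasDerivAt_pow 11 y).div_const 11))
    refine h.congr_deriv ?_
    have : (1 + y ^ 2) ≠ 0 := by positivity
    norm_num
    field_simp
    ring
  have hm : Monotone (fun y : ℝ => arctan y
      - (y - y ^ 3 / 3 + y ^ 5 / 5 - y ^ 7 / 7 + y ^ 9 / 9 - y ^ 11 / 11)) := by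
    refine monotone_of_deriv_nonneg (fun y => (hd y).differentiableAt) fun y => ?_
    rw [(hd y).deriv]
    positivity
  have := hm hx
  simp only [Real.arctan_zero] at this
  norm_num at this
  linarith

theorem arctan_hi {x : ℝ} (hx : 0 ≤ x) :
    arctan x ≤ x - x ^ 3 / 3 + x ^ 5 / 5 - x ^ 7 / 7 + x ^ 9 / 9 - x ^ 11 / 11 + x ^ 13 / 13 := by
  have hd : ∀ y : ℝ, HasDerivAt (fun y : ℝ =>
      (y - y ^ 3 / 3 + y ^ 5 / 5 - y ^ 7 / 7 + y ^ 9 / 9 - y ^ 11 / 11 + y ^ 13 / 13) - arctan y)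
      (y ^ 14 / (1 + y ^ 2)) y := by
    intro y
    have h := ((((((((hasDerivAt_id' y).sub ((hasDerivAt_pow 3 y).div_const 3)).add
        ((hasDerivAt_pow 5 y).div_const 5)).sub ((hasDerivAt_pow 7 y).div_const 7)).add
        ((hasDerivAt_pow 9 y).div_const 9)).sub ((hasDerivAt_pow 11 y).div_const 11)).add
        ((hasDerivAt_pow 13 y).div_const 13))).sub (Real.hasDerivAt_arctan y)
    refine h.congr_deriv ?_
    have : (1 + y ^ 2) ≠ 0 := by positivity
    norm_num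
    field_simp
    ring
  have hm : Monotone (fun y : ℝ =>
      (y - y ^ 3 / 3 + y ^ 5 / 5 - y ^ 7 / 7 + y ^ 9 / 9 - y ^ 11 / 11 + y ^ 13 / 13)
        - arctan y) := by
    refine monotone_of_deriv_nonneg (fun y => (hd y).differentiableAt) fun y => ?_
    rw [(hd y).deriv]
    positivity
  have := hm hx
  simp only [Real.arctan_zero] at this
  norm_num at this
  linarith

theorem sqrt2_lo : 1.4142135 < √2 := by
  rw [Real.lt_sqrt (by norm_num)]; norm_num

theorem sqrt2_hi : √2 < 1.4142136 := by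
  rw [Real.sqrt_lt' (by norm_num)]; norm_num

theorem sqrt3_lo : 1.7320508 < √3 := by
  rw [Real.lt_sqrt (by norm_num)]; norm_num

theorem sqrt3_hi : √3 < 1.7320509 := by
  rw [Real.sqrt_lt' (by norm_num)]; norm_num

theorem om_lo : 0.3398368 < om := by
  have h := arctan_lo (x := √2 / 4) (by positivity)
  have h2 : (√2 / 4) ^ 2 = 1 / 8 := by rw [div_pow, Real.sq_sqrt (by norm_num)]; norm_num
  have e : √2 / 4 - (√2 / 4) ^ 3 / 3 + (√2 / 4) ^ 5 / 5 - (√2 / 4) ^ 7 / 7 + (√2 / 4) ^ 9 / 9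
      - (√2 / 4) ^ 11 / 11 = √2 / 4 * (1 - 1 / 24 + 1 / 320 - 1 / 3584 + 1 / 36864
        - 1 / 360448) := by
    have e3 : (√2 / 4) ^ 3 = √2 / 4 * (1 / 8) := by rw [pow_succ, h2]; ring
    have e5 : (√2 / 4) ^ 5 = √2 / 4 * (1 / 8) ^ 2 := by rw [← h2]; ring
    have e7 : (√2 / 4) ^ 7 = √2 / 4 * (1 / 8) ^ 3 := by rw [← h2]; ring
    have e9 : (√2 / 4) ^ 9 = √2 / 4 * (1 / 8) ^ 4 := by rw [← h2]; ring
    have e11 : (√2 / 4) ^ 11 = √2 / 4 * (1 / 8) ^ 5 := by rw [← h2]; ring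
    rw [e3, e5, e7, e9, e11]
    ring
  rw [e] at h
  have hs := sqrt2_lo
  unfold om
  refine lt_of_lt_of_le ?_ h
  norm_num at *
  linarith

theorem om_hi : om < 0.339837 := by
  have h := arctan_hi (x := √2 / 4) (by positivity)
  have h2 : (√2 / 4) ^ 2 = 1 / 8 := by rw [div_pow, Real.sq_sqrt (by norm_num)]; norm_num
  have e : √2 / 4 - (√2 / 4) ^ 3 / 3 + (√2 / 4) ^ 5 / 5 - (√2 / 4) ^ 7 / 7 + (√2 / 4) ^ 9 / 9
      - (√2 / 4) ^ 11 / 11 + (√2 / 4) ^ 13 / 13
      = √2 / 4 * (1 - 1 / 24 + 1 / 320 - 1 / 3584 + 1 / 36864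
        - 1 / 360448 + 1 / 3407872) := by
    have e3 : (√2 / 4) ^ 3 = √2 / 4 * (1 / 8) := by rw [pow_succ, h2]; ring
    have e5 : (√2 / 4) ^ 5 = √2 / 4 * (1 / 8) ^ 2 := by rw [← h2]; ring
    have e7 : (√2 / 4) ^ 7 = √2 / 4 * (1 / 8) ^ 3 := by rw [← h2]; ring
    have e9 : (√2 / 4) ^ 9 = √2 / 4 * (1 / 8) ^ 4 := by rw [← h2]; ring
    have e11 : (√2 / 4) ^ 11 = √2 / 4 * (1 / 8) ^ 5 := by rw [← h2]; ring
    have e13 : (√2 / 4) ^ 13 = √2 / 4 * (1 / 8) ^ 6 := by rw [← h2]; ring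
    rw [e3, e5, e7, e9, e11, e13]
    ring
  rw [e] at h
  have hs := sqrt2_hi
  unfold om
  refine lt_of_le_of_lt h ?_
  norm_num at *
  linarith

theorem phm_om : phm = π / 4 - om / 2 := by rw [om_eq]; ring

theorem phm_lo : 0.6154794 < phm := by
  rw [phm_om]; linarith [om_hi, Real.pi_gt_d6]

theorem phm_hi : phm < 0.6154799 := by
  rw [phm_om]; linarith [om_lo, Real.pi_lt_d6]

theorem s3pi : 5.441397 < √3 * π ∧ √3 * π < 5.441399 := by
  have h1 := sqrt3_lo
  have h2 := sqrt3_hi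
  have h3 : 3.14159265 < π := by have := Real.pi_gt_d20; linarith
  have h4 : π < 3.14159266 := by have := Real.pi_lt_d20; linarith
  constructor
  · have := mul_lt_mul'' h1 h3 (by norm_num) (by norm_num)
    refine lt_trans ?_ this
    norm_num
  · have := mul_lt_mul'' h2 h4 (by positivity) (by positivity)
    refine lt_trans this ?_
    norm_num

/-- volume of the lens in the edge cell -/
theorem v_lo : 7.65e-4 < vAs - vAx := by
  have hp : vAs - vAx = √2 / 12 + 4 / 3 * om - (11 / 6 - √3 * π / 6) * (π / 4 - om / 2) := by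
    unfold vAs vAx; rw [phm_om]; ring
  have h1 := om_lo
  have h2 := sqrt2_lo
  have h3 := s3pi.1
  have h4 : π < 3.14159266 := by have := Real.pi_lt_d20; linarith
  have h5 : (11 / 6 - √3 * π / 6) * (π / 4 - om / 2)
      ≤ (11 / 6 - 5.441397 / 6) * (3.14159266 / 4 - 0.3398368 / 2) := by
    apply mul_le_mul (by linarith) (by linarith)
    · rw [← phm_om]; exact phm_pos.le
    · norm_num
  rw [hp]
  norm_num at *
  linarith

theorem v_hi : vAs - vAx < 7.67e-4 := by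
  have hp : vAs - vAx = √2 / 12 + 4 / 3 * om - (11 / 6 - √3 * π / 6) * (π / 4 - om / 2) := by
    unfold vAs vAx; rw [phm_om]; ring
  have h1 := om_hi
  have h2 := sqrt2_hi
  have h3 := s3pi
  have h4 : 3.14159265 < π := by have := Real.pi_gt_d20; linarith
  have h5 : (11 / 6 - 5.441399 / 6) * (3.14159265 / 4 - 0.339837 / 2)
      ≤ (11 / 6 - √3 * π / 6) * (π / 4 - om / 2) := by
    apply mul_le_mul (by linarith) (by linarith)
    · norm_num
    · linarith [h3.2]
  rw [hp]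
  norm_num at *
  linarith

theorem fAs_bd : 0.03209 < fAs ∧ fAs < 0.0321 := by
  unfold fAs
  rw [phm_om]
  constructor
  · linarith [om_lo, Real.pi_lt_d6]
  · linarith [om_hi, Real.pi_gt_d6]

theorem vAs_bd : 0.006776 < vAs ∧ vAs < 0.006778 := by
  unfold vAs
  rw [phm_om]
  constructor
  · linarith [om_lo, Real.pi_lt_d6, sqrt2_lo]
  · linarith [om_hi, Real.pi_gt_d6, sqrt2_hi]

theorem vAx_bd : 0.006009 < vAx ∧ vAx < 0.006013 := by
  constructor
  · linarith [v_hi, vAs_bd.1]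
  · linarith [v_lo, vAs_bd.2]

/-- `V_M` -/
theorem VM_bd : 0.4198 < VM ∧ VM < 0.4199 := by
  have hp : VM = 2 / 3 * π - √3 * π / 2 * phm := by unfold VM; rw [arccos_third]; ring
  have h1 := phm_lo
  have h2 := phm_hi
  have h3 := s3pi
  have a := Real.pi_gt_d6
  have b := Real.pi_lt_d6
  rw [hp]
  constructor
  · have : √3 * π / 2 * phm ≤ 5.441399 / 2 * 0.6154799 := by
      apply mul_le_mul (by linarith [h3.2]) (by linarith) phm_pos.le (by norm_num)
    norm_num at *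
    linarith
  · have : 5.441397 / 2 * 0.6154794 ≤ √3 * π / 2 * phm := by
      apply mul_le_mul (by linarith [h3.1]) (by linarith) (by norm_num) (by positivity)
    norm_num at *
    linarith

end Pool.Agent.Helper95.MEI.Cst
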