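import Pool.Agent.Helper95.MEI.Fub
import Pool.Agent.Helper78.MEI.Edge

/-!
# Project MEI, all bodies, regime I, row S5: the excess of a pair of opposite edges
-/

namespace Pool.Agent.Helper95.MEI.Fub

open MeasureTheory Set Real
open Helper80.CW Helper14.CW Helper93.MEI
open Pool.Agent.Helper8.MEI (DD DD_pos)
open scoped RealInnerProductSpace

/-- the tetrahedron with the two opposite edges exchanged -/
def mir (a : Fin 4 → E3) : Fin 4 → E3 := ![a 2, a 3, a 0, a 1]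

/-- the permutation behind `mir` -/
def mp : Equiv.Perm (Fin 4) := Equiv.swap 0 2 * Equiv.swap 1 3

theorem mir_perm (a : Fin 4 → E3) : mir a = fun i => a (mp i) := by
  funext i
  fin_cases i <;> rfl

theorem mir_gram {a : Fin 4 → E3} (h : Gram4 (al a)) : Gram4 (al (mir a)) := by
  rw [mir_perm]
  exact gram_perm h mp

theorem mir_bar (a : Fin 4 → E3) (x : E3) : bar (mir a) 0 x = bar a 2 x ∧
    bar (mir a) 1 x = bar a 3 x ∧ bar (mir a) 2 x = bar a 0 x ∧ bar (mir a) 3 x = bar a 1 x := by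
  rw [mir_perm]
  exact ⟨bar_perm mp 0 x, bar_perm mp 1 x, bar_perm mp 2 x, bar_perm mp 3 x⟩

theorem mir_eX (a : Fin 4 → E3) (x : E3) : eX (mir a) x = eY a x := by
  obtain ⟨h0, h1, h2, h3⟩ := mir_bar a x
  unfold eX eY; rw [h0, h1]

theorem mir_eY (a : Fin 4 → E3) (x : E3) : eY (mir a) x = eX a x := by
  obtain ⟨h0, h1, h2, h3⟩ := mir_bar a x
  unfold eX eY; rw [h2, h3]

theorem mir_eW (a : Fin 4 → E3) (x : E3) : eW (mir a) x = eV a x := by
  obtain ⟨h0, h1, h2, h3⟩ := mir_bar a x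
  unfold eW eV; rw [h2, h3]

theorem mir_eV (a : Fin 4 → E3) (x : E3) : eV (mir a) x = eW a x := by
  obtain ⟨h0, h1, h2, h3⟩ := mir_bar a x
  unfold eW eV; rw [h0, h1]

theorem mir_Q (a : Fin 4 → E3) (x : E3) : Qv (mir a) 0 x = Qv a 2 x ∧ Qv (mir a) 1 x = Qv a 3 x ∧
    Qv (mir a) 2 x = Qv a 0 x ∧ Qv (mir a) 3 x = Qv a 1 x := ⟨rfl, rfl, rfl, rfl⟩

theorem mir_Pl {a : Fin 4 → E3} {x : E3} (hx : Pl a x) : Pl (mir a) x := by
  rw [mir_perm]
  exact Pl_perm mp hx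

theorem mir_hB (a : Fin 4 → E3) (x : E3) : hB (mir a) x = hA a x := rfl

theorem mir_Zp (a : Fin 4 → E3) : Zp (mir a) 2 3 = Zp a 0 1 := by
  unfold Zp
  ext z
  obtain ⟨h0, h1, h2, h3⟩ := mir_bar a z.1
  simp only [Set.mem_ofPred_eq, h2, h3]

/-- the excess of the edge field of the edge `01` at a pair with `‖p - q‖ = 1` -/
noncomputable def exc (a : Fin 4 → E3) (z : E3 × E3) : ℝ :=
  (-((1 / 2 + 7 * eX a z.1 / 16) * Qv a 0 z.2) - (1 / 2 - 7 * eX a z.1 / 16) * Qv a 1 z.2)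
    / (4 * DD (eX a z.1) (eY a z.1) (eW a z.1))

/-- the negative part -/
noncomputable def exn (a : Fin 4 → E3) (z : E3 × E3) : ℝ :=
  ((1 / 2 + 7 * eX a z.1 / 16) * pp (Qv a 0 z.2) + (1 / 2 - 7 * eX a z.1 / 16) * pp (Qv a 1 z.2))
    / (4 * DD (eX a z.1) (eY a z.1) (eW a z.1))

theorem DD_cont : Continuous fun q : ℝ × ℝ × ℝ => DD q.1 q.2.1 q.2.2 := by
  unfold DD
  fun_prop

theorem DDe_cont (a : Fin 4 → E3) :
    Continuous fun z : E3 × E3 => DD (eX a z.1) (eY a z.1) (eW a z.1) :=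
  DD_cont.comp (((eX_cont a).comp continuous_fst).prodMk
    (((eY_cont a).comp continuous_fst).prodMk ((eW_cont a).comp continuous_fst)))

theorem exc_cont (a : Fin 4 → E3) : Continuous (exc a) := by
  unfold exc
  refine Continuous.div ?_ (continuous_const.mul (DDe_cont a)) fun z => ?_
  · have c1 : Continuous fun z : E3 × E3 => eX a z.1 := (eX_cont a).comp continuous_fst
    have c2 : Continuous fun z : E3 × E3 => Qv a 0 z.2 := (Qv_cont a 0).comp continuous_snd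
    have c3 : Continuous fun z : E3 × E3 => Qv a 1 z.2 := (Qv_cont a 1).comp continuous_snd
    fun_prop
  · have := DD_pos (eX a z.1) (eY a z.1) (eW a z.1)
    positivity

theorem exn_cont (a : Fin 4 → E3) : Continuous (exn a) := by
  unfold exn
  refine Continuous.div ?_ (continuous_const.mul (DDe_cont a)) fun z => ?_
  · have c1 : Continuous fun z : E3 × E3 => eX a z.1 := (eX_cont a).comp continuous_fst
    have c2 : Continuous fun z : E3 × E3 => pp (Qv a 0 z.2) :=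
      pp_cont.comp ((Qv_cont a 0).comp continuous_snd)
    have c3 : Continuous fun z : E3 × E3 => pp (Qv a 1 z.2) :=
      pp_cont.comp ((Qv_cont a 1).comp continuous_snd)
    fun_prop
  · have := DD_pos (eX a z.1) (eY a z.1) (eW a z.1)
    positivity

/-- the frame of helper22 -/
theorem co_e {a : Fin 4 → E3} (h : Gram4 (al a)) {b : OrthonormalBasis (Fin 3) ℝ E3}
    (h0 : b 0 = al a 0 - al a 1) (h1 : b 1 = al a 2 - al a 3) (h2 : b 2 = √2 • (al a 0 + al a 1))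
    (x : E3) : Helper22.Wedge.co b (cen a) x = (eX a x, eY a x, √2 / 4 + eW a x) := by
  obtain ⟨e0, e1, e2⟩ := frame_e h h0 h1 h2 x
  unfold Helper22.Wedge.co
  rw [e0, e1, e2]

/-- the excess is the excess of the field of the edge -/
theorem exc_eq {a : Fin 4 → E3} (h : Gram4 (al a)) {b : OrthonormalBasis (Fin 3) ℝ E3}
    (h0 : b 0 = al a 0 - al a 1) (h1 : b 1 = al a 2 - al a 3) (h2 : b 2 = √2 • (al a 0 + al a 1))
    {p q : E3} (hpq : ‖p - q‖ = 1) :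
    ⟪Helper22.Wedge.fld b (cen a) Helper22.MEI.Fa Helper22.MEI.Fb Helper22.MEI.Fc p, p - q⟫ - 1 / 4
      = exc a (p, q) := by
  obtain ⟨⟨x0, y0, w0⟩, ⟨x1, y1, w1⟩, _, _⟩ := e_vertices h
  have ha0 : Helper22.Wedge.co b (cen a) (a 0) = (1 / 2, 0, Helper22.MEI.t) := by
    rw [co_e h h0 h1 h2, x0, y0, w0]
    unfold Helper22.MEI.t
    rw [add_zero]
  have ha1 : Helper22.Wedge.co b (cen a) (a 1) = (-(1 / 2), 0, Helper22.MEI.t) := by
    rw [co_e h h0 h1 h2, x1, y1, w1]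
    unfold Helper22.MEI.t
    rw [add_zero, neg_div]
  rw [Helper78.MEI.edge_id b (cen a) hpq ha0 ha1, co_e h h0 h1 h2]
  unfold exc Qv Helper22.MEI.FD
  simp only [Helper22.MEI.t, add_sub_cancel_left]
  have hD : DD (eX a p) (eY a p) (eW a p)
      = 1 / 4 + eX a p ^ 2 / 8 + (eY a p ^ 2 + eW a p ^ 2) := rfl
  rw [hD]
  congr 1
  ring

section main

variable {a : Fin 4 → E3} (h : Gram4 (al a)) {K : Set E3} (hK : IsCompact K)
  (hpl : ∀ x ∈ K, Pl a x)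
  {σ : Measure (E3 × E3)} [IsFiniteMeasure σ] (hσ : ∀ᵐ z ∂σ, z.1 ∈ K ∧ z.2 ∈ K)
  (hQ : ∀ x ∈ K, ∀ i, Qv a i x ≤ 0.002)
include h hK hpl hσ hQ

/-- lower bound of the excess of one edge -/
theorem T_ge : 0.499 * (∫ z in Zp a 2 3, hB a z.2 ∂σ) - (∫ z in Zp a 2 3, exn a z ∂σ)
    ≤ ∫ z in Zp a 2 3, exc a z ∂σ := by
  have i1 : IntegrableOn (fun z : E3 × E3 => hB a z.2) (Zp a 2 3) σ :=
    (int_cont hK hσ ((hB_cont a).comp continuous_snd)).integrableOn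
  have i2 : IntegrableOn (exn a) (Zp a 2 3) σ := (int_cont hK hσ (exn_cont a)).integrableOn
  have i3 : IntegrableOn (exc a) (Zp a 2 3) σ := (int_cont hK hσ (exc_cont a)).integrableOn
  rw [← integral_const_mul, ← integral_sub (i1.const_mul _) i2]
  refine integral_mono_ae ((i1.const_mul _).sub i2) i3 ?_
  filter_upwards [ae_restrict_mem (Zp_meas a 2 3), ae_restrict_of_ae (s := Zp a 2 3) hσ] with z hz hz2
  have hr := r1_point h hz.1.le hz.2.le (hQ _ hz2.1 2) (hQ _ hz2.1 3) (by norm_num)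
  obtain ⟨_, hx, _⟩ := pl_e h (hpl _ hz2.1)
  exact r2_real hx hr.2.2.2.1

omit hpl in
/-- the antipode of a point of the cell: `|∫ y(q)| ≤ .078 |ν| + |∫ u_y|` -/
theorem Y_le : |∫ z in Zp a 2 3, eY a z.2 ∂σ| ≤ 0.078 * σ.real (Zp a 2 3)
    + |∫ z in Zp a 2 3, (eY a z.1 - eY a z.2) ∂σ| := by
  have i1 : IntegrableOn (fun z : E3 × E3 => eY a z.1) (Zp a 2 3) σ :=
    (int_cont hK hσ ((eY_cont a).comp continuous_fst)).integrableOn
  have i2 : IntegrableOn (fun z : E3 × E3 => eY a z.2) (Zp a 2 3) σ :=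
    (int_cont hK hσ ((eY_cont a).comp continuous_snd)).integrableOn
  have e : ∫ z in Zp a 2 3, eY a z.2 ∂σ = (∫ z in Zp a 2 3, eY a z.1 ∂σ)
      - ∫ z in Zp a 2 3, (eY a z.1 - eY a z.2) ∂σ := by
    rw [integral_sub i1 i2]; ring
  rw [e]
  refine (abs_sub _ _).trans (add_le_add ?_ le_rfl)
  have hb : ∀ᵐ z ∂(σ.restrict (Zp a 2 3)), ‖eY a z.1‖ ≤ 0.078 := by
    filter_upwards [ae_restrict_mem (Zp_meas a 2 3), ae_restrict_of_ae (s := Zp a 2 3) hσ]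
      with z hz hz2
    exact (r1_point h hz.1.le hz.2.le (hQ _ hz2.1 2) (hQ _ hz2.1 3) (by norm_num)).1
  have := norm_integral_le_of_norm_le_const hb
  rw [Real.norm_eq_abs, measureReal_restrict_apply_univ] at this
  exact this

end main

section thm

variable {a : Fin 4 → E3} (h : Gram4 (al a)) {K : Set E3} (hK : IsCompact K)
  (hpl : ∀ x ∈ K, Pl a x) (hd : ∀ x ∈ K, ∀ y ∈ K, ‖x - y‖ ≤ 1)
  {σ : Measure (E3 × E3)} [IsFiniteMeasure σ] (hσ : ∀ᵐ z ∂σ, z.1 ∈ K ∧ z.2 ∈ K)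
  (hQ : ∀ x ∈ K, ∀ i, Qv a i x ≤ 0.002)
include h hK hpl hd hσ hQ

/-- **Theorem I, Fubini part**: `T₀₁ + T₂₃ ≥ 6.06 α α' - N₀₁ - N₂₃` -/
theorem thmI (hS : σ.real (Zp a 2 3) ≤ 0.1345) (hS' : σ.real (Zp a 0 1) ≤ 0.1345)
    (hY : |∫ z in Zp a 2 3, (eY a z.1 - eY a z.2) ∂σ| ≤ 0.0045)
    (hX : |∫ z in Zp a 0 1, (eX a z.1 - eX a z.2) ∂σ| ≤ 0.0045) :
    6.06 * ((∫ z in Zp a 2 3, eV a z.2 ∂σ) * (∫ z in Zp a 0 1, eW a z.2 ∂σ))
        - ((∫ z in Zp a 2 3, exn a z ∂σ) + ∫ z in Zp a 0 1, exn (mir a) z ∂σ)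
      ≤ (∫ z in Zp a 2 3, exc a z ∂σ) + ∫ z in Zp a 0 1, exc (mir a) z ∂σ ∧
    0 ≤ (∫ z in Zp a 2 3, exc a z ∂σ) + (∫ z in Zp a 0 1, exc (mir a) z ∂σ)
      + ((∫ z in Zp a 2 3, exn a z ∂σ) + ∫ z in Zp a 0 1, exn (mir a) z ∂σ) := by
  have hpl' : ∀ x ∈ K, Pl (mir a) x := fun x hx => mir_Pl (hpl x hx)
  have hQ' : ∀ x ∈ K, ∀ i, Qv (mir a) i x ≤ 0.002 := by
    intro x hx i
    rw [mir_perm]
    exact hQ x hx (mp i)
  have t1 := T_ge h hK hpl hσ hQ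
  have t2 := T_ge (mir_gram h) hK hpl' hσ hQ'
  rw [mir_Zp] at t2
  have y1 := Y_le h hK hσ hQ
  have y2 := Y_le (mir_gram h) hK hσ hQ'
  rw [mir_Zp] at y2
  simp only [mir_eY, mir_hB] at y2 t2
  refine Helper78.MEI.thmI_arith (S := σ.real (Zp a 2 3)) (S' := σ.real (Zp a 0 1))
    (IA := ∫ z in Zp a 0 1, hA a z.2 ∂σ) (IB := ∫ z in Zp a 2 3, hB a z.2 ∂σ)
    (Y := ∫ z in Zp a 2 3, eY a z.2 ∂σ) (X := ∫ z in Zp a 0 1, eX a z.2 ∂σ)
    hS hS' (integral_nonneg fun z => hA_nonneg a z.2) (integral_nonneg fun z => hB_nonneg a z.2)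
    (y1.trans (by linarith)) (y2.trans (by linarith)) ?_ t1 t2
  exact fub_sets h hK hpl hd hσ _ _

end thm

end Pool.Agent.Helper95.MEI.Fub
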