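import Pool.Agent.Helper49.MEI.Cpl2

/-!
# Project MEI (M2), TEAM TC: the product of the two heights in the coupling disappears

`circ`: a body in the six slabs, with the four levels at most `.12`, lies in the circumscribed
ball of the tetrahedron, that is `Q_0 + Q_1 ≤ √2 h` (`h` = height over the opposite edge).
`te_pair_c`: if `M` bounds `mv + √2 (height moment)⁺` of the other cell then the coupling of
`Helper49.Cpl.te_pair_pp` holds without the product of the two height moments.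
-/

set_option autoImplicit false

namespace Helper95.MEI.Hc

open Set Metric MeasureTheory Helper80.CW Helper14.CW Helper14.MEI2
open Helper93.MEI Helper37.MEI Helper41.MEI Helper78.MEI
open Helper49.Cpl
open Helper22.Sgn (gL TE_sgn)
open Pool.Agent.Helper73.MEI (PM TE TE_exc pf pr pr_apply pf_bij)
open Pool.Agent.Helper95.MEI.Fub (Zp exc eX_cont eY_cont eW_cont Qv_cont pp_cont
  int_cont Zp_meas mir mir_gram mir_eX mir_eY mir_eW mir_eV mir_Zp mir_perm mir_Pl)
open scoped RealInnerProductSpace Real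

/-! ### the circumscribed ball -/

/-- one half (`0 ≤ t`) -/
theorem circ_half {X Y t : ℝ} (hX : 0 ≤ X) (hY : 0 ≤ Y) (hY2 : Y ≤ 1 / 2) (ht : 0 ≤ t)
    (h1 : X + Y + t ≤ 1) (l1 : X ^ 2 + Y ^ 2 + t ^ 2 / 2 + t / 2 + X ≤ 5 / 8 + 0.12)
    (l2 : X ^ 2 + Y ^ 2 + t ^ 2 / 2 - t / 2 + Y ≤ 5 / 8 + 0.12) :
    X ^ 2 + Y ^ 2 + t ^ 2 / 2 ≤ 3 / 8 := by
  by_contra hc
  push Not at hc
  have a1 : X + t / 2 < 0.37 := by linarith
  have a2 : Y - t / 2 < 0.37 := by linarith
  rcases le_or_gt (1 / 2) t with h | h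
  · have e1 : X ^ 2 + Y ^ 2 ≤ (1 - t) ^ 2 := by
      nlinarith [mul_nonneg hX hY]
    nlinarith
  rcases le_or_gt 0.26 t with h' | h'
  · rcases le_or_gt (1 / 2 - Y) t with hu | hu
    · have e1 : X ^ 2 ≤ (1 - t - Y) ^ 2 := by nlinarith
      nlinarith [mul_nonneg (sub_nonneg.2 hY2) (sub_nonneg.2 hu)]
    · have e1 : X ^ 2 ≤ 0.24 ^ 2 := by nlinarith
      have e2 : Y ^ 2 ≤ 0.24 ^ 2 := by nlinarith
      nlinarith
  · have e1 : X ^ 2 ≤ (0.37 - t / 2) ^ 2 := by nlinarith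
    have e2 : Y ^ 2 ≤ (0.37 + t / 2) ^ 2 := by nlinarith
    nlinarith

section pt
variable {a : Fin 4 → E3}

/-- **the circumscribed ball**: `Q_0 + Q_1 ≤ √2 h` -/
theorem circ (h : Gram4 (al a)) {q : E3} (hq : Pl a q) (hS : ∀ j, Qv a j q ≤ 0.12) :
    Qv a 0 q + Qv a 1 q ≤ √2 * eV a q := by
  have s2 := s2s
  obtain ⟨p1, p2, p3⟩ := pl_e h hq
  obtain ⟨p4, _, _⟩ := pl_e (mir_gram h) (mir_Pl hq)
  rw [mir_eX, mir_eY, mir_eW] at p4
  have hV := eV_eq h q
  have q0 := hS 0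
  have q1 := hS 1
  have q2 := hS 2
  have q3 := hS 3
  rw [Qv0_e h] at q0
  rw [Qv1_e h] at q1
  rw [Qv2_e h] at q2
  rw [Qv3_e h] at q3
  rw [Qv0_e h, Qv1_e h, hV]
  rw [hV] at p4
  set x := eX a q
  set y := eY a q
  set w := eW a q
  obtain ⟨t, ht⟩ : ∃ t : ℝ, t = -(√2 * w) - 1 / 2 := ⟨_, rfl⟩
  have hw : w ^ 2 = (t + 1 / 2) ^ 2 / 2 := by
    have e1 : t + 1 / 2 = -(√2 * w) := by linarith
    rw [e1]
    nlinarith
  have hx : |x| ^ 2 = x ^ 2 := sq_abs x
  have hy : |y| ^ 2 = y ^ 2 := sq_abs y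
  have hw2 : √2 * w = -t - 1 / 2 := by linarith
  have hk : √2 * (-w - √2 / 2) = t - 1 / 2 := by
    have e1 : √2 * (-w - √2 / 2) = -(√2 * w) - √2 * √2 / 2 := by ring
    rw [e1, s2, hw2]
    ring
  have m1 : |x| + |y| + t ≤ 1 := by
    have e1 : |y| + |x| + √2 * (-w - √2 / 2) ≤ 1 / 2 := p4
    rw [hk] at e1
    linarith
  have m2 : |x| + |y| - t ≤ 1 := by linarith
  have k1 : |x| ^ 2 + |y| ^ 2 + t ^ 2 / 2 + t / 2 + |x| ≤ 5 / 8 + 0.12 := by
    rcases abs_cases x with ⟨e1, _⟩ | ⟨e1, _⟩ <;> rw [hx, hy, e1] <;> nlinarith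
  have k2 : |x| ^ 2 + |y| ^ 2 + t ^ 2 / 2 - t / 2 + |y| ≤ 5 / 8 + 0.12 := by
    rcases abs_cases y with ⟨e1, _⟩ | ⟨e1, _⟩ <;> rw [hx, hy, e1] <;> nlinarith
  have key : |x| ^ 2 + |y| ^ 2 + t ^ 2 / 2 ≤ 3 / 8 := by
    rcases le_total 0 t with h0 | h0
    · exact circ_half (abs_nonneg x) (abs_nonneg y) p3 h0 m1 k1 k2
    · have := circ_half (X := |y|) (Y := |x|) (t := -t) (abs_nonneg y) (abs_nonneg x) p2
        (by linarith) (by linarith) (by nlinarith) (by nlinarith)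
      nlinarith
  rw [hx, hy] at key
  rw [hk]
  nlinarith

end pt

/-! ### integrated -/

section int
variable {a : Fin 4 → E3} {K : Set E3} {σ : Measure (E3 × E3)} [IsFiniteMeasure σ]

/-- **levels and height moment of a cell** -/
theorem dQ_dH (h : Gram4 (al a)) (hK : IsCompact K) (hp : ∀ x ∈ K, Pl a x)
    (hσ : ∀ᵐ z ∂σ, z.1 ∈ K ∧ z.2 ∈ K) (hS : ∀ j, ∀ q ∈ K, Qv a j q ≤ 0.12) :
    dQ σ a 0 + dQ σ a 1 ≤ √2 * dH σ a := by
  have c : ∀ f : E3 → ℝ, Continuous f → Integrable (fun z : E3 × E3 => de a z * f z.2) σ :=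
    fun f hf => int_cont hK hσ ((de_cont a).mul (hf.comp continuous_snd))
  have hV : Continuous (eV a) := eV_cont a
  unfold dQ dH
  rw [← integral_add (c _ (Qv_cont a 0)).integrableOn (c _ (Qv_cont a 1)).integrableOn,
    ← integral_const_mul]
  refine integral_mono_ae ((c _ (Qv_cont a 0)).integrableOn.add (c _ (Qv_cont a 1)).integrableOn)
    ((c _ hV).integrableOn.const_mul _) ?_
  filter_upwards [ae_restrict_of_ae hσ] with z hz
  have h1 := circ h (hp _ hz.2) fun j => hS j _ hz.2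
  have h2 := de_nonneg h (hp _ hz.1)
  nlinarith [mul_le_mul_of_nonneg_left h1 h2]

/-! ### the coupling with general weights -/

/-- weights `w` whose combination of the levels is nonpositive -/
theorem te_w (hP : PM K σ) (ha : ∀ i j, i ≠ j → dist (a i) (a j) = 1)
    (hp : ∀ x ∈ K, Pl a x) (m : Fin 3)
    {B : Bool → OrthonormalBasis (Fin 3) ℝ E3} (hB : ∀ e, Fr (ap a m e) (B e)) {M : ℝ}
    (hM : 0 < M) {κ w : Bool → Bool → ℝ} (h0 : ∀ e i, 0 ≤ κ e i)
    (h1 : ∀ e i, κ e i * M ≤ w e i) (h2 : ∀ e i, w e i ≤ M)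
    (hw : ∑ e, ∑ i, w e i * dQ σ (ap a m e) (if i then 1 else 0) ≤ 0) :
    -(∑ e, ∑ i, gKp σ a (κ e i) m e i) ≤ TE (B false) (cen a) σ + TE (B true) (cen a) σ := by
  have h3 : ∑ e, ∑ i, gK σ a (w e i / M) m e i ≤ ∑ e, ∑ i, gKp σ a (κ e i) m e i := by
    refine Finset.sum_le_sum fun e _ => Finset.sum_le_sum fun i _ => ?_
    refine gK_le_gKp ha hP.cpt hp hP.mem (h0 e i) ?_ ?_ m e i
    · rw [le_div_iff₀ hM]
      exact h1 e i
    · rw [div_le_one hM]
      exact h2 e i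
  have h4 : -(∑ e, ∑ i, gK σ a (w e i / M) m e i) ≤
      TE (B false) (cen a) σ + TE (B true) (cen a) σ := by
    rw [TE_sgn hP ha m false (hB false), TE_sgn hP ha m true (hB true)]
    simp only [Fintype.sum_bool] at hw ⊢
    rw [gK_eq hP.cpt hP.mem, gK_eq hP.cpt hP.mem, gK_eq hP.cpt hP.mem, gK_eq hP.cpt hP.mem]
    simp only [if_true, Bool.false_eq_true, if_false] at hw ⊢
    set q0 := dQ σ (ap a m false) 0
    set q1 := dQ σ (ap a m false) 1
    set q2 := dQ σ (ap a m true) 0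
    set q3 := dQ σ (ap a m true) 1
    have e : w true true / M / 2 * q3 + w true false / M / 2 * q2 +
        (w false true / M / 2 * q1 + w false false / M / 2 * q0) =
        (w true true * q3 + w true false * q2 + (w false true * q1 + w false false * q0)) /
          M / 2 := by
      field_simp
    have k : (w true true * q3 + w true false * q2 + (w false true * q1 + w false false * q0)) /
          M / 2 ≤ 0 := by
      apply div_nonpos_of_nonpos_of_nonneg _ (by norm_num)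
      exact div_nonpos_of_nonpos_of_nonneg hw hM.le
    rw [← e] at k
    linarith
  linarith

/-- **the pair of opposite edges without the product of the heights**: `M` bounds
`mv + γ (height moment of the other cell)⁺` -/
theorem te_pair_γ (hP : PM K σ) (ha : ∀ i j, i ≠ j → dist (a i) (a j) = 1)
    (hd : ∀ x ∈ K, ∀ y ∈ K, ‖x - y‖ ≤ 1) (hp : ∀ x ∈ K, Pl a x) (m : Fin 3)
    {B : Bool → OrthonormalBasis (Fin 3) ℝ E3} (hB : ∀ e, Fr (ap a m e) (B e)) {M : ℝ}
    (hM : 0 < M) {γ : ℝ} (hγ0 : 0 ≤ γ)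
    (hγ : ∀ e, γ * (dQ σ (ap a m e) 0 + dQ σ (ap a m e) 1) ≤ 2 * dH σ (ap a m e))
    {κ : Bool → Bool → ℝ} (h0 : ∀ e i, 0 ≤ κ e i)
    (h1 : ∀ e i, κ e i * M ≤ mv σ a m e i)
    (h2 : ∀ e i, mv σ a m e i + γ * pp (dH σ (ap a m (!e))) ≤ M) :
    -(∑ e, ∑ i, gKp σ a (κ e i) m e i) ≤ TE (B false) (cen a) σ + TE (B true) (cen a) σ := by
  have hg : Gram4 (al (ap a m false)) := gram_of_dist (hap ha m false)
  have hpl : ∀ x ∈ K, Pl (ap a m false) x := fun x hx => Pl_perm (pr m false) (hp x hx)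
  have key := cpl95 hg hP.cpt hd hpl hP.mem
  rw [← ap_mir a m] at key
  have g0 := hγ false
  have g1 := hγ true
  obtain ⟨x, hx⟩ : ∃ x : Bool → ℝ, x = fun e =>
      if 0 ≤ dH σ (ap a m false) * dH σ (ap a m true) then 0 else
        γ * pp (dH σ (ap a m (!e))) := ⟨_, rfl⟩
  have hx0 : ∀ e, 0 ≤ x e := by
    intro e
    rw [hx]
    dsimp only
    split_ifs
    · exact le_rfl
    · exact mul_nonneg hγ0 (pp_nonneg _)
  have hx1 : ∀ e, x e ≤ γ * pp (dH σ (ap a m (!e))) := by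
    intro e
    rw [hx]
    dsimp only
    split_ifs
    · exact mul_nonneg hγ0 (pp_nonneg _)
    · exact le_rfl
  refine te_w (w := fun e i => mv σ a m e i + x e) hP ha hp m hB hM h0
    (fun e i => (h1 e i).trans (by linarith [hx0 e])) (fun e i => ?_) ?_
  · have := h2 e i
    have := hx1 e
    linarith
  · have e2 : x false * (dQ σ (ap a m false) 0 + dQ σ (ap a m false) 1) +
        x true * (dQ σ (ap a m true) 0 + dQ σ (ap a m true) 1) ≤
        2 * (dH σ (ap a m false) * dH σ (ap a m true)) := by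
      rw [hx]
      dsimp only
      simp only [Bool.not_false, Bool.not_true]
      split_ifs with hc
      · linarith
      · push Not at hc
        rcases lt_or_ge 0 (dH σ (ap a m true)) with ht | ht
        · have hf : dH σ (ap a m false) ≤ 0 := by nlinarith
          have e3 : pp (dH σ (ap a m true)) = dH σ (ap a m true) := max_eq_left ht.le
          have e4 : pp (dH σ (ap a m false)) = 0 := max_eq_right hf
          rw [e3, e4]
          nlinarith [mul_le_mul_of_nonneg_left g0 ht.le]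
        · have hf : 0 ≤ dH σ (ap a m false) := by nlinarith
          have e3 : pp (dH σ (ap a m true)) = 0 := max_eq_right ht
          have e4 : pp (dH σ (ap a m false)) = dH σ (ap a m false) := max_eq_left hf
          rw [e3, e4]
          nlinarith [mul_le_mul_of_nonneg_left g1 hf]
    simp only [Fintype.sum_bool]
    unfold mv
    simp only [Bool.not_false, Bool.not_true, if_true, Bool.false_eq_true, if_false]
    linarith

/-- **the pair of opposite edges, clean form**: `M ≥ mv + √2 (height moment)⁺`, levels `≤ .12` -/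
theorem te_pair_c (hP : PM K σ) (ha : ∀ i j, i ≠ j → dist (a i) (a j) = 1)
    (hd : ∀ x ∈ K, ∀ y ∈ K, ‖x - y‖ ≤ 1) (hp : ∀ x ∈ K, Pl a x)
    (hS : ∀ j, ∀ q ∈ K, Qv a j q ≤ 0.12) (m : Fin 3)
    {B : Bool → OrthonormalBasis (Fin 3) ℝ E3} (hB : ∀ e, Fr (ap a m e) (B e)) {M : ℝ}
    (hM : 0 < M) {κ : Bool → Bool → ℝ} (h0 : ∀ e i, 0 ≤ κ e i)
    (h1 : ∀ e i, κ e i * M ≤ mv σ a m e i)
    (h2 : ∀ e i, mv σ a m e i + √2 * pp (dH σ (ap a m (!e))) ≤ M) :
    -(∑ e, ∑ i, gKp σ a (κ e i) m e i) ≤ TE (B false) (cen a) σ + TE (B true) (cen a) σ := by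
  refine te_pair_γ hP ha hd hp m hB hM (Real.sqrt_nonneg 2) (fun e => ?_) h0 h1 h2
  have hg : Gram4 (al (ap a m e)) := gram_of_dist (hap ha m e)
  have h3 := dQ_dH hg hP.cpt (fun x hx => Pl_perm (pr m e) (hp x hx)) hP.mem
    (fun j q hq => hS (pf m e j) q hq)
  have h4 := mul_le_mul_of_nonneg_left h3 (Real.sqrt_nonneg 2)
  have s2 := s2s
  calc √2 * (dQ σ (ap a m e) 0 + dQ σ (ap a m e) 1)
      ≤ √2 * (√2 * dH σ (ap a m e)) := h4
    _ = 2 * dH σ (ap a m e) := by rw [← mul_assoc, s2]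

end int

end Helper95.MEI.Hc
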