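import Pool.Agent.Helper95.MEI.JtN
import Pool.Agent.Helper47.MEI.MomP

/-!
# Project MEI (M2), TEAM TC: the numbers of the joint form, profile `ph22 = 15/16 (1 - 4 x²)`

`Xd θ τ S m e i`: upper bound of the moment `mX ph22 σ a m e i` (helper47, helper93);
`pH_num`: the positive part of the height moment; `jl_ph`, `jl_min`: the structure `JL`, `L = 0`.
-/

set_option autoImplicit false

namespace Helper95.MEI.JP

open Set Metric MeasureTheory Helper80.CW Helper14.CW Helper14.MEI2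
open Helper93.MEI Helper37.MEI Helper41.MEI Helper78.MEI
open Helper49.Cpl Helper22.Cpd
open Helper53.MEI (gp)
open Helper22.P0 (p0_low TS dp_wF)
open Helper95.MEI.Jt (JL mX_pb gp_nonneg vx_all)
open Helper95.MEI.Hc (pb pH_up)
open Pool.Agent.Helper73.MEI (PM TE TE_exc pf pr pr_apply pf_bij)
open Pool.Agent.Helper95.MEI.Fub (Zp)
open scoped RealInnerProductSpace Real

/-- constant of the upper bound: bulk parameter `θ`, slab parameter `τ` -/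
noncomputable def cX (θ τ : ℝ) : ℝ :=
  0.05345 - (θ * (2 - θ) * 0.005584 + θ ^ 2 * (3 - 2 * θ) * 0.001467) +
    1.41422 * (15 / 4 * (τ - τ ^ 2) * gp τ)

/-- coefficient of the level of the partner -/
noncomputable def cP (τ : ℝ) : ℝ := 0.36843 - 2.1743 * τ ^ 2 + 1.4497 * τ ^ 3

/-- coefficient of the two levels of the opposite edge -/
noncomputable def cO (θ : ℝ) : ℝ := 0.08294 + 0.032284 * θ + 0.012371 * θ ^ 2

/-- upper bound of the moment of the vertex `(m, e, i)` -/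
noncomputable def Xd (θ τ : ℝ) (S : Fin 4 → ℝ) (m : Fin 3) (e i : Bool) : ℝ :=
  cX θ τ + cP τ * S (vx m e (!i)) + cO θ * (S (vx m (!e) false) + S (vx m (!e) true))

/-- upper bound of the moment plus the positive part of the height moment -/
noncomputable def Ud (r θ τ : ℝ) (S : Fin 4 → ℝ) (m : Fin 3) (e i : Bool) : ℝ :=
  Xd θ τ S m e i + r / 2 * (Xd θ τ S m e false + Xd θ τ S m e true)

/-- the cap is affine in the levels -/
theorem Ud_eq (r θ τ : ℝ) (S : Fin 4 → ℝ) (m : Fin 3) (e i : Bool) :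
    Ud r θ τ S m e i = (1 + r) * cX θ τ +
      cP τ * ((1 + r / 2) * S (vx m e (!i)) + r / 2 * S (vx m e i)) +
      (1 + r) * cO θ * (S (vx m (!e) false) + S (vx m (!e) true)) := by
  unfold Ud Xd
  cases i
  · rw [Bool.not_false, Bool.not_true]
    ring
  · rw [Bool.not_false, Bool.not_true]
    ring

/-- numbers at `θ = 1`, `τ = 0, .05, .1, .15, .2` -/
theorem cX_num : cX 1 0 ≤ 0.046399 ∧ cX 1 (1 / 20) ≤ 0.046413 ∧ cX 1 (1 / 10) ≤ 0.04659 ∧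
    cX 1 (3 / 20) ≤ 0.04729 ∧ cX 1 (1 / 5) ≤ 0.049 := by
  unfold cX gp
  norm_num

theorem cP_num : cP 0 ≤ 0.36843 ∧ cP (1 / 20) ≤ 0.36318 ∧ cP (1 / 10) ≤ 0.34814 ∧
    cP (3 / 20) ≤ 0.32441 ∧ cP (1 / 5) ≤ 0.29306 := by
  unfold cP
  norm_num

theorem cO_num : cO 1 ≤ 0.127595 := by
  unfold cO
  norm_num

/-- walls from below -/
theorem JGl_ph (s1 s2 : ℝ) (h : 0 ≤ s1 + s2) :
    0.0752 - 0.2346 * (s1 + s2) ≤ √2 * Helper53.MEI.JGl ph22 s1 s2 := by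
  rw [Helper47.MEI.MomP.ph22_pq, Helper47.MEI.MomP.JGl_pq]
  have s2' : √2 * √2 = 2 := Real.mul_self_sqrt (by norm_num)
  have e : √2 * (√2 * (2 * (15 / 16 * (681479 / 27216000) + -(15 / 4) * (23651 / 19008000))) -
      √2 / 3 * (2 * (0.5774 * (s1 + s2) * (23 / 48 * (15 / 16) + 37 / 960 * -(15 / 4)) +
        (s1 - s2) * (37 / 960 * 0)))) =
      √2 * √2 * ((2 * (15 / 16 * (681479 / 27216000) + -(15 / 4) * (23651 / 19008000))) -
      1 / 3 * (2 * (0.5774 * (s1 + s2) * (23 / 48 * (15 / 16) + 37 / 960 * -(15 / 4))))) := by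
    ring
  rw [e, s2']
  norm_num
  linarith

section int
variable {a : Fin 4 → E3} {K : Set E3} {σ : Measure (E3 × E3)} [IsFiniteMeasure σ]
  (h : PM K σ) (ha : ∀ i j, i ≠ j → dist (a i) (a j) = 1)
  (hull : ∀ p, (∀ q ∈ K, ‖p - q‖ ≤ 1) → p ∈ K) (hp : ∀ x ∈ K, Pl a x)
  {B : Fin 3 → Bool → OrthonormalBasis (Fin 3) ℝ E3}
  (hB : ∀ m e, Fr (fun i => a (pr m e i)) (B m e)) {S : Fin 4 → ℝ} (hS0 : ∀ i, 0 ≤ S i)
  (hQ : ∀ i, ∀ q ∈ K, Qv a i q ≤ S i)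
  {τ : ℝ} (t0 : 0 ≤ τ) (t1 : τ ≤ 3 / 10) {θ : ℝ} (u0 : 0 ≤ θ) (u1 : θ ≤ 1)

include h ha hull hp hB hS0 hQ t0 t1 u0 u1

/-- **upper bound of the moments** -/
theorem mX_ph_le (m : Fin 3) (e i : Bool) : mX ph22 σ a m e i ≤ Xd θ τ S m e i := by
  have hv := vx_opp m e
  have g0 := gp_nonneg t0 t1
  have g2 : 0 ≤ 15 / 4 * (τ - τ ^ 2) * gp τ := mul_nonneg (by nlinarith) g0
  have g1 := mul_le_mul_of_nonneg_right Helper53.MEI.r2b.2 g2
  unfold Xd cX cP cO mX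
  simp only [dp_wF]
  cases i
  · have k := Helper93.MEI.Blk.momF_all_blk h ha hull hp hB hS0 hQ m (!e) (k := 2) (k' := 3)
      (Or.inl ⟨rfl, rfl⟩) Helper93.MEI.Blk.wgt_ph ph22_cont u0 u1
    have k2 := Helper47.MEI.MomP.num_ph (hS0 (pf m (!e) 3)) (hS0 (pf m (!e) 0))
      (hS0 (pf m (!e) 1)) t0 t1
    have k3 := Helper93.MEI.Blk.BK_ph u0 u1 (hS0 (pf m (!e) 0)) (hS0 (pf m (!e) 1))
    rw [← hv.1] at k
    rw [← hv.2] at k k2
    rw [← vx_false m (!e), ← vx_true m (!e)] at k k2 k3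
    rw [Bool.not_false]
    linarith
  · have k := Helper93.MEI.Blk.momF_all_blk h ha hull hp hB hS0 hQ m (!e) (k := 3) (k' := 2)
      (Or.inr ⟨rfl, rfl⟩) Helper93.MEI.Blk.wgt_ph ph22_cont u0 u1
    have k2 := Helper47.MEI.MomP.num_ph (hS0 (pf m (!e) 2)) (hS0 (pf m (!e) 0))
      (hS0 (pf m (!e) 1)) t0 t1
    have k3 := Helper93.MEI.Blk.BK_ph u0 u1 (hS0 (pf m (!e) 0)) (hS0 (pf m (!e) 1))
    rw [← hv.2] at k
    rw [← hv.1] at k k2
    rw [← vx_false m (!e), ← vx_true m (!e)] at k k2 k3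
    rw [Bool.not_true]
    linarith

set_option linter.unusedSectionVars false in
omit [IsFiniteMeasure σ] h ha hull hp hB hQ in
/-- the bound is nonnegative -/
theorem Xd_nonneg (m : Fin 3) (e i : Bool) : 0 ≤ Xd θ τ S m e i := by
  have g0 := gp_nonneg t0 t1
  have h1 := hS0 (vx m e (!i))
  have h2 := hS0 (vx m (!e) false)
  have h3 := hS0 (vx m (!e) true)
  have e1 : 0 ≤ cX θ τ := by
    have a1 : 0 ≤ 1.41422 * (15 / 4 * (τ - τ ^ 2) * gp τ) :=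
      mul_nonneg (by norm_num) (mul_nonneg (by nlinarith) g0)
    have a2 : θ * (2 - θ) ≤ 1 := by nlinarith [sq_nonneg (1 - θ)]
    have a3 : θ ^ 2 * (3 - 2 * θ) ≤ 1 := by
      have e : 1 - θ ^ 2 * (3 - 2 * θ) = (1 - θ) ^ 2 * (1 + 2 * θ) := by ring
      have : 0 ≤ (1 - θ) ^ 2 * (1 + 2 * θ) := mul_nonneg (sq_nonneg _) (by linarith)
      linarith
    unfold cX
    linarith
  have e2 : 0 ≤ cP τ := by
    unfold cP
    have a1 : τ ^ 2 ≤ (3 / 10) ^ 2 := pow_le_pow_left₀ t0 t1 2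
    have a2 : 0 ≤ τ ^ 3 := by positivity
    linarith
  have e3 : 0 ≤ cO θ := by
    unfold cO
    positivity
  unfold Xd
  have := mul_nonneg e2 h1
  have := mul_nonneg e3 (add_nonneg h2 h3)
  linarith

/-- **the positive part of the height moment** -/
theorem pH_num {r T : ℝ} (hT : ∀ i, S i ≤ T) (hr0 : 0 ≤ r) (hr1 : r ≤ 1)
    (hr : (1 - r) ^ 2 * (3 / 2 + 2 * T) ≤ 1) (m : Fin 3) (e : Bool) :
    √2 / 2 * pp (pH ph22 σ (ap a m (!e))) ≤
      r / 2 * (Xd θ τ S m e false + Xd θ τ S m e true) := by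
  have x0 := Xd_nonneg hS0 t0 t1 u0 u1 m e false
  have x1 := Xd_nonneg hS0 t0 t1 u0 u1 m e true
  have k0 := mX_ph_le h ha hull hp hB hS0 hQ t0 t1 u0 u1 m e false
  have k1 := mX_ph_le h ha hull hp hB hS0 hQ t0 t1 u0 u1 m e true
  rw [mX_pb] at k0 k1
  simp only [Bool.false_eq_true, if_false] at k0
  simp only [if_true] at k1
  exact pH_up prof22.cont prof22.nn (gram_of_dist (hap ha m (!e))) h.cpt h.mem
    (fun x hx => Pl_perm (pr m (!e)) (hp x hx)) (S := T)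
    (fun q hq => (hQ (pf m (!e) 0) q hq).trans (hT _))
    (fun q hq => (hQ (pf m (!e) 1) q hq).trans (hT _)) hr0 hr1 hr k0 k1 (add_nonneg x0 x1)

omit [IsFiniteMeasure σ] h ha hull hp hB hQ t0 t1 u0 u1 in
/-- one affine normalisation for all pairs, `T1` = the maximal level -/
theorem Ud_le {r T1 : ℝ} (hT : ∀ i, S i ≤ T1) (m : Fin 3) (e i : Bool)
    (hc : (1 + r) * cO θ ≤ (1 + r / 2) * cP τ) (hc2 : r / 2 * cP τ ≤ (1 + r) * cO θ) :
    Ud r θ τ S m e i ≤ (1 + r) * cX θ τ + (1 + r / 2) * cP τ * T1 +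
      (1 + r) * cO θ * (S 0 + S 1 + S 2 + S 3 - T1) := by
  have h1 := vx_all m e i S
  have k1 := mul_nonneg (sub_nonneg.2 (hT (vx m e (!i)))) (sub_nonneg.2 hc)
  have k2 := mul_nonneg (hS0 (vx m e i)) (sub_nonneg.2 hc2)
  rw [Ud_eq, ← h1]
  linarith

/-- **the numbers of the joint form**, general mass row -/
theorem jl_gen {r T : ℝ} (hT : ∀ i, S i ≤ T) (hr0 : 0 ≤ r) (hr1 : r ≤ 1)
    (hr : (1 - r) ^ 2 * (3 / 2 + 2 * T) ≤ 1) {k1 : ℝ} (hk0 : 0 < k1) (hk1 : k1 ≤ 1)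
    {M : Fin 3 → ℝ} {U : Fin 3 → Bool → Bool → ℝ} {s : Fin 3 → Bool → ℝ}
    (hM : ∀ m, 0 < M m) (hU : ∀ m e i, Ud r θ τ S m e i ≤ U m e i)
    (hUM : ∀ m e i, U m e i ≤ k1 * M m)
    (hs : ∀ m e, s m e ≤ p0 ph22 σ (ap a m (!e))) (hsU : ∀ m e i, s m e ≤ U m e i) :
    JL ph22 σ a k1 M U (fun _ _ _ => 0) s where
  kpos := hk0
  kle := hk1
  pos := hM
  up m e i := by
    have k1 := mX_ph_le h ha hull hp hB hS0 hQ t0 t1 u0 u1 m e i
    have k2 := pH_num h ha hull hp hB hS0 hQ t0 t1 u0 u1 hT hr0 hr1 hr m e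
    have k3 := hU m e i
    unfold Ud at k3
    linarith
  le := hUM
  nn m e i := by
    have x0 := Xd_nonneg hS0 t0 t1 u0 u1 m e false
    have x1 := Xd_nonneg hS0 t0 t1 u0 u1 m e true
    have x2 := Xd_nonneg hS0 t0 t1 u0 u1 m e i
    have k3 := hU m e i
    unfold Ud at k3
    have := mul_nonneg (by linarith : 0 ≤ r / 2) (add_nonneg x0 x1)
    linarith
  low m e i := pp_nonneg _
  mass := hs
  sum m e i := by
    have := hsU m e i
    linarith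

/-- **the numbers of the joint form**, mass row of helper22 -/
theorem jl_ph {r T : ℝ} (hT : ∀ i, S i ≤ T) (hT2 : T ≤ 3 / 20) (hr0 : 0 ≤ r) (hr1 : r ≤ 1)
    (hr : (1 - r) ^ 2 * (3 / 2 + 2 * T) ≤ 1) {c0 : ℝ} (hc0 : 0 ≤ c0)
    (hc : c0 * (1 + TS T) ≤ 1) {k1 : ℝ} (hk0 : 0 < k1) (hk1 : k1 ≤ 1)
    {M : Fin 3 → ℝ} {U : Fin 3 → Bool → Bool → ℝ} {s : Fin 3 → Bool → ℝ}
    (hM : ∀ m, 0 < M m) (hU : ∀ m e i, Ud r θ τ S m e i ≤ U m e i)
    (hUM : ∀ m e i, U m e i ≤ k1 * M m)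
    (hs : ∀ m e, s m e ≤ c0 * (0.0752 - 0.2346 * (S (vx m (!e) false) + S (vx m (!e) true))))
    (hsU : ∀ m e i, s m e ≤ U m e i) :
    JL ph22 σ a k1 M U (fun _ _ _ => 0) s := by
  refine jl_gen h ha hull hp hB hS0 hQ t0 t1 u0 u1 hT hr0 hr1 hr hk0 hk1 hM hU hUM
    (fun m e => ?_) hsU
  have k := p0_low h ha hull hp hB hS0 hQ Helper93.MEI.Blk.wgt_ph ph22_cont m (!e) (s := T)
    (hT _) (hT _) hT2 hc0 hc
  have k2 := mul_le_mul_of_nonneg_left (JGl_ph (S (pf m (!e) 0)) (S (pf m (!e) 1))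
    (add_nonneg (hS0 _) (hS0 _))) hc0
  exact ((hs m e).trans k2).trans k

/-- the same with the caps `Ud` and the sum numbers cut at the caps -/
theorem jl_min {r T : ℝ} (hT : ∀ i, S i ≤ T) (hr0 : 0 ≤ r) (hr1 : r ≤ 1)
    (hr : (1 - r) ^ 2 * (3 / 2 + 2 * T) ≤ 1) {k1 : ℝ} (hk0 : 0 < k1) (hk1 : k1 ≤ 1)
    {M : Fin 3 → ℝ} {s : Fin 3 → Bool → ℝ}
    (hM : ∀ m, 0 < M m) (hUM : ∀ m e i, Ud r θ τ S m e i ≤ k1 * M m)
    (hs : ∀ m e, s m e ≤ p0 ph22 σ (ap a m (!e))) :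
    JL ph22 σ a k1 M (Ud r θ τ S) (fun _ _ _ => 0)
      (fun m e => min (s m e) (min (Ud r θ τ S m e false) (Ud r θ τ S m e true))) := by
  refine jl_gen h ha hull hp hB hS0 hQ t0 t1 u0 u1 hT hr0 hr1 hr hk0 hk1 hM
    (fun m e i => le_rfl) hUM (fun m e => (min_le_left _ _).trans (hs m e)) fun m e i => ?_
  cases i
  · exact (min_le_right _ _).trans (min_le_left _ _)
  · exact (min_le_right _ _).trans (min_le_right _ _)

end int

end Helper95.MEI.JP
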