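import Pool.Agent.Helper95.MEI.Hc3

/-!
# Project MEI (M2), TEAM TC: coupling with barycentric weights

`bm m e i` = the integral of the density of the other cell times the barycentric coordinate of the
vertex.  `kb` = the coefficients (`bm/M`, corrected when a height moment is negative);
`TL_l3b`: the system `l3 φ kb` satisfies `TL` with `ε = 0`; `kb_ge`, `kb_le`: bounds of the
coefficients by `bm` and the positive part of the height moment only.
-/

set_option autoImplicit false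

namespace Helper95.MEI.Hc

open Set Metric MeasureTheory Helper80.CW Helper14.CW Helper14.MEI2
open Helper93.MEI Helper37.MEI Helper41.MEI Helper78.MEI
open Helper49.Cpl Helper22.Cpd
open Helper22.Sgn (gL TE_sgn)
open Pool.Agent.Helper73.MEI (PM TE TE_exc pf pr pr_apply pf_bij)
open Pool.Agent.Helper95.MEI.Fub (Zp exc eX_cont eY_cont eW_cont Qv_cont pp_cont
  int_cont Zp_meas mir mir_gram mir_eX mir_eY mir_eW mir_eV mir_Zp mir_perm mir_Pl)
open scoped RealInnerProductSpace Real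

section defs
variable (φ : ℝ → ℝ) (σ : Measure (E3 × E3)) (a : Fin 4 → E3)

/-- moment of the coordinate `k` over the cell of the frame -/
noncomputable def pb (k : Fin 4) : ℝ := ∫ z in Zp a 2 3, dp φ a z * bar a k z.2 ∂σ

/-- the barycentric number of the vertex `(m, e, i)`: moment of its coordinate over the other
cell -/
noncomputable def bm (m : Fin 3) (e i : Bool) : ℝ :=
  pb φ σ (ap a m (!e)) (if i then 3 else 2)

/-- the sum of the two levels of a cell -/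
noncomputable def sQ (m : Fin 3) (e : Bool) : ℝ :=
  pQ φ σ (ap a m e) 0 + pQ φ σ (ap a m e) 1

/-- the correction when the height moment of the cell is negative -/
noncomputable def yb (m : Fin 3) (e : Bool) : ℝ :=
  if pH φ σ (ap a m e) < 0 then √2 / 2 * pH φ σ (ap a m (!e)) - sQ φ σ a m (!e) / 2 else 0

/-- the coefficients -/
noncomputable def kb (k1 : ℝ) (M : Fin 3 → ℝ) (m : Fin 3) (e i : Bool) : ℝ :=
  if sQ φ σ a m false ≤ 0 ∧ sQ φ σ a m true ≤ 0 then k1 else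
    (bm φ σ a m e i + yb φ σ a m e) / M m

end defs

section pt
variable {φ : ℝ → ℝ} {a : Fin 4 → E3}

theorem bar2_V (h : Gram4 (al a)) (x : E3) : bar a 2 x = 1 / 2 + eY a x + √2 / 2 * eV a x := by
  have hs := bar_sum h x
  have s2 := s2s
  unfold eY eV
  linear_combination 1 / 2 * hs + (1 / 4) * (bar a 0 x + bar a 1 x) * s2

theorem bar3_V (h : Gram4 (al a)) (x : E3) : bar a 3 x = 1 / 2 - eY a x + √2 / 2 * eV a x := by
  have hs := bar_sum h x
  have s2 := s2s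
  unfold eY eV
  linear_combination 1 / 2 * hs + (1 / 4) * (bar a 0 x + bar a 1 x) * s2

/-- the height is at most a fraction of the two coordinates -/
theorem eV_le (h : Gram4 (al a)) {q : E3} {S r : ℝ} (h0 : Qv a 0 q ≤ S) (h1 : Qv a 1 q ≤ S)
    (hr1 : r ≤ 1) (hr : (1 - r) ^ 2 * (3 / 2 + 2 * S) ≤ 1) (hq : |eY a q| ≤ 1 / 2) :
    √2 * eV a q ≤ r * (bar a 2 q + bar a 3 q) := by
  have s2 := s2s
  rw [bar2_V h, bar3_V h]
  have hy := abs_le.1 hq
  have e0 := Qv0_e h q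
  have e1 := Qv1_e h q
  have hV := eV_eq h q
  obtain ⟨s, hs⟩ : ∃ s : ℝ, s = √2 * eV a q := ⟨_, rfl⟩
  have hw : eW a q = -eV a q - √2 / 2 := by linarith
  have hs2 : s ^ 2 = 2 * eV a q ^ 2 := by
    rw [hs, mul_pow]
    rw [show √2 ^ 2 = (2 : ℝ) from by rw [sq, s2]]
  have hw2 : eW a q ^ 2 = eV a q ^ 2 + s + 1 / 2 := by
    rw [hw, hs]
    linear_combination (1 / 4 : ℝ) * s2
  have hR : (1 + s) ^ 2 ≤ 3 / 2 + 2 * S := by
    have k : eX a q ^ 2 + eY a q ^ 2 + eW a q ^ 2 - 3 / 4 ≤ S := by linarith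
    have k2 := sq_nonneg (eX a q)
    have k3 := sq_nonneg (eY a q)
    nlinarith
  have e3 : r * (1 / 2 + eY a q + √2 / 2 * eV a q + (1 / 2 - eY a q + √2 / 2 * eV a q)) =
      r * (1 + s) := by
    rw [hs]
    ring
  rw [e3, ← hs]
  have hr0 : 0 ≤ 1 - r := by linarith
  have k1 : ((1 - r) * (1 + s)) ^ 2 ≤ 1 := by
    rw [mul_pow]
    exact (mul_le_mul_of_nonneg_left hR (sq_nonneg _)).trans hr
  have k2 : (1 - r) * (1 + s) ≤ 1 := by
    nlinarith
  linarith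

end pt

/-! ### moments -/

section int
variable {φ : ℝ → ℝ} {a : Fin 4 → E3} {K : Set E3} {σ : Measure (E3 × E3)} [IsFiniteMeasure σ]

theorem dpf_int (hφ : Continuous φ) (hK : IsCompact K) (hσ : ∀ᵐ z ∂σ, z.1 ∈ K ∧ z.2 ∈ K)
    {f : E3 → ℝ} (hf : Continuous f) : Integrable (fun z : E3 × E3 => dp φ a z * f z.2) σ :=
  int_cont hK hσ ((dp_cont hφ a).mul (hf.comp continuous_snd))

/-- the barycentric moments in terms of mass, position and height -/
theorem pb_eq (hφ : Continuous φ) (h : Gram4 (al a)) (hK : IsCompact K)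
    (hσ : ∀ᵐ z ∂σ, z.1 ∈ K ∧ z.2 ∈ K) :
    pb φ σ a 2 = p0 φ σ a / 2 + pY φ σ a + √2 / 2 * pH φ σ a ∧
    pb φ σ a 3 = p0 φ σ a / 2 - pY φ σ a + √2 / 2 * pH φ σ a := by
  have c0 : Integrable (fun z : E3 × E3 => dp φ a z) (σ.restrict (Zp a 2 3)) :=
    (int_cont hK hσ (dp_cont hφ a)).integrableOn
  have cY : Integrable (fun z : E3 × E3 => dp φ a z * eY a z.2) (σ.restrict (Zp a 2 3)) :=
    (dpf_int hφ hK hσ (eY_cont a)).integrableOn
  have cV : Integrable (fun z : E3 × E3 => dp φ a z * eV a z.2) (σ.restrict (Zp a 2 3)) :=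
    (dpf_int hφ hK hσ (eV_cont a)).integrableOn
  have cA : Integrable (fun z : E3 × E3 => dp φ a z / 2 + dp φ a z * eY a z.2)
      (σ.restrict (Zp a 2 3)) := (c0.div_const 2).add cY
  have cB : Integrable (fun z : E3 × E3 => dp φ a z / 2 - dp φ a z * eY a z.2)
      (σ.restrict (Zp a 2 3)) := (c0.div_const 2).sub cY
  unfold pb p0 pY pH
  constructor
  · rw [← integral_div, ← integral_const_mul, ← integral_add (c0.div_const 2) cY,
      ← integral_add cA (cV.const_mul _)]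
    refine integral_congr_ae (Filter.Eventually.of_forall fun z => ?_)
    show dp φ a z * bar a 2 z.2 = _
    rw [bar2_V h]
    ring
  · rw [← integral_div, ← integral_const_mul, ← integral_sub (c0.div_const 2) cY,
      ← integral_add cB (cV.const_mul _)]
    refine integral_congr_ae (Filter.Eventually.of_forall fun z => ?_)
    show dp φ a z * bar a 3 z.2 = _
    rw [bar3_V h]
    ring

/-- **the height moment is at most a fraction of the two moments** -/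
theorem pH_le (hφ : Continuous φ) (hn : ∀ x, |x| ≤ 1 / 2 → 0 ≤ φ x) (h : Gram4 (al a))
    (hK : IsCompact K) (hσ : ∀ᵐ z ∂σ, z.1 ∈ K ∧ z.2 ∈ K) (hp : ∀ x ∈ K, Pl a x)
    {S r : ℝ} (h0 : ∀ q ∈ K, Qv a 0 q ≤ S) (h1 : ∀ q ∈ K, Qv a 1 q ≤ S)
    (hr1 : r ≤ 1) (hr : (1 - r) ^ 2 * (3 / 2 + 2 * S) ≤ 1) :
    √2 * pH φ σ a ≤ r * (pb φ σ a 2 + pb φ σ a 3) := by
  have c2 := (dpf_int (a := a) hφ hK hσ (Pool.Agent.Helper95.MEI.Fub.bar_cont a 2)).integrableOn (s := Zp a 2 3)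
  have c3 := (dpf_int (a := a) hφ hK hσ (Pool.Agent.Helper95.MEI.Fub.bar_cont a 3)).integrableOn (s := Zp a 2 3)
  have cV := (dpf_int (a := a) hφ hK hσ (eV_cont a)).integrableOn (s := Zp a 2 3)
  unfold pb pH
  rw [← integral_add c2 c3, ← integral_const_mul, ← integral_const_mul]
  refine integral_mono_ae (cV.const_mul _) ((c2.add c3).const_mul _) ?_
  filter_upwards [ae_restrict_of_ae hσ] with z hz
  have k1 := eV_le h (h0 _ hz.2) (h1 _ hz.2) hr1 hr (pl_e h (hp _ hz.2)).2.2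
  have k2 := dp_nonneg hn h (hp _ hz.1)
  have k3 := mul_le_mul_of_nonneg_left k1 k2
  linarith

/-- upper bound of the positive part of the height moment by upper bounds of the two moments -/
theorem pH_up (hφ : Continuous φ) (hn : ∀ x, |x| ≤ 1 / 2 → 0 ≤ φ x) (h : Gram4 (al a))
    (hK : IsCompact K) (hσ : ∀ᵐ z ∂σ, z.1 ∈ K ∧ z.2 ∈ K) (hp : ∀ x ∈ K, Pl a x)
    {S r : ℝ} (h0 : ∀ q ∈ K, Qv a 0 q ≤ S) (h1 : ∀ q ∈ K, Qv a 1 q ≤ S) (hr0 : 0 ≤ r)
    (hr1 : r ≤ 1) (hr : (1 - r) ^ 2 * (3 / 2 + 2 * S) ≤ 1) {U V : ℝ} (hU : pb φ σ a 2 ≤ U)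
    (hV : pb φ σ a 3 ≤ V) (hUV : 0 ≤ U + V) :
    √2 / 2 * pp (pH φ σ a) ≤ r / 2 * (U + V) := by
  have k := pH_le (φ := φ) (σ := σ) hφ hn h hK hσ hp h0 h1 hr1 hr
  have k1 : r * (pb φ σ a 2 + pb φ σ a 3) ≤ r * (U + V) :=
    mul_le_mul_of_nonneg_left (by linarith) hr0
  rcases le_total 0 (pH φ σ a) with h2 | h2
  · rw [show pp (pH φ σ a) = pH φ σ a from max_eq_left h2]
    linarith
  · rw [show pp (pH φ σ a) = 0 from max_eq_right h2, mul_zero]
    exact mul_nonneg (by linarith) hUV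

/-- `bm = mp + pH/√2` -/
theorem bm_mp (hφ : Continuous φ) (ha : ∀ i j, i ≠ j → dist (a i) (a j) = 1) (hK : IsCompact K)
    (hσ : ∀ᵐ z ∂σ, z.1 ∈ K ∧ z.2 ∈ K) (m : Fin 3) (e i : Bool) :
    bm φ σ a m e i = mp φ σ a m e i + √2 / 2 * pH φ σ (ap a m (!e)) := by
  obtain ⟨k2, k3⟩ := pb_eq (φ := φ) (σ := σ) hφ (gram_of_dist (hap ha m (!e))) hK hσ
  unfold bm mp
  cases i
  · simp only [Bool.false_eq_true, if_false]
    rw [k2]
  · simp only [if_true]
    rw [k3]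
    ring

/-! ### the coupling -/

/-- the algebra of a pair -/
theorem pair_alg {A0 AY HA B0 BY HB q0 q1 q2 q3 r : ℝ} (hr : r * r = 2) (hr0 : 0 ≤ r)
    (key : (B0 / 2 + BY) * q0 + (B0 / 2 - BY) * q1 + (A0 / 2 + AY) * q2 + (A0 / 2 - AY) * q3 +
      2 * (HA * HB) ≤ 0) (hA : q0 + q1 ≤ r * HA) (hB : q2 + q3 ≤ r * HB)
    (hn : ¬(q0 + q1 ≤ 0 ∧ q2 + q3 ≤ 0)) {yA yB : ℝ}
    (hyA : yA = if HA < 0 then r / 2 * HB - (q2 + q3) / 2 else 0)
    (hyB : yB = if HB < 0 then r / 2 * HA - (q0 + q1) / 2 else 0) :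
    (B0 / 2 + BY + r / 2 * HB + yA) * q0 + (B0 / 2 - BY + r / 2 * HB + yA) * q1 +
      (A0 / 2 + AY + r / 2 * HA + yB) * q2 + (A0 / 2 - AY + r / 2 * HA + yB) * q3 ≤ 0 ∧
    (0 ≤ yA ∧ yA ≤ r / 2 * max HB 0) ∧ (0 ≤ yB ∧ yB ≤ r / 2 * max HA 0) := by
  rcases lt_or_ge HA 0 with h1 | h1
  · have hA0 : q0 + q1 ≤ 0 := hA.trans (mul_nonpos_of_nonneg_of_nonpos hr0 h1.le)
    have hB0 : 0 < q2 + q3 := by
      by_contra hc
      exact hn ⟨hA0, not_lt.1 hc⟩
    have hB1 : 0 < r * HB := hB0.trans_le hB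
    have hB2 : 0 ≤ HB := by
      by_contra hc
      push Not at hc
      nlinarith
    rw [if_pos h1] at hyA
    rw [if_neg (not_lt.2 hB2)] at hyB
    rw [hyA, hyB, max_eq_left hB2, max_eq_right h1.le]
    have c : 0 ≤ r * HB - (q2 + q3) / 2 := by linarith
    have k := mul_le_mul_of_nonneg_left hA c
    refine ⟨?_, ⟨by linarith, by linarith⟩, ⟨le_rfl, by simp⟩⟩
    have e : (r * HB - (q2 + q3) / 2) * (r * HA) =
        2 * (HA * HB) - r / 2 * HA * (q2 + q3) := by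
      linear_combination HA * HB * hr
    nlinarith
  · rcases lt_or_ge HB 0 with h2 | h2
    · have hB0 : q2 + q3 ≤ 0 := hB.trans (mul_nonpos_of_nonneg_of_nonpos hr0 h2.le)
      have hA0 : 0 < q0 + q1 := by
        by_contra hc
        exact hn ⟨not_lt.1 hc, hB0⟩
      rw [if_neg (not_lt.2 h1)] at hyA
      rw [if_pos h2] at hyB
      rw [hyA, hyB, max_eq_left h1, max_eq_right h2.le]
      have c : 0 ≤ r * HA - (q0 + q1) / 2 := by
        have : 0 ≤ r * HA := mul_nonneg hr0 h1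
        linarith
      have k := mul_le_mul_of_nonneg_left hB c
      refine ⟨?_, ⟨le_rfl, by simp⟩, ⟨by linarith, by linarith⟩⟩
      have e : (r * HA - (q0 + q1) / 2) * (r * HB) =
          2 * (HA * HB) - r / 2 * HB * (q0 + q1) := by
        linear_combination HA * HB * hr
      nlinarith
    · rw [if_neg (not_lt.2 h1)] at hyA
      rw [if_neg (not_lt.2 h2)] at hyB
      rw [hyA, hyB]
      have k1 := mul_le_mul_of_nonneg_left hA (mul_nonneg (by linarith : 0 ≤ r / 2) h2)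
      have k2 := mul_le_mul_of_nonneg_left hB (mul_nonneg (by linarith : 0 ≤ r / 2) h1)
      have e1 : r / 2 * HB * (r * HA) = HA * HB := by linear_combination HA * HB / 2 * hr
      have e2 : r / 2 * HA * (r * HB) = HA * HB := by linear_combination HA * HB / 2 * hr
      refine ⟨by nlinarith, ⟨le_rfl, ?_⟩, ⟨le_rfl, ?_⟩⟩
      · exact mul_nonneg (by linarith) (le_max_right _ _)
      · exact mul_nonneg (by linarith) (le_max_right _ _)

/-- the data of a pair -/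
theorem pair_data (hφ : Continuous φ) (hn : ∀ x, |x| ≤ 1 / 2 → 0 ≤ φ x)
    (hP : PM K σ) (ha : ∀ i j, i ≠ j → dist (a i) (a j) = 1)
    (hd : ∀ x ∈ K, ∀ y ∈ K, ‖x - y‖ ≤ 1) (hp : ∀ x ∈ K, Pl a x)
    (hS : ∀ j, ∀ q ∈ K, Qv a j q ≤ 0.12) (m : Fin 3)
    (hc : ¬(sQ φ σ a m false ≤ 0 ∧ sQ φ σ a m true ≤ 0)) :
    (∑ e, ∑ i, (bm φ σ a m e i + yb φ σ a m e) *
      pQ φ σ (ap a m e) (if i then 1 else 0) ≤ 0) ∧
    ∀ e, 0 ≤ yb φ σ a m e ∧ yb φ σ a m e ≤ √2 / 2 * pp (pH φ σ (ap a m (!e))) := by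
  have hg : ∀ e, Gram4 (al (ap a m e)) := fun e => gram_of_dist (hap ha m e)
  have hpl : ∀ e, ∀ x ∈ K, Pl (ap a m e) x := fun e x hx => Pl_perm (pr m e) (hp x hx)
  have key := cplp hφ hφ hn hn (hg false) hP.cpt hd (hpl false) hP.mem
  rw [← ap_mir a m] at key
  have hC : ∀ e, pQ φ σ (ap a m e) 0 + pQ φ σ (ap a m e) 1 ≤ √2 * pH φ σ (ap a m e) :=
    fun e => pQ_pH hφ hn (hg e) hP.cpt (hpl e) hP.mem (fun j q hq => hS (pf m e j) q hq)
  have k := pair_alg s2s (Real.sqrt_nonneg 2) key (hC false) (hC true) hc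
    (yA := yb φ σ a m false) (yB := yb φ σ a m true) rfl rfl
  obtain ⟨k1, k2, k3⟩ := k
  refine ⟨?_, fun e => ?_⟩
  · simp only [Fintype.sum_bool]
    rw [bm_mp hφ ha hP.cpt hP.mem, bm_mp hφ ha hP.cpt hP.mem, bm_mp hφ ha hP.cpt hP.mem,
      bm_mp hφ ha hP.cpt hP.mem]
    unfold mp
    simp only [Bool.not_false, Bool.not_true, if_true, Bool.false_eq_true, if_false]
    linarith
  · cases e
    · exact k2
    · exact k3

/-- **the coupling with barycentric weights** -/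
theorem te_pair_b (hφ : Continuous φ) (hn : ∀ x, |x| ≤ 1 / 2 → 0 ≤ φ x)
    (hP : PM K σ) (ha : ∀ i j, i ≠ j → dist (a i) (a j) = 1)
    (hd : ∀ x ∈ K, ∀ y ∈ K, ‖x - y‖ ≤ 1) (hp : ∀ x ∈ K, Pl a x)
    (hS : ∀ j, ∀ q ∈ K, Qv a j q ≤ 0.12) (m : Fin 3)
    {B : Bool → OrthonormalBasis (Fin 3) ℝ E3} (hB : ∀ e, Fr (ap a m e) (B e)) {M : Fin 3 → ℝ}
    (hM : 0 < M m) {k1 : ℝ} (hk1 : 0 ≤ k1) :
    -(∑ e, ∑ i, gP φ σ a (kb φ σ a k1 M m e i) m e i) ≤
      TE (B false) (cen a) σ + TE (B true) (cen a) σ := by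
  unfold kb
  by_cases hc : sQ φ σ a m false ≤ 0 ∧ sQ φ σ a m true ≤ 0
  · simp only [if_pos hc]
    have h := te_pairp_w hφ hP ha m hB hM (w := fun _ _ => k1 * M m) (by
      simp only [Fintype.sum_bool, if_true, Bool.false_eq_true, if_false]
      have h1 := hc.1
      have h2 := hc.2
      unfold sQ at h1 h2
      have h3 : 0 ≤ k1 * M m := mul_nonneg hk1 hM.le
      nlinarith [mul_le_mul_of_nonneg_left h1 h3, mul_le_mul_of_nonneg_left h2 h3])
    have e : k1 * M m / M m = k1 := by field_simp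
    simpa [e] using h
  · simp only [if_neg hc]
    exact te_pairp_w hφ hP ha m hB hM (w := fun e i => bm φ σ a m e i + yb φ σ a m e)
      (pair_data hφ hn hP ha hd hp hS m hc).1

/-- lower bound of the coefficients -/
theorem kb_ge (hφ : Continuous φ) (hn : ∀ x, |x| ≤ 1 / 2 → 0 ≤ φ x)
    (hP : PM K σ) (ha : ∀ i j, i ≠ j → dist (a i) (a j) = 1)
    (hd : ∀ x ∈ K, ∀ y ∈ K, ‖x - y‖ ≤ 1) (hp : ∀ x ∈ K, Pl a x)
    (hS : ∀ j, ∀ q ∈ K, Qv a j q ≤ 0.12) {m : Fin 3} {M : Fin 3 → ℝ} (hM : 0 < M m)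
    {k1 k : ℝ} (hk : k ≤ k1) {e i : Bool} (h : k * M m ≤ bm φ σ a m e i) :
    k ≤ kb φ σ a k1 M m e i := by
  unfold kb
  split_ifs with hc
  · exact hk
  · rw [le_div_iff₀ hM]
    have := ((pair_data hφ hn hP ha hd hp hS m hc).2 e).1
    linarith

/-- upper bound of the coefficients -/
theorem kb_le (hφ : Continuous φ) (hn : ∀ x, |x| ≤ 1 / 2 → 0 ≤ φ x)
    (hP : PM K σ) (ha : ∀ i j, i ≠ j → dist (a i) (a j) = 1)
    (hd : ∀ x ∈ K, ∀ y ∈ K, ‖x - y‖ ≤ 1) (hp : ∀ x ∈ K, Pl a x)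
    (hS : ∀ j, ∀ q ∈ K, Qv a j q ≤ 0.12) {m : Fin 3} {M : Fin 3 → ℝ} (hM : 0 < M m)
    {k1 : ℝ} {e i : Bool}
    (h : bm φ σ a m e i + √2 / 2 * pp (pH φ σ (ap a m (!e))) ≤ k1 * M m) :
    kb φ σ a k1 M m e i ≤ k1 := by
  unfold kb
  split_ifs with hc
  · exact le_rfl
  · rw [div_le_iff₀ hM]
    have := ((pair_data hφ hn hP ha hd hp hS m hc).2 e).2
    linarith

/-- **`TL` with `ε = 0`** for the coupled system with barycentric weights -/
theorem TL_l3b (hφ : Prof φ) (hP : PM K σ)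
    (ha : ∀ i j, i ≠ j → dist (a i) (a j) = 1)
    (hd : ∀ x ∈ K, ∀ y ∈ K, ‖x - y‖ ≤ 1) (hp : ∀ x ∈ K, Pl a x)
    (hS : ∀ j, ∀ q ∈ K, Qv a j q ≤ 0.12)
    {B : Fin 3 → Bool → OrthonormalBasis (Fin 3) ℝ E3}
    (hB : ∀ m e, Fr (fun i => a (pr m e i)) (B m e)) {M : Fin 3 → ℝ} (hM : ∀ m, 0 < M m)
    {k1 : ℝ} (hk1 : 0 ≤ k1) :
    TL σ a B (l3 φ (kb φ σ a k1 M) a) 0 := by
  have h0 := TL_pairs (σ := σ) (a := a) (B := B) (l := l3 φ (kb φ σ a k1 M) a)
    (εm := fun _ => 0) (fun m => by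
      have h1 := te_pair_b hφ.cont hφ.nn hP ha hd hp hS m (B := B m) (hB m) (hM m) hk1
      have h2 := gP_le (κ := kb φ σ a k1 M) (a := a) hφ hP.cpt hP.mem m false
      have h3 := gP_le (κ := kb φ σ a k1 M) (a := a) hφ hP.cpt hP.mem m true
      simp only [Fintype.sum_bool] at h1
      linarith)
  exact h0.mono (by norm_num)

end int

end Helper95.MEI.Hc
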