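import Pool.Agent.Helper95.MEI.E2
import Pool.Agent.Helper75.MEI.Sheet

/-!
# Project MEI, class T: row `ST_E` of the sheet of helper75
-/

namespace Pool.Agent.Helper95.MEI

open Set MeasureTheory Helper22.MEI Helper14.CW.Geo

variable {f h : ℝ × ℝ → ℝ}

/-! ### the null Lagrangian `∫ Y det D²f = 0` -/

theorem fderiv_fl (k : ℝ × ℝ → ℝ) (p v : ℝ × ℝ) :
    fderiv ℝ (fun q : ℝ × ℝ => k (q.1, -q.2)) p v = fderiv ℝ k (p.1, -p.2) (v.1, -v.2) := by
  have h := ((ContinuousLinearEquiv.refl ℝ ℝ).prodCongr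
    (ContinuousLinearEquiv.neg ℝ)).comp_right_fderiv (f := k) (x := p)
  have e : (k ∘ ((ContinuousLinearEquiv.refl ℝ ℝ).prodCongr (ContinuousLinearEquiv.neg ℝ)))
      = fun q : ℝ × ℝ => k (q.1, -q.2) := by
    funext q; rfl
  rw [e] at h
  rw [h]
  rfl

theorem dX_fl (k : ℝ × ℝ → ℝ) :
    dX (fun q : ℝ × ℝ => k (q.1, -q.2)) = fun q : ℝ × ℝ => dX k (q.1, -q.2) := by
  funext p; unfold dX; rw [fderiv_fl, neg_zero]

theorem dY_fl (k : ℝ × ℝ → ℝ) :
    dY (fun q : ℝ × ℝ => k (q.1, -q.2)) = fun q : ℝ × ℝ => -dY k (q.1, -q.2) := by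
  funext p; unfold dY; rw [fderiv_fl, ← map_neg]; simp

theorem dX_neg (k : ℝ × ℝ → ℝ) (p : ℝ × ℝ) : dX (fun q => -k q) p = -dX k p := by
  unfold dX; rw [show (fun q => -k q) = -k from rfl, fderiv_neg]; rfl

theorem dY_neg (k : ℝ × ℝ → ℝ) (p : ℝ × ℝ) : dY (fun q => -k q) p = -dY k p := by
  unfold dY; rw [show (fun q => -k q) = -k from rfl, fderiv_neg]; rfl

theorem hd_flY (k : ℝ × ℝ → ℝ) (p : ℝ × ℝ) : hd (flY k) p = hd k (p.1, -p.2) := by
  have e : flY k = fun q : ℝ × ℝ => k (q.1, -q.2) := rfl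
  unfold hd
  rw [e]
  simp only [dX_fl, dY_fl]
  have a := dX_neg (fun q : ℝ × ℝ => dY k (q.1, -q.2)) p
  have b := dY_neg (fun q : ℝ × ℝ => dY k (q.1, -q.2)) p
  rw [a, b]
  simp only [dX_fl, dY_fl]
  ring

theorem int_fl (g : ℝ × ℝ → ℝ) : ∫ p in SQ, g (p.1, -p.2) = ∫ p in SQ, g p := by
  have hmp : MeasurePreserving (fun p : ℝ × ℝ => (p.1, -p.2)) volume volume := by
    rw [Measure.volume_eq_prod]
    exact (MeasurePreserving.id _).prod (Measure.measurePreserving_neg _)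
  have hemb : MeasurableEmbedding (fun p : ℝ × ℝ => (p.1, -p.2)) :=
    ((MeasurableEquiv.refl ℝ).prodCongr (MeasurableEquiv.neg ℝ)).measurableEmbedding
  have hpre : (fun p : ℝ × ℝ => (p.1, -p.2)) ⁻¹' SQ = SQ := by
    ext p
    constructor
    · rintro ⟨h1, h2⟩
      refine ⟨h1, ?_, ?_⟩
      · have := h2.2; simp only at this; linarith
      · have := h2.1; simp only at this; linarith
    · rintro ⟨h1, h2⟩
      refine ⟨h1, ?_, ?_⟩
      · show -s < -p.2
        linarith [h2.2]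
      · show -p.2 < s
        linarith [h2.1]
  have := hmp.setIntegral_preimage_emb hemb g SQ
  rw [hpre] at this
  exact this

theorem phi_const (hf : Adm f) (hh : Adm h) (a b c : ℝ) :
    Phi (fun _ => a) (fun _ => b) (fun _ => c) h = Phi (fun _ => a) (fun _ => b) (fun _ => c) f := by
  have e := flux (F1 := fun _ => a) (F2 := fun _ => b) (F3 := fun _ => c) contDiff_const
    contDiff_const contDiff_const hf hh
  have z : ∀ q, dv (fun _ => a) (fun _ => b) (fun _ => c) q = 0 := fun q => by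
    simp [dv, E1, E2, E3]
  simp only [z, zero_mul, integral_zero, intervalIntegral.integral_zero] at e
  linarith

theorem Y_null (hf : Adm f) : ∫ p in SQ, p.2 * hd f p = 0 := by
  have h1 := phi_const hf (Adm.flY hf) 0 1 0
  unfold Phi at h1
  simp only [zero_mul, zero_add, one_mul, add_zero] at h1
  have h2 : ∫ p in SQ, p.2 * hd (flY f) p = -∫ p in SQ, p.2 * hd f p := by
    rw [← int_fl (fun p => p.2 * hd f p), ← integral_neg]
    congr 1
    funext p
    rw [hd_flY]
    ring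
  linarith

theorem al_eq (hf : Adm f) : Helper75.MEI.al f = al f := by
  unfold Helper75.MEI.al al
  congr 1
  funext p
  rw [dw_co hf]

theorem IB_eq (hf : Adm f) : Helper75.MEI.IB f = TE f := by
  unfold Helper75.MEI.IB TE
  congr 1
  funext p
  rw [EE_gp_co hf]
  unfold Helper75.MEI.B0 Bq
  ring

/-- **Row E.** -/
theorem row_E : Helper75.MEI.ST_E := by
  intro f hf
  have key := coercive' hf (Y_null hf) (Y_null hf.swap)
  rw [al_eq hf, al_eq hf.swap, IB_eq hf, IB_eq hf.swap]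
  exact key

end Pool.Agent.Helper95.MEI
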