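import Mathlib

/-!
# Project MEI, all bodies, row CONST, part 1: the planar integrals

`k > 0`, `S = √(k² + 1/4 - x²)`, `ρ = S - k`: the arc `x² + ρ² + 2 k ρ = 1/4`.
-/

namespace Pool.Agent.Helper95.MEI.Cst

open MeasureTheory Set intervalIntegral Real

/-- `S = √(k² + 1/4 - x²)` -/
noncomputable def SS (k x : ℝ) : ℝ := √(k ^ 2 + 1 / 4 - x ^ 2)

noncomputable def rho (k x : ℝ) : ℝ := SS k x - k

noncomputable def th (k : ℝ) : ℝ := arctan (1 / (2 * k))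

theorem half_sq {x : ℝ} (hx : x ∈ Icc (-(1 / 2) : ℝ) (1 / 2)) : x ^ 2 ≤ 1 / 4 := by
  nlinarith [hx.1, hx.2]

theorem SS_sq {k x : ℝ} (hx : x ∈ Icc (-(1 / 2) : ℝ) (1 / 2)) :
    SS k x ^ 2 = k ^ 2 + 1 / 4 - x ^ 2 := by
  unfold SS
  rw [Real.sq_sqrt]
  nlinarith [half_sq hx, sq_nonneg k]

theorem SS_ge {k x : ℝ} (_hk : 0 < k) (hx : x ∈ Icc (-(1 / 2) : ℝ) (1 / 2)) : k ≤ SS k x := by
  unfold SS
  apply Real.le_sqrt_of_sq_le
  nlinarith [half_sq hx]

theorem SS_pos {k x : ℝ} (hk : 0 < k) (hx : x ∈ Icc (-(1 / 2) : ℝ) (1 / 2)) : 0 < SS k x :=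
  hk.trans_le (SS_ge hk hx)

theorem rho_nonneg {k x : ℝ} (hk : 0 < k) (hx : x ∈ Icc (-(1 / 2) : ℝ) (1 / 2)) :
    0 ≤ rho k x := sub_nonneg.2 (SS_ge hk hx)

theorem rho_eq {k x : ℝ} (hx : x ∈ Icc (-(1 / 2) : ℝ) (1 / 2)) :
    x ^ 2 + rho k x ^ 2 + 2 * k * rho k x = 1 / 4 := by
  have := SS_sq (k := k) hx
  unfold rho
  nlinarith

theorem SS_half {k : ℝ} (hk : 0 < k) : SS k (1 / 2) = k := by
  unfold SS
  rw [show k ^ 2 + 1 / 4 - (1 / 2) ^ 2 = k ^ 2 by ring]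
  exact Real.sqrt_sq hk.le

theorem SS_neg (k x : ℝ) : SS k (-x) = SS k x := by unfold SS; rw [neg_sq]

theorem SS_hasDeriv {k x : ℝ} (hk : 0 < k) (hx : x ∈ Icc (-(1 / 2) : ℝ) (1 / 2)) :
    HasDerivAt (SS k) (-x / SS k x) x := by
  have h1 : HasDerivAt (fun x : ℝ => k ^ 2 + 1 / 4 - x ^ 2) (-(2 * x)) x := by
    have := (hasDerivAt_pow 2 x).const_sub (k ^ 2 + 1 / 4)
    simpa using this
  have hne : k ^ 2 + 1 / 4 - x ^ 2 ≠ 0 := by
    have := SS_sq (k := k) hx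
    have h2 := SS_pos hk hx
    rw [← this]; positivity
  have h3 := h1.sqrt hne
  have h4 := (SS_pos hk hx).ne'
  unfold SS at h4 ⊢
  convert h3 using 1
  field_simp

theorem rho_hasDeriv {k x : ℝ} (hk : 0 < k) (hx : x ∈ Icc (-(1 / 2) : ℝ) (1 / 2)) :
    HasDerivAt (rho k) (-x / SS k x) x := (SS_hasDeriv hk hx).sub_const k

/-- `T = arctan (x / S)`, `T' = 1 / S` -/
theorem T_hasDeriv {k x : ℝ} (hk : 0 < k) (hx : x ∈ Icc (-(1 / 2) : ℝ) (1 / 2)) :
    HasDerivAt (fun x => arctan (x / SS k x)) (1 / SS k x) x := by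
  have h1 : HasDerivAt (fun x => x / SS k x)
      ((1 * SS k x - x * (-x / SS k x)) / SS k x ^ 2) x :=
    (hasDerivAt_id' x).div (SS_hasDeriv hk hx) (SS_pos hk hx).ne'
  have h2 := h1.arctan
  have h4 := (SS_pos hk hx).ne'
  have h5 := SS_sq (k := k) hx
  have h6 : 0 < k ^ 2 + 1 / 4 := by positivity
  convert h2 using 1
  have h7 : SS k x ^ 2 + x ^ 2 ≠ 0 := by rw [h5]; intro h; linarith
  field_simp
  ring

theorem hI : uIcc (-(1 / 2) : ℝ) (1 / 2) = Icc (-(1 / 2) : ℝ) (1 / 2) := uIcc_of_le (by norm_num)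

theorem SS_cont (k : ℝ) : Continuous (SS k) := by unfold SS; fun_prop

theorem rho_cont (k : ℝ) : Continuous (rho k) := (SS_cont k).sub continuous_const

theorem intS {k : ℝ} (hk : 0 < k) :
    ∫ x in (-(1 / 2) : ℝ)..(1 / 2), SS k x = k / 2 + (k ^ 2 + 1 / 4) * th k := by
  have hd : ∀ x ∈ uIcc (-(1 / 2) : ℝ) (1 / 2), HasDerivAt
      (fun x => (x * SS k x + (k ^ 2 + 1 / 4) * arctan (x / SS k x)) / 2) (SS k x) x := by
    intro x hx
    rw [hI] at hx
    have h0 : HasDerivAt (fun x => x * SS k x) (1 * SS k x + x * (-x / SS k x)) x :=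
      (hasDerivAt_id' x).mul (SS_hasDeriv hk hx)
    have h1 : HasDerivAt (fun x => x * SS k x + (k ^ 2 + 1 / 4) * arctan (x / SS k x))
      (1 * SS k x + x * (-x / SS k x) + (k ^ 2 + 1 / 4) * (1 / SS k x)) x :=
      h0.add ((T_hasDeriv hk hx).const_mul (k ^ 2 + 1 / 4))
    have h2 := h1.div_const 2
    have h4 := (SS_pos hk hx).ne'
    have h5 := SS_sq (k := k) hx
    have e : (1 * SS k x + x * (-x / SS k x) + (k ^ 2 + 1 / 4) * (1 / SS k x)) / 2 = SS k x := by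
      field_simp
      nlinarith
    rw [e] at h2
    exact h2
  rw [integral_eq_sub_of_hasDerivAt hd ((SS_cont k).intervalIntegrable _ _)]
  rw [SS_neg, SS_half hk]
  unfold th
  rw [show (-(1 / 2) : ℝ) / k = -(1 / 2 / k) by ring, arctan_neg]
  rw [show (1 : ℝ) / 2 / k = 1 / (2 * k) by field_simp]
  ring

theorem intInv {k : ℝ} (hk : 0 < k) :
    ∫ x in (-(1 / 2) : ℝ)..(1 / 2), 1 / SS k x = 2 * th k := by
  have hd : ∀ x ∈ uIcc (-(1 / 2) : ℝ) (1 / 2), HasDerivAt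
      (fun x => arctan (x / SS k x)) (1 / SS k x) x := by
    intro x hx
    rw [hI] at hx
    exact T_hasDeriv hk hx
  have hc : ContinuousOn (fun x => 1 / SS k x) (uIcc (-(1 / 2) : ℝ) (1 / 2)) := by
    rw [hI]
    exact continuousOn_const.div (SS_cont k).continuousOn fun x hx => (SS_pos hk hx).ne'
  rw [integral_eq_sub_of_hasDerivAt hd hc.intervalIntegrable]
  rw [SS_neg, SS_half hk]
  unfold th
  rw [show (-(1 / 2) : ℝ) / k = -(1 / 2 / k) by ring, arctan_neg]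
  rw [show (1 : ℝ) / 2 / k = 1 / (2 * k) by field_simp]
  ring

/-- the volume density -/
noncomputable def vk (k : ℝ) : ℝ := (k ^ 2 + 1 / 6 - 2 * k * (k ^ 2 + 1 / 4) * th k) / 2

theorem int_vol {k : ℝ} (hk : 0 < k) :
    ∫ x in (-(1 / 2) : ℝ)..(1 / 2), rho k x ^ 2 / 2 = vk k := by
  have e : ∫ x in (-(1 / 2) : ℝ)..(1 / 2), rho k x ^ 2 / 2
      = ∫ x in (-(1 / 2) : ℝ)..(1 / 2), ((k ^ 2 + 1 / 8 - x ^ 2 / 2) - k * SS k x) := by
    refine integral_congr fun x hx => ?_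
    rw [hI] at hx
    have := SS_sq (k := k) hx
    unfold rho
    nlinarith
  have hs := (SS_cont k).intervalIntegrable (μ := volume) (-(1 / 2)) (1 / 2)
  rw [e, intervalIntegral.integral_sub (Continuous.intervalIntegrable (by fun_prop) _ _) (hs.const_mul k),
    intervalIntegral.integral_const_mul, intS hk, intervalIntegral.integral_sub (Continuous.intervalIntegrable (by fun_prop) _ _)
      (Continuous.intervalIntegrable (by fun_prop) _ _), intervalIntegral.integral_div, integral_pow]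
  simp only [intervalIntegral.integral_const, smul_eq_mul]
  unfold vk
  ring

end Pool.Agent.Helper95.MEI.Cst
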