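import Pool.Agent.Helper95.MEI.C1

/-!
# Project MEI, all bodies, row CONST, part 2: the flux density
-/

namespace Pool.Agent.Helper95.MEI.Cst

open MeasureTheory Set Real

/-- divergence of the field of helper75 as a function of `x` and `r` -/
noncomputable def dvr (x r : ℝ) : ℝ :=
  (41 / 128 + 23 / 256 * x ^ 2 + 9 / 32 * r ^ 2) / (1 / 4 + x ^ 2 / 8 + r ^ 2) ^ 2

theorem inner_int {c ρ α β : ℝ} (hc : 0 < c) :
    ∫ r in (0 : ℝ)..ρ, r * ((α + β * r ^ 2) / (c + r ^ 2) ^ 2)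
      = (β * log ((c + ρ ^ 2) / c) + (α - β * c) * (1 / c - 1 / (c + ρ ^ 2))) / 2 := by
  have hp : ∀ r : ℝ, 0 < c + r ^ 2 := fun r => by positivity
  have hd : ∀ r ∈ uIcc (0 : ℝ) ρ, HasDerivAt
      (fun r => (β * log (c + r ^ 2) - (α - β * c) * (c + r ^ 2)⁻¹) / 2)
      (r * ((α + β * r ^ 2) / (c + r ^ 2) ^ 2)) r := by
    intro r _
    have h0 : HasDerivAt (fun r : ℝ => c + r ^ 2) (2 * r) r := by
      have := (hasDerivAt_pow 2 r).const_add c
      simpa using this
    have h1 := (h0.log (hp r).ne').const_mul β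
    have h2 := (h0.inv (hp r).ne').const_mul (α - β * c)
    have h3 := (h1.sub h2).div_const 2
    have e : (β * (2 * r / (c + r ^ 2)) - (α - β * c) * (-(2 * r) / (c + r ^ 2) ^ 2)) / 2
        = r * ((α + β * r ^ 2) / (c + r ^ 2) ^ 2) := by
      have := (hp r).ne'
      field_simp
      ring
    rw [e] at h3
    exact h3
  have hcont : Continuous fun r : ℝ => r * ((α + β * r ^ 2) / (c + r ^ 2) ^ 2) := by
    refine continuous_id.mul (Continuous.div (by fun_prop) (by fun_prop) fun r => ?_)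
    exact (pow_pos (hp r) 2).ne'
  rw [intervalIntegral.integral_eq_sub_of_hasDerivAt hd (hcont.intervalIntegrable _ _)]
  rw [Real.log_div (hp ρ).ne' hc.ne']
  simp only [ne_eq, OfNat.ofNat_ne_zero, not_false_eq_true, zero_pow, add_zero, one_div]
  ring

/-- `c = 1/4 + x²/8` -/
noncomputable def cc (x : ℝ) : ℝ := 1 / 4 + x ^ 2 / 8

theorem cc_pos (x : ℝ) : 0 < cc x := by unfold cc; positivity

theorem inner_flux (x ρ : ℝ) :
    ∫ r in (0 : ℝ)..ρ, r * dvr x r
      = (9 / 32 * log ((cc x + ρ ^ 2) / cc x)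
        + (1 / 4 + 7 / 128 * x ^ 2) * (1 / cc x - 1 / (cc x + ρ ^ 2))) / 2 := by
  have := inner_int (c := cc x) (ρ := ρ) (α := 41 / 128 + 23 / 256 * x ^ 2) (β := 9 / 32)
    (cc_pos x)
  unfold dvr
  unfold cc at this ⊢
  rw [this]
  ring

/-- antiderivative in `x` -/
noncomputable def PP' (k x : ℝ) : ℝ := 9 / 64 * x * log ((cc x + rho k x ^ 2) / cc x)

theorem PP'_hasDeriv {k x : ℝ} (hk : 0 < k) (hx : x ∈ Icc (-(1 / 2) : ℝ) (1 / 2)) :
    HasDerivAt (PP' k) ((∫ r in (0 : ℝ)..rho k x, r * dvr x r) - (1 - k / SS k x) / 4) x := by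
  rw [inner_flux]
  have hc := cc_pos x
  have hD : 0 < cc x + rho k x ^ 2 := by positivity
  have hS := SS_pos hk hx
  have h0 : HasDerivAt cc (x / 4) x := by
    have := ((hasDerivAt_pow 2 x).div_const 8).const_add (1 / 4)
    have e : (((2 : ℕ) : ℝ) * x ^ (2 - 1)) / 8 = x / 4 := by norm_num; ring
    rw [e] at this
    exact this
  have h1 : HasDerivAt (fun x => cc x + rho k x ^ 2)
      (x / 4 + 2 * rho k x * (-x / SS k x)) x := by
    have := h0.add ((rho_hasDeriv hk hx).pow 2)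
    have e : ((2 : ℕ) : ℝ) * rho k x ^ (2 - 1) * (-x / SS k x)
        = 2 * rho k x * (-x / SS k x) := by norm_num
    rw [e] at this
    exact this
  have h2 := (h1.div h0 hc.ne').log (div_pos hD hc).ne'
  have h3 : HasDerivAt (fun x : ℝ => 9 / 64 * x) (9 / 64) x := by
    simpa using (hasDerivAt_id' x).const_mul (9 / 64 : ℝ)
  have h4 := h3.mul h2
  have hr := rho_eq (k := k) hx
  have hSr : SS k x = rho k x + k := by unfold rho; ring
  have h5 : HasDerivAt (PP' k) (9 / 64 * log ((cc x + rho k x ^ 2) / cc x) + 9 / 64 * x *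
      (((x / 4 + 2 * rho k x * (-x / SS k x)) * cc x - (cc x + rho k x ^ 2) * (x / 4)) / cc x ^ 2
        / ((cc x + rho k x ^ 2) / cc x))) x := h4
  refine h5.congr_deriv ?_
  have hSk : 0 < rho k x + k := by rw [← hSr]; exact hS
  rw [hSr]
  generalize log ((cc x + rho k x ^ 2) / cc x) = lg
  have hcx : cc x = 1 / 4 + x ^ 2 / 8 := rfl
  generalize rho k x = ρ at hr hD hSk ⊢
  have e2 : 9 / 64 * x *
      (((x / 4 + 2 * ρ * (-x / (ρ + k))) * cc x - (cc x + ρ ^ 2) * (x / 4)) / cc x ^ 2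
        / ((cc x + ρ ^ 2) / cc x))
      = (1 / 4 + 7 / 128 * x ^ 2) * (1 / cc x - 1 / (cc x + ρ ^ 2)) / 2
        - (1 - k / (ρ + k)) / 4 := by
    have a1 := hc.ne'
    have a2 := hD.ne'
    have a3 := hSk.ne'
    have k1 : k = (1 / 4 - x ^ 2 - ρ ^ 2) / (2 * ρ) ∨ ρ = 0 := by
      by_cases hρ : ρ = 0
      · right; exact hρ
      · left; field_simp; linarith
    have e3 : (1 - k / (ρ + k)) = ρ / (ρ + k) := by field_simp; ring
    rw [e3]
    have e4 : 2 * ρ * (ρ + k) + 9 / 8 * x ^ 2 = cc x + ρ ^ 2 := by rw [hcx]; linarith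
    have e5 : (1 / 4 + 7 / 128 * x ^ 2) = 2 * (cc x / 2 - 9 / 256 * x ^ 2) := by
      rw [hcx]; ring
    rw [e5]
    have e6 : (1 / 4 : ℝ) * ρ / (ρ + k)
        = ρ ^ 2 / (2 * (cc x + ρ ^ 2)) + 9 / 32 * x ^ 2 * ρ / ((ρ + k) * (cc x + ρ ^ 2)) := by
      rw [div_add_div _ _ (by positivity) (by positivity), div_eq_div_iff (by positivity)
        (by positivity)]
      have : (1 / 4 : ℝ) * ρ * (cc x + ρ ^ 2) = (ρ ^ 2 * (ρ + k) / 2 + 9 / 32 * x ^ 2 * ρ) := by
        rw [← e4]; ring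
      linear_combination (2 * (cc x + ρ ^ 2) * (ρ + k)) * this
    have e7 : ρ / (ρ + k) / 4 = 1 / 4 * ρ / (ρ + k) := by ring
    rw [e7, e6]
    field_simp
    ring
  rw [e2]
  ring

theorem rho_half {k : ℝ} (hk : 0 < k) : rho k (1 / 2) = 0 := by
  unfold rho; rw [SS_half hk]; ring

theorem rho_neg (k x : ℝ) : rho k (-x) = rho k x := by unfold rho; rw [SS_neg]

theorem cc_cont : Continuous cc := by unfold cc; fun_prop

theorem inner_cont (k : ℝ) : Continuous fun x => ∫ r in (0 : ℝ)..rho k x, r * dvr x r := by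
  have e : (fun x => ∫ r in (0 : ℝ)..rho k x, r * dvr x r) = fun x =>
      (9 / 32 * log ((cc x + rho k x ^ 2) / cc x)
        + (1 / 4 + 7 / 128 * x ^ 2) * (1 / cc x - 1 / (cc x + rho k x ^ 2))) / 2 := by
    funext x; exact inner_flux x (rho k x)
  rw [e]
  have h1 := cc_cont
  have h2 := rho_cont k
  have h3 : ∀ x, cc x ≠ 0 := fun x => (cc_pos x).ne'
  have h4 : ∀ x, cc x + rho k x ^ 2 ≠ 0 := fun x => by
    have := cc_pos x
    positivity
  refine Continuous.div_const (Continuous.add ?_ ?_) _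
  · refine continuous_const.mul (Continuous.log ?_ fun x => ?_)
    · exact (h1.add (h2.pow 2)).div h1 h3
    · exact div_ne_zero (h4 x) (h3 x)
  · refine Continuous.mul (by fun_prop) (Continuous.sub ?_ ?_)
    · exact continuous_const.div h1 h3
    · exact continuous_const.div (h1.add (h2.pow 2)) h4

theorem int_flux {k : ℝ} (hk : 0 < k) :
    ∫ x in (-(1 / 2) : ℝ)..(1 / 2), (∫ r in (0 : ℝ)..rho k x, r * dvr x r)
      = (1 - 2 * k * th k) / 4 := by
  have hd : ∀ x ∈ uIcc (-(1 / 2) : ℝ) (1 / 2), HasDerivAt (PP' k)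
      ((∫ r in (0 : ℝ)..rho k x, r * dvr x r) - (1 - k / SS k x) / 4) x := by
    intro x hx
    rw [hI] at hx
    exact PP'_hasDeriv hk hx
  have i1 : IntervalIntegrable (fun x => ∫ r in (0 : ℝ)..rho k x, r * dvr x r) volume
      (-(1 / 2)) (1 / 2) := (inner_cont k).intervalIntegrable _ _
  have hcS : ContinuousOn (fun x => 1 / SS k x) (uIcc (-(1 / 2) : ℝ) (1 / 2)) := by
    rw [hI]
    exact continuousOn_const.div (SS_cont k).continuousOn fun x hx => (SS_pos hk hx).ne'
  have i2 : IntervalIntegrable (fun x => 1 / SS k x) volume (-(1 / 2)) (1 / 2) :=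
    hcS.intervalIntegrable
  have e2 : (fun x => (1 - k / SS k x) / 4) = fun x => 1 / 4 - k / 4 * (1 / SS k x) := by
    funext x; ring
  have i3 : IntervalIntegrable (fun x => (1 - k / SS k x) / 4) volume (-(1 / 2)) (1 / 2) := by
    rw [e2]
    exact (continuous_const.intervalIntegrable _ _).sub (i2.const_mul _)
  have key := intervalIntegral.integral_eq_sub_of_hasDerivAt hd (i1.sub i3)
  rw [intervalIntegral.integral_sub i1 i3] at key
  have z1 : PP' k (1 / 2) = 0 := by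
    unfold PP'
    rw [rho_half hk]
    have := (cc_pos (1 / 2)).ne'
    rw [show (cc (1 / 2) + (0 : ℝ) ^ 2) / cc (1 / 2) = 1 by field_simp; ring]
    simp
  have z2 : PP' k (-(1 / 2)) = 0 := by
    unfold PP'
    rw [rho_neg, rho_half hk]
    have := (cc_pos (-(1 / 2))).ne'
    rw [show (cc (-(1 / 2)) + (0 : ℝ) ^ 2) / cc (-(1 / 2)) = 1 by field_simp; ring]
    simp
  rw [z1, z2] at key
  have e3 : ∫ x in (-(1 / 2) : ℝ)..(1 / 2), (1 - k / SS k x) / 4 = (1 - 2 * k * th k) / 4 := by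
    rw [e2, intervalIntegral.integral_sub (continuous_const.intervalIntegrable _ _)
      (i2.const_mul _), intervalIntegral.integral_const_mul, intInv hk]
    simp only [intervalIntegral.integral_const, smul_eq_mul]
    ring
  linarith

end Pool.Agent.Helper95.MEI.Cst
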