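import Pool.Agent.Helper95.MEI.C2

/-!
# Project MEI, all bodies, row CONST, part 3: cylindrical coordinates

Points `(x, y, w)`, `y = r sin θ`, `w = r cos θ`.
-/

namespace Pool.Agent.Helper95.MEI.Cst

open MeasureTheory Set Real
open scoped ENNReal

/-- polar coordinates with the angle measured from the second axis -/
theorem polar_sc (H : ℝ × ℝ → ℝ≥0∞) :
    ∫⁻ q, H q = ∫⁻ p in Ioi (0 : ℝ) ×ˢ Ioo (-π) π,
      ENNReal.ofReal p.1 * H (p.1 * sin p.2, p.1 * cos p.2) := by
  have h1 : ∫⁻ q : ℝ × ℝ, H q = ∫⁻ q : ℝ × ℝ, H q.swap := by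
    rw [Measure.volume_eq_prod]
    exact (lintegral_prod_swap H).symm
  rw [h1, ← lintegral_comp_polarCoord_symm (fun q => H q.swap)]
  rfl

variable {g : ℝ → ℝ → ℝ}

/-- the integral over the section at a fixed angle -/
theorem sec_int (hg : Continuous fun p : ℝ × ℝ => g p.1 p.2) (hg0 : ∀ x r, 0 ≤ g x r) {k : ℝ}
    (hk : 0 < k) :
    ∫⁻ x, ∫⁻ r in Ioi (0 : ℝ), (if x ^ 2 + r ^ 2 + 2 * k * r ≤ 1 / 4 then
        ENNReal.ofReal (r * g x r) else 0)
      = ENNReal.ofReal (∫ x in (-(1 / 2) : ℝ)..(1 / 2), ∫ r in (0 : ℝ)..rho k x, r * g x r) := by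
  have hin : ∀ x ∈ Icc (-(1 / 2) : ℝ) (1 / 2), (∫⁻ r in Ioi (0 : ℝ),
      (if x ^ 2 + r ^ 2 + 2 * k * r ≤ 1 / 4 then ENNReal.ofReal (r * g x r) else 0))
      = ENNReal.ofReal (∫ r in (0 : ℝ)..rho k x, r * g x r) := by
    intro x hx
    have hρ := rho_nonneg hk hx
    have hρe := rho_eq (k := k) hx
    have hiff : ∀ r : ℝ, 0 < r → (x ^ 2 + r ^ 2 + 2 * k * r ≤ 1 / 4 ↔ r ≤ rho k x) := by
      intro r hr
      constructor
      · intro h
        by_contra hlt
        push Not at hlt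
        nlinarith
      · intro h
        nlinarith
    have hc : Continuous fun r => r * g x r :=
      continuous_id.mul (hg.comp (continuous_const.prodMk continuous_id))
    rw [intervalIntegral.integral_of_le hρ, ofReal_integral_eq_lintegral_ofReal
      ((hc.integrableOn_Icc (a := 0) (b := rho k x)).mono_set Ioc_subset_Icc_self)
      ((ae_restrict_mem measurableSet_Ioc).mono fun r hr => mul_nonneg hr.1.le (hg0 x r))]
    rw [← lintegral_indicator measurableSet_Ioi, ← lintegral_indicator measurableSet_Ioc]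
    congr 1
    funext r
    by_cases hr : 0 < r
    · rw [indicator_of_mem (show r ∈ Ioi (0 : ℝ) from hr)]
      by_cases h : r ≤ rho k x
      · rw [if_pos ((hiff r hr).2 h), indicator_of_mem (show r ∈ Ioc 0 (rho k x) from ⟨hr, h⟩)]
      · rw [if_neg (fun hh => h ((hiff r hr).1 hh)),
          indicator_of_notMem (fun hh => h hh.2)]
    · rw [indicator_of_notMem (show r ∉ Ioi (0 : ℝ) from hr),
        indicator_of_notMem (fun hh : r ∈ Ioc 0 (rho k x) => hr hh.1)]
  have hout : ∀ x ∉ Icc (-(1 / 2) : ℝ) (1 / 2), (∫⁻ r in Ioi (0 : ℝ),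
      (if x ^ 2 + r ^ 2 + 2 * k * r ≤ 1 / 4 then ENNReal.ofReal (r * g x r) else 0)) = 0 := by
    intro x hx
    rw [setLIntegral_congr_fun (g := fun _ => 0) measurableSet_Ioi, lintegral_zero]
    intro r hr
    have hr : 0 < r := hr
    have hx2 : 1 / 4 < x ^ 2 := by
      by_contra h
      push Not at h
      apply hx
      have := abs_le_of_sq_le_sq' (show x ^ 2 ≤ (1 / 2 : ℝ) ^ 2 by linarith) (by norm_num)
      exact this
    simp only
    rw [if_neg]
    intro h
    nlinarith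
  have hc2 : Continuous (fun x => ∫ r in (0 : ℝ)..rho k x, r * g x r) := by
    have h2 : Continuous (Function.uncurry fun x r => r * g x r) := continuous_snd.mul hg
    exact intervalIntegral.continuous_parametric_intervalIntegral_of_continuous h2 (rho_cont k)
  rw [intervalIntegral.integral_of_le (by norm_num), ofReal_integral_eq_lintegral_ofReal
    ((hc2.integrableOn_Icc (a := -(1 / 2)) (b := 1 / 2)).mono_set Ioc_subset_Icc_self)
    ((ae_restrict_mem measurableSet_Ioc).mono fun x hx => ?_)]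
  · rw [← lintegral_indicator measurableSet_Ioc]
    congr 1
    funext x
    by_cases hx : x ∈ Icc (-(1 / 2) : ℝ) (1 / 2)
    · rw [hin x hx]
      by_cases hx2 : x ∈ Ioc (-(1 / 2) : ℝ) (1 / 2)
      · rw [indicator_of_mem hx2]
      · rw [indicator_of_notMem hx2]
        have : x = -(1 / 2) := by
          by_contra hne
          exact hx2 ⟨lt_of_le_of_ne hx.1 (Ne.symm hne), hx.2⟩
        rw [this, rho_neg, rho_half hk]
        simp
    · rw [hout x hx, indicator_of_notMem (fun h => hx (Ioc_subset_Icc_self h))]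
  · have hρ := rho_nonneg hk (Ioc_subset_Icc_self hx)
    exact intervalIntegral.integral_nonneg hρ fun r hr => mul_nonneg hr.1 (hg0 x r)

/-- the integral in cylindrical coordinates -/
theorem cyl_lint (hg : Continuous fun p : ℝ × ℝ => g p.1 p.2) (hg0 : ∀ x r, 0 ≤ g x r)
    {S : Set (ℝ × ℝ × ℝ)} (hSm : MeasurableSet S) {G : ℝ × ℝ × ℝ → ℝ≥0∞} (hG : Measurable G)
    (hGg : ∀ x r θ : ℝ, 0 < r → G (x, r * sin θ, r * cos θ) = ENNReal.ofReal (g x r))
    {φ : ℝ} (hφ : φ < π) {κ : ℝ → ℝ} (hκ0 : ∀ θ ∈ Ioo (-φ) φ, 0 < κ θ)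
    (hS : ∀ x r θ : ℝ, 0 < r → θ ∈ Ioo (-π) π →
      ((x, r * sin θ, r * cos θ) ∈ S ↔ θ ∈ Ioo (-φ) φ ∧ x ^ 2 + r ^ 2 + 2 * κ θ * r ≤ 1 / 4)) :
    ∫⁻ p in S, G p = ∫⁻ θ in Ioo (-φ) φ, ENNReal.ofReal
      (∫ x in (-(1 / 2) : ℝ)..(1 / 2), ∫ r in (0 : ℝ)..rho (κ θ) x, r * g x r) := by
  have hI : Measurable (S.indicator G) := hG.indicator hSm
  rw [← lintegral_indicator hSm, Measure.volume_eq_prod, lintegral_prod _ hI.aemeasurable]
  have hT : Measurable fun q : (ℝ × ℝ) × ℝ =>
      ENNReal.ofReal q.1.2 * S.indicator G (q.1.1, q.1.2 * sin q.2, q.1.2 * cos q.2) := by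
    refine Measurable.mul (by fun_prop) (hI.comp ?_)
    fun_prop
  have e1 : ∀ x : ℝ, ∫⁻ q : ℝ × ℝ, S.indicator G (x, q)
      = ∫⁻ θ in Ioo (-π) π, ∫⁻ r in Ioi (0 : ℝ),
        ENNReal.ofReal r * S.indicator G (x, r * sin θ, r * cos θ) := by
    intro x
    rw [polar_sc, Measure.volume_eq_prod, ← Measure.prod_restrict]
    rw [lintegral_prod_symm]
    have hm : Measurable fun p : ℝ × ℝ => (((x, p.1), p.2) : (ℝ × ℝ) × ℝ) := by fun_prop
    exact (hT.comp hm).aemeasurable
  simp_rw [e1]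
  rw [lintegral_lintegral_swap]
  · rw [← lintegral_indicator measurableSet_Ioo, ← lintegral_indicator measurableSet_Ioo]
    congr 1
    funext θ
    by_cases hθ : θ ∈ Ioo (-π) π
    · rw [indicator_of_mem hθ]
      by_cases hθ2 : θ ∈ Ioo (-φ) φ
      · rw [indicator_of_mem hθ2, ← sec_int hg hg0 (hκ0 θ hθ2)]
        congr 1
        funext x
        refine setLIntegral_congr_fun measurableSet_Ioi fun r hr => ?_
        have hr : 0 < r := hr
        by_cases hc : x ^ 2 + r ^ 2 + 2 * κ θ * r ≤ 1 / 4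
        · rw [if_pos hc, indicator_of_mem ((hS x r θ hr hθ).2 ⟨hθ2, hc⟩), hGg x r θ hr,
            ENNReal.ofReal_mul hr.le]
        · rw [if_neg hc, indicator_of_notMem (fun h => hc ((hS x r θ hr hθ).1 h).2), mul_zero]
      · rw [indicator_of_notMem hθ2]
        have : ∀ x : ℝ, ∫⁻ r in Ioi (0 : ℝ),
            ENNReal.ofReal r * S.indicator G (x, r * sin θ, r * cos θ) = 0 := by
          intro x
          rw [setLIntegral_congr_fun (g := fun _ => 0) measurableSet_Ioi, lintegral_zero]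
          intro r hr
          have hr : 0 < r := hr
          simp only
          rw [indicator_of_notMem (fun h => hθ2 ((hS x r θ hr hθ).1 h).1), mul_zero]
        simp_rw [this, lintegral_zero]
    · rw [indicator_of_notMem hθ, indicator_of_notMem]
      intro h
      exact hθ ⟨by linarith [h.1], by linarith [h.2]⟩
  · have h1 : Measurable fun q : ℝ × ℝ => ∫⁻ r in Ioi (0 : ℝ),
        ENNReal.ofReal r * S.indicator G (q.1, r * sin q.2, r * cos q.2) := by
      apply Measurable.lintegral_prod_right'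
        (f := fun z : (ℝ × ℝ) × ℝ =>
          ENNReal.ofReal z.2 * S.indicator G (z.1.1, z.2 * sin z.1.2, z.2 * cos z.1.2))
      have hm : Measurable fun z : (ℝ × ℝ) × ℝ => (((z.1.1, z.2), z.1.2) : (ℝ × ℝ) × ℝ) := by
        fun_prop
      exact hT.comp hm
    exact h1.aemeasurable

end Pool.Agent.Helper95.MEI.Cst
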