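import Pool.Agent.Helper95.MEI.C3

/-!
# Project MEI, all bodies, row CONST, part 4: the integrals over the angle
-/

namespace Pool.Agent.Helper95.MEI.Cst

open MeasureTheory Set Real

noncomputable def k0 : ℝ := √3 / 2

/-- half of the angle of the edge cell -/
noncomputable def phm : ℝ := arctan (√2 / 2)

/-- `arctan (√2 / 4)` -/
noncomputable def om : ℝ := arctan (√2 / 4)

theorem k0_pos : 0 < k0 := by unfold k0; positivity

theorem k0_sq : k0 ^ 2 = 3 / 4 := by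
  unfold k0; rw [div_pow, Real.sq_sqrt (by norm_num)]; norm_num

theorem s2 : √2 * √2 = 2 := Real.mul_self_sqrt (by norm_num)
theorem s3 : √3 * √3 = 3 := Real.mul_self_sqrt (by norm_num)

theorem phm_pos : 0 < phm := by unfold phm; exact arctan_pos.2 (by positivity)

theorem phm_lt : phm < π / 2 := arctan_lt_pi_div_two _

theorem cos_phm : cos phm = √2 / √3 := by
  unfold phm
  rw [Real.cos_arctan]
  rw [show (1 : ℝ) + (√2 / 2) ^ 2 = 3 / 2 by rw [div_pow, Real.sq_sqrt (by norm_num)]; norm_num]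
  rw [Real.sqrt_div (by norm_num)]
  have h3 : √3 ≠ 0 := by positivity
  have h2 : √2 ≠ 0 := by positivity
  field_simp

theorem sin_phm : sin phm = 1 / √3 := by
  unfold phm
  rw [Real.sin_arctan]
  rw [show (1 : ℝ) + (√2 / 2) ^ 2 = 3 / 2 by rw [div_pow, Real.sq_sqrt (by norm_num)]; norm_num]
  rw [Real.sqrt_div (by norm_num)]
  have h3 : √3 ≠ 0 := by positivity
  have h2 : √2 ≠ 0 := by positivity
  field_simp
  rw [Real.sq_sqrt (by norm_num)]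

theorem th_hasDeriv {k : ℝ} (hk : 0 < k) : HasDerivAt th (-2 / (4 * k ^ 2 + 1)) k := by
  have h1 : HasDerivAt (fun k : ℝ => 1 / (2 * k)) (-1 / (2 * k ^ 2)) k := by
    have h := ((hasDerivAt_id' k).const_mul 2).inv (by positivity : (2 : ℝ) * k ≠ 0)
    simp only [mul_one] at h
    have e : (fun k : ℝ => 1 / (2 * k)) = (fun k : ℝ => 2 * k)⁻¹ := by
      funext k; simp
    rw [e]
    refine h.congr_deriv ?_
    field_simp
  have h2 := h1.arctan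
  refine h2.congr_deriv ?_
  field_simp
  ring

theorem th_sqrt2 : th (√2 / 2) = phm := by
  unfold th phm
  congr 1
  have h2 : √2 ≠ 0 := by positivity
  field_simp
  rw [sq, s2]

theorem th_k0 : th k0 = π / 6 := by
  unfold th k0
  rw [show (1 : ℝ) / (2 * (√3 / 2)) = tan (π / 6) by
    rw [Real.tan_pi_div_six]
    field_simp]
  exact Real.arctan_tan (by linarith [Real.pi_pos]) (by linarith [Real.pi_pos])

/-- `K = k0 cos ψ` -/
noncomputable def KK (ψ : ℝ) : ℝ := k0 * cos ψ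

theorem cos_pos_of {ψ : ℝ} (h : ψ ∈ Icc 0 phm) : 0 < cos ψ :=
  Real.cos_pos_of_mem_Ioo ⟨by linarith [h.1, Real.pi_pos], by linarith [h.2, phm_lt]⟩

theorem KK_pos {ψ : ℝ} (h : ψ ∈ Icc 0 phm) : 0 < KK ψ := mul_pos k0_pos (cos_pos_of h)

theorem thK_hasDeriv {ψ : ℝ} (h : ψ ∈ Icc 0 phm) :
    HasDerivAt (fun ψ => th (KK ψ)) (2 * k0 * sin ψ / (3 * cos ψ ^ 2 + 1)) ψ := by
  have h1 : HasDerivAt KK (k0 * -sin ψ) ψ := (Real.hasDerivAt_cos ψ).const_mul k0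
  have h2 := (th_hasDeriv (KK_pos h)).comp ψ h1
  refine h2.congr_deriv ?_
  unfold KK
  rw [mul_pow, k0_sq]
  ring

theorem at_hasDeriv {ψ : ℝ} (h : ψ ∈ Icc 0 phm) :
    HasDerivAt (fun ψ => arctan (sin ψ / (2 * cos ψ))) (2 / (3 * cos ψ ^ 2 + 1)) ψ := by
  have hc := (cos_pos_of h).ne'
  have h0 : HasDerivAt (fun ψ => sin ψ / (2 * cos ψ))
      ((cos ψ * (2 * cos ψ) - sin ψ * (2 * -sin ψ)) / (2 * cos ψ) ^ 2) ψ :=
    (Real.hasDerivAt_sin ψ).div ((Real.hasDerivAt_cos ψ).const_mul 2) (by simpa using hc)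
  refine h0.arctan.congr_deriv ?_
  have hs := Real.sin_sq_add_cos_sq ψ
  have h5 : 3 * cos ψ ^ 2 + 1 ≠ 0 := by positivity
  have e1 : (cos ψ * (2 * cos ψ) - sin ψ * (2 * -sin ψ)) = 2 := by nlinarith
  have e2 : 1 + (sin ψ / (2 * cos ψ)) ^ 2 = (3 * cos ψ ^ 2 + 1) / (4 * cos ψ ^ 2) := by
    field_simp
    nlinarith
  rw [e1, e2]
  field_simp
  norm_num

/-- antiderivative of `K th(K)` -/
noncomputable def Q1 (ψ : ℝ) : ℝ :=
  k0 * sin ψ * th (KK ψ) + ψ / 2 - arctan (sin ψ / (2 * cos ψ))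

theorem Q1_hasDeriv {ψ : ℝ} (h : ψ ∈ Icc 0 phm) : HasDerivAt Q1 (KK ψ * th (KK ψ)) ψ := by
  have h1 : HasDerivAt (fun ψ => k0 * sin ψ) (k0 * cos ψ) ψ :=
    (Real.hasDerivAt_sin ψ).const_mul k0
  have h2 := ((h1.mul (thK_hasDeriv h)).add ((hasDerivAt_id' ψ).div_const 2)).sub (at_hasDeriv h)
  have h3 : HasDerivAt Q1 (k0 * cos ψ * th (KK ψ) + k0 * sin ψ * (2 * k0 * sin ψ /
      (3 * cos ψ ^ 2 + 1)) + 1 / 2 - 2 / (3 * cos ψ ^ 2 + 1)) ψ := h2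
  refine h3.congr_deriv ?_
  have hs := Real.sin_sq_add_cos_sq ψ
  have h5 : 3 * cos ψ ^ 2 + 1 ≠ 0 := by positivity
  have e : k0 * sin ψ * (2 * k0 * sin ψ / (3 * cos ψ ^ 2 + 1)) + 1 / 2
      - 2 / (3 * cos ψ ^ 2 + 1) = 0 := by
    have e1 : k0 * sin ψ * (2 * k0 * sin ψ / (3 * cos ψ ^ 2 + 1))
        = 3 / 2 * sin ψ ^ 2 / (3 * cos ψ ^ 2 + 1) := by
      have := k0_sq
      field_simp
      linear_combination (4 * sin ψ ^ 2) * this
    rw [e1]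
    have hs2 : sin ψ ^ 2 = 1 - cos ψ ^ 2 := by linarith
    rw [hs2]
    field_simp
    ring
  unfold KK at *
  linear_combination e

/-- antiderivative of `K³ th(K)` -/
noncomputable def Q3 (ψ : ℝ) : ℝ :=
  k0 ^ 3 * (sin ψ - sin ψ ^ 3 / 3) * th (KK ψ) - 1 / 16 * (ψ - sin ψ * cos ψ) + 5 / 24 * ψ
    - 5 / 12 * arctan (sin ψ / (2 * cos ψ))

theorem Q3_hasDeriv {ψ : ℝ} (h : ψ ∈ Icc 0 phm) : HasDerivAt Q3 (KK ψ ^ 3 * th (KK ψ)) ψ := by
  have h1 : HasDerivAt (fun ψ => k0 ^ 3 * (sin ψ - sin ψ ^ 3 / 3))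
      (k0 ^ 3 * (cos ψ - (3 * sin ψ ^ 2 * cos ψ) / 3)) ψ := by
    have a := ((Real.hasDerivAt_sin ψ).pow 3).div_const 3
    have b := ((Real.hasDerivAt_sin ψ).sub a).const_mul (k0 ^ 3)
    refine b.congr_deriv ?_
    norm_num
  have h1' : HasDerivAt (fun ψ => 1 / 16 * (ψ - sin ψ * cos ψ))
      (1 / 16 * (1 - (cos ψ * cos ψ + sin ψ * -sin ψ))) ψ :=
    ((hasDerivAt_id' ψ).sub ((Real.hasDerivAt_sin ψ).mul (Real.hasDerivAt_cos ψ))).const_mul _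
  have h1'' : HasDerivAt (fun ψ : ℝ => 5 / 24 * ψ) (5 / 24) ψ := by
    simpa using (hasDerivAt_id' ψ).const_mul (5 / 24 : ℝ)
  have h2 := (((h1.mul (thK_hasDeriv h)).sub h1').add h1'').sub ((at_hasDeriv h).const_mul (5 / 12))
  have h3 : HasDerivAt Q3 (k0 ^ 3 * (cos ψ - (3 * sin ψ ^ 2 * cos ψ) / 3) * th (KK ψ)
      + k0 ^ 3 * (sin ψ - sin ψ ^ 3 / 3) * (2 * k0 * sin ψ / (3 * cos ψ ^ 2 + 1))
      - 1 / 16 * (1 - (cos ψ * cos ψ + sin ψ * -sin ψ)) + 5 / 24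
      - 5 / 12 * (2 / (3 * cos ψ ^ 2 + 1))) ψ := h2
  refine h3.congr_deriv ?_
  have hs := Real.sin_sq_add_cos_sq ψ
  have h5 : 3 * cos ψ ^ 2 + 1 ≠ 0 := by positivity
  have hs2 : sin ψ ^ 2 = 1 - cos ψ ^ 2 := by linarith
  have e : k0 ^ 3 * (sin ψ - sin ψ ^ 3 / 3) * (2 * k0 * sin ψ / (3 * cos ψ ^ 2 + 1))
      - 1 / 16 * (1 - (cos ψ * cos ψ + sin ψ * -sin ψ)) + 5 / 24
      - 5 / 12 * (2 / (3 * cos ψ ^ 2 + 1)) = 0 := by
    have e1 : k0 ^ 3 * (sin ψ - sin ψ ^ 3 / 3) * (2 * k0 * sin ψ / (3 * cos ψ ^ 2 + 1))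
        = 9 / 8 * (sin ψ ^ 2 * (1 - sin ψ ^ 2 / 3)) / (3 * cos ψ ^ 2 + 1) := by
      have h4 : k0 ^ 4 = 9 / 16 := by
        rw [show k0 ^ 4 = (k0 ^ 2) ^ 2 by ring, k0_sq]; norm_num
      have : k0 ^ 3 * (sin ψ - sin ψ ^ 3 / 3) * (2 * k0 * sin ψ / (3 * cos ψ ^ 2 + 1))
        = 2 * k0 ^ 4 * (sin ψ ^ 2 * (1 - sin ψ ^ 2 / 3)) / (3 * cos ψ ^ 2 + 1) := by ring
      rw [this, h4]
      ring
    rw [e1, show cos ψ * cos ψ + sin ψ * -sin ψ = cos ψ ^ 2 - sin ψ ^ 2 by ring, hs2]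
    field_simp
    ring
  have e2 : k0 ^ 3 * (cos ψ - (3 * sin ψ ^ 2 * cos ψ) / 3) = KK ψ ^ 3 := by
    unfold KK
    rw [mul_pow]
    linear_combination (-(k0 ^ 3 * cos ψ)) * hs
  rw [e2]
  linear_combination e

theorem KK_cont : Continuous KK := by unfold KK; fun_prop

theorem thK_cont : ContinuousOn (fun ψ => th (KK ψ)) (Icc 0 phm) := fun _ hψ =>
  (thK_hasDeriv hψ).continuousAt.continuousWithinAt

theorem uI : uIcc 0 phm = Icc 0 phm := uIcc_of_le phm_pos.le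

theorem KK_phm : KK phm = √2 / 2 := by
  unfold KK k0
  rw [cos_phm]
  have h3 : √3 ≠ 0 := by positivity
  field_simp

theorem I1 : ∫ ψ in (0 : ℝ)..phm, KK ψ * th (KK ψ) = phm - om := by
  have hc : ContinuousOn (fun ψ => KK ψ * th (KK ψ)) (uIcc 0 phm) := by
    rw [uI]; exact KK_cont.continuousOn.mul thK_cont
  rw [intervalIntegral.integral_eq_sub_of_hasDerivAt
    (fun ψ hψ => Q1_hasDeriv (by rwa [uI] at hψ)) hc.intervalIntegrable]
  unfold Q1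
  rw [KK_phm, th_sqrt2, sin_phm, cos_phm]
  have h3 : √3 ≠ 0 := by positivity
  have h2 : √2 ≠ 0 := by positivity
  have e1 : (1 : ℝ) / √3 / (2 * (√2 / √3)) = √2 / 4 := by
    field_simp
    rw [sq, s2]; norm_num
  have e2 : k0 * (1 / √3) = 1 / 2 := by unfold k0; field_simp
  rw [e1, e2]
  simp only [Real.sin_zero, mul_zero, zero_mul, zero_div, Real.arctan_zero]
  unfold om
  ring

theorem I3 : ∫ ψ in (0 : ℝ)..phm, KK ψ ^ 3 * th (KK ψ) = 23 / 48 * phm + √2 / 48 - 5 / 12 * om := by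
  have hc : ContinuousOn (fun ψ => KK ψ ^ 3 * th (KK ψ)) (uIcc 0 phm) := by
    rw [uI]; exact (KK_cont.pow 3).continuousOn.mul thK_cont
  rw [intervalIntegral.integral_eq_sub_of_hasDerivAt
    (fun ψ hψ => Q3_hasDeriv (by rwa [uI] at hψ)) hc.intervalIntegrable]
  unfold Q3
  rw [KK_phm, th_sqrt2, sin_phm, cos_phm]
  have h3 : √3 ≠ 0 := by positivity
  have h2 : √2 ≠ 0 := by positivity
  have e1 : (1 : ℝ) / √3 / (2 * (√2 / √3)) = √2 / 4 := by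
    field_simp
    rw [sq, s2]; norm_num
  have e2 : k0 ^ 3 * (1 / √3 - (1 / √3) ^ 3 / 3) = 1 / 3 := by
    unfold k0
    have h33 : √3 ^ 2 = 3 := Real.sq_sqrt (by norm_num)
    field_simp
    linear_combination (3 : ℝ) * h33
  have e3 : 1 / √3 * (√2 / √3) = √2 / 3 := by
    field_simp
    rw [sq, s3]
  rw [e1, e2, e3]
  simp only [Real.sin_zero, mul_zero, zero_mul, zero_div, Real.arctan_zero]
  unfold om
  ring

theorem I2 : ∫ ψ in (0 : ℝ)..phm, KK ψ ^ 2 = 3 / 8 * phm + √2 / 8 := by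
  have e : ∀ ψ, KK ψ ^ 2 = 3 / 4 * cos ψ ^ 2 := fun ψ => by
    unfold KK; rw [mul_pow, k0_sq]
  simp_rw [e]
  rw [intervalIntegral.integral_const_mul, integral_cos_sq, cos_phm, sin_phm]
  have h3 : √3 ≠ 0 := by positivity
  have e3 : √2 / √3 * (1 / √3) = √2 / 3 := by
    field_simp
    rw [sq, s3]
  rw [e3]
  simp
  ring

end Pool.Agent.Helper95.MEI.Cst
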