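import Pool.Agent.Helper95.MEI.C4

/-!
# Project MEI, all bodies, row CONST, part 5: the two sets and their integrals
-/

namespace Pool.Agent.Helper95.MEI.Cst

open MeasureTheory Set Real
open scoped ENNReal

/-- `∫ over the angle` for an even integrand of `κ(θ) = (√2 cos θ + |sin θ|)/2` -/
noncomputable def kap (θ : ℝ) : ℝ := (√2 * cos θ + |sin θ|) / 2

theorem kap_neg (θ : ℝ) : kap (-θ) = kap θ := by
  unfold kap; rw [cos_neg, sin_neg, abs_neg]

theorem kap_eq {θ : ℝ} (h : θ ∈ Icc 0 phm) : kap θ = KK (phm - θ) := by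
  have hs : 0 ≤ sin θ := Real.sin_nonneg_of_nonneg_of_le_pi h.1
    (by linarith [h.2, phm_lt, Real.pi_pos])
  unfold kap KK k0
  rw [abs_of_nonneg hs, Real.cos_sub, cos_phm, sin_phm]
  have h3 : √3 ≠ 0 := by positivity
  field_simp

theorem kap_cont : Continuous kap := by unfold kap; fun_prop

theorem kap_pos {θ : ℝ} (h : θ ∈ Icc (-phm) phm) : 0 < kap θ := by
  have hc : 0 < cos θ := Real.cos_pos_of_mem_Ioo
    ⟨by linarith [h.1, phm_lt], by linarith [h.2, phm_lt]⟩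
  unfold kap
  have := abs_nonneg (sin θ)
  positivity

/-- integral over the angle -/
theorem ang {F : ℝ → ℝ} (hF : IntervalIntegrable (fun ψ => F (KK ψ)) volume 0 phm) :
    ∫ θ in (-phm)..phm, F (kap θ) = 2 * ∫ ψ in (0 : ℝ)..phm, F (KK ψ) := by
  have hsub : ∫ θ in (0 : ℝ)..phm, F (kap θ) = ∫ ψ in (0 : ℝ)..phm, F (KK ψ) := by
    have h1 : ∫ θ in (0 : ℝ)..phm, F (kap θ) = ∫ θ in (0 : ℝ)..phm, F (KK (phm - θ)) := by
      refine intervalIntegral.integral_congr fun θ hθ => ?_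
      rw [uI] at hθ
      simp only [kap_eq hθ]
    rw [h1, intervalIntegral.integral_comp_sub_left (fun ψ => F (KK ψ)) phm]
    simp
  have hint : IntervalIntegrable (fun θ => F (kap θ)) volume 0 phm := by
    have h1 := hF.comp_sub_left phm
    simp only [sub_zero, sub_self] at h1
    refine (h1.symm).congr ?_
    intro θ hθ
    rw [uIoc_of_le phm_pos.le] at hθ
    simp only [kap_eq (Ioc_subset_Icc_self hθ)]
  have hneg : ∫ θ in (-phm)..0, F (kap θ) = ∫ θ in (0 : ℝ)..phm, F (kap θ) := by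
    have := intervalIntegral.integral_comp_neg (fun θ => F (kap θ)) (a := 0) (b := phm)
    simp only [kap_neg, neg_zero] at this
    exact this.symm
  have hint' : IntervalIntegrable (fun θ => F (kap θ)) volume (-phm) 0 := by
    have h1 := (hint.comp_sub_left 0).symm
    simp only [zero_sub, kap_neg, neg_zero] at h1
    exact h1
  rw [← intervalIntegral.integral_add_adjacent_intervals hint' hint, hneg, hsub]
  ring

/-! ### the edge cell -/

theorem cell_iff {r θ : ℝ} (hr : 0 < r) (hθ : θ ∈ Ioo (-π) π) :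
    |r * sin θ| < √2 / 2 * (r * cos θ) ↔ θ ∈ Ioo (-phm) phm := by
  have h1 : |r * sin θ| < √2 / 2 * (r * cos θ) ↔ |sin θ| < √2 / 2 * cos θ := by
    rw [abs_mul, abs_of_pos hr, show √2 / 2 * (r * cos θ) = r * (√2 / 2 * cos θ) by ring]
    exact mul_lt_mul_iff_right₀ hr
  rw [h1]
  have hs2 : (0 : ℝ) < √2 / 2 := by positivity
  by_cases hc : 0 < cos θ
  · have hθ2 : θ ∈ Ioo (-(π / 2)) (π / 2) := by
      constructor
      · by_contra hn
        push Not at hn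
        have : cos (-θ) ≤ 0 := Real.cos_nonpos_of_pi_div_two_le_of_le (by linarith)
          (by linarith [hθ.1, Real.pi_pos])
        rw [cos_neg] at this
        linarith
      · by_contra hn
        push Not at hn
        have : cos θ ≤ 0 := Real.cos_nonpos_of_pi_div_two_le_of_le hn
          (by linarith [hθ.2, Real.pi_pos])
        linarith
    have ht : arctan (tan θ) = θ := Real.arctan_tan hθ2.1 hθ2.2
    have h2 : |sin θ| < √2 / 2 * cos θ ↔ |tan θ| < √2 / 2 := by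
      rw [Real.tan_eq_sin_div_cos, abs_div, abs_of_pos hc, div_lt_iff₀ hc]
    rw [h2, abs_lt]
    constructor
    · rintro ⟨a, b⟩
      constructor
      · rw [← ht]
        unfold phm
        rw [← Real.arctan_neg]
        exact Real.arctan_strictMono a
      · rw [← ht]
        exact Real.arctan_strictMono b
    · rintro ⟨a, b⟩
      rw [← ht] at a b
      unfold phm at a b
      rw [← Real.arctan_neg] at a
      exact ⟨Real.arctan_strictMono.lt_iff_lt.1 a, Real.arctan_strictMono.lt_iff_lt.1 b⟩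
  · constructor
    · intro h
      have := abs_nonneg (sin θ)
      push Not at hc
      nlinarith
    · intro h
      exact absurd (Real.cos_pos_of_mem_Ioo ⟨by linarith [h.1, phm_lt], by linarith [h.2, phm_lt]⟩)
        hc

/-- the part of the Reuleaux tetrahedron in the edge cell -/
def As : Set (ℝ × ℝ × ℝ) := {p | |p.2.1| < √2 / 2 * p.2.2 ∧
  p.1 ^ 2 + p.2.1 ^ 2 + p.2.2 ^ 2 + √2 * p.2.2 + |p.2.1| ≤ 1 / 4}

/-- the part of the ball hull (spindle) in the edge cell -/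
def Ax : Set (ℝ × ℝ × ℝ) := {p | |p.2.1| < √2 / 2 * p.2.2 ∧
  p.1 ^ 2 + p.2.1 ^ 2 + p.2.2 ^ 2 + √3 * √(p.2.1 ^ 2 + p.2.2 ^ 2) ≤ 1 / 4}

theorem cell_meas : MeasurableSet {p : ℝ × ℝ × ℝ | |p.2.1| < √2 / 2 * p.2.2} :=
  measurableSet_lt (f := fun p : ℝ × ℝ × ℝ => |p.2.1|) (g := fun p => √2 / 2 * p.2.2)
    (by fun_prop : Continuous fun p : ℝ × ℝ × ℝ => |p.2.1|).measurable
    (by fun_prop : Continuous fun p : ℝ × ℝ × ℝ => √2 / 2 * p.2.2).measurable

theorem As_meas : MeasurableSet As :=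
  cell_meas.inter (measurableSet_le (f := fun p : ℝ × ℝ × ℝ =>
      p.1 ^ 2 + p.2.1 ^ 2 + p.2.2 ^ 2 + √2 * p.2.2 + |p.2.1|) (g := fun _ => 1 / 4)
    (by fun_prop : Continuous fun p : ℝ × ℝ × ℝ =>
      p.1 ^ 2 + p.2.1 ^ 2 + p.2.2 ^ 2 + √2 * p.2.2 + |p.2.1|).measurable measurable_const)

theorem Ax_meas : MeasurableSet Ax :=
  cell_meas.inter (measurableSet_le (f := fun p : ℝ × ℝ × ℝ =>
      p.1 ^ 2 + p.2.1 ^ 2 + p.2.2 ^ 2 + √3 * √(p.2.1 ^ 2 + p.2.2 ^ 2)) (g := fun _ => 1 / 4)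
    (by fun_prop : Continuous fun p : ℝ × ℝ × ℝ =>
      p.1 ^ 2 + p.2.1 ^ 2 + p.2.2 ^ 2 + √3 * √(p.2.1 ^ 2 + p.2.2 ^ 2)).measurable
      measurable_const)

theorem pol_norm {r θ : ℝ} (hr : 0 < r) : √((r * sin θ) ^ 2 + (r * cos θ) ^ 2) = r := by
  rw [show (r * sin θ) ^ 2 + (r * cos θ) ^ 2 = r ^ 2 * (sin θ ^ 2 + cos θ ^ 2) by ring,
    Real.sin_sq_add_cos_sq, mul_one]
  exact Real.sqrt_sq hr.le

theorem As_iff (x r θ : ℝ) (hr : 0 < r) (hθ : θ ∈ Ioo (-π) π) :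
    (x, r * sin θ, r * cos θ) ∈ As ↔
      θ ∈ Ioo (-phm) phm ∧ x ^ 2 + r ^ 2 + 2 * kap θ * r ≤ 1 / 4 := by
  show (|r * sin θ| < √2 / 2 * (r * cos θ) ∧
    x ^ 2 + (r * sin θ) ^ 2 + (r * cos θ) ^ 2 + √2 * (r * cos θ) + |r * sin θ| ≤ 1 / 4) ↔ _
  rw [cell_iff hr hθ]
  have e : x ^ 2 + (r * sin θ) ^ 2 + (r * cos θ) ^ 2 + √2 * (r * cos θ) + |r * sin θ|
      = x ^ 2 + r ^ 2 + 2 * kap θ * r := by
    unfold kap
    rw [abs_mul, abs_of_pos hr]
    linear_combination (r ^ 2) * Real.sin_sq_add_cos_sq θ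
  rw [e]

theorem Ax_iff (x r θ : ℝ) (hr : 0 < r) (hθ : θ ∈ Ioo (-π) π) :
    (x, r * sin θ, r * cos θ) ∈ Ax ↔
      θ ∈ Ioo (-phm) phm ∧ x ^ 2 + r ^ 2 + 2 * k0 * r ≤ 1 / 4 := by
  show (|r * sin θ| < √2 / 2 * (r * cos θ) ∧
    x ^ 2 + (r * sin θ) ^ 2 + (r * cos θ) ^ 2
      + √3 * √((r * sin θ) ^ 2 + (r * cos θ) ^ 2) ≤ 1 / 4) ↔ _
  rw [cell_iff hr hθ, pol_norm hr]
  have e : x ^ 2 + (r * sin θ) ^ 2 + (r * cos θ) ^ 2 + √3 * r
      = x ^ 2 + r ^ 2 + 2 * k0 * r := by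
    unfold k0
    linear_combination (r ^ 2) * Real.sin_sq_add_cos_sq θ
  rw [e]

/-- divergence of the field at the point `(x, y, w)` -/
noncomputable def dvp (p : ℝ × ℝ × ℝ) : ℝ :=
  (41 / 128 + 23 / 256 * p.1 ^ 2 + 9 / 32 * (p.2.1 ^ 2 + p.2.2 ^ 2))
    / (1 / 4 + p.1 ^ 2 / 8 + (p.2.1 ^ 2 + p.2.2 ^ 2)) ^ 2

theorem dvp_pol (x r θ : ℝ) : dvp (x, r * sin θ, r * cos θ) = dvr x r := by
  unfold dvp dvr
  have e : (r * sin θ) ^ 2 + (r * cos θ) ^ 2 = r ^ 2 := by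
    linear_combination (r ^ 2) * Real.sin_sq_add_cos_sq θ
  simp only
  rw [e]

theorem dvp_cont : Continuous dvp := by
  unfold dvp
  refine Continuous.div (by fun_prop) (by fun_prop) fun p => ?_
  positivity

theorem dvp_nonneg (p : ℝ × ℝ × ℝ) : 0 ≤ dvp p := by unfold dvp; positivity

theorem dvr_cont : Continuous fun p : ℝ × ℝ => dvr p.1 p.2 := by
  unfold dvr
  refine Continuous.div (by fun_prop) (by fun_prop) fun p => ?_
  positivity

theorem dvr_nonneg (x r : ℝ) : 0 ≤ dvr x r := by unfold dvr; positivity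

theorem phm_pi : phm < π := phm_lt.trans (by linarith [Real.pi_pos])

theorem lint_vol {S : Set (ℝ × ℝ × ℝ)} (hSm : MeasurableSet S) {κ : ℝ → ℝ}
    (hκ0 : ∀ θ ∈ Ioo (-phm) phm, 0 < κ θ)
    (hS : ∀ x r θ : ℝ, 0 < r → θ ∈ Ioo (-π) π →
      ((x, r * sin θ, r * cos θ) ∈ S ↔
        θ ∈ Ioo (-phm) phm ∧ x ^ 2 + r ^ 2 + 2 * κ θ * r ≤ 1 / 4)) :
    volume S = ∫⁻ θ in Ioo (-phm) phm, ENNReal.ofReal (vk (κ θ)) := by
  have h := cyl_lint (g := fun _ _ => 1) continuous_const (fun _ _ => zero_le_one) hSm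
    (G := fun _ => 1) measurable_const (fun _ _ _ _ => by simp) phm_pi hκ0 hS
  rw [setLIntegral_one] at h
  rw [h]
  refine setLIntegral_congr_fun measurableSet_Ioo fun θ hθ => ?_
  simp only [mul_one]
  rw [← int_vol (hκ0 θ hθ)]
  congr 1
  refine intervalIntegral.integral_congr fun x _ => ?_
  simp only [integral_id]
  ring

theorem lint_div {S : Set (ℝ × ℝ × ℝ)} (hSm : MeasurableSet S) {κ : ℝ → ℝ}
    (hκ0 : ∀ θ ∈ Ioo (-phm) phm, 0 < κ θ)
    (hS : ∀ x r θ : ℝ, 0 < r → θ ∈ Ioo (-π) π →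
      ((x, r * sin θ, r * cos θ) ∈ S ↔
        θ ∈ Ioo (-phm) phm ∧ x ^ 2 + r ^ 2 + 2 * κ θ * r ≤ 1 / 4)) :
    ∫⁻ p in S, ENNReal.ofReal (dvp p)
      = ∫⁻ θ in Ioo (-phm) phm, ENNReal.ofReal ((1 - 2 * κ θ * th (κ θ)) / 4) := by
  have h := cyl_lint (g := dvr) dvr_cont dvr_nonneg hSm
    (G := fun p => ENNReal.ofReal (dvp p)) (dvp_cont.measurable.ennreal_ofReal)
    (fun x r θ _ => by rw [dvp_pol]) phm_pi hκ0 hS
  rw [h]
  refine setLIntegral_congr_fun measurableSet_Ioo fun θ hθ => ?_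
  rw [← int_flux (hκ0 θ hθ)]

end Pool.Agent.Helper95.MEI.Cst
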