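import Pool.Agent.Helper95.MEI.C5

/-!
# Project MEI, all bodies, row CONST, part 6: the values
-/

namespace Pool.Agent.Helper95.MEI.Cst

open MeasureTheory Set Real
open scoped ENNReal

theorem th_contOn : ContinuousOn th (Ioi 0) := fun _ hk =>
  (th_hasDeriv hk).continuousAt.continuousWithinAt

theorem vk_contOn : ContinuousOn vk (Ioi 0) := by
  unfold vk
  refine ContinuousOn.div_const (ContinuousOn.sub (by fun_prop) ?_) _
  exact ContinuousOn.mul (by fun_prop) th_contOn

/-- the flux density -/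
noncomputable def fk (k : ℝ) : ℝ := (1 - 2 * k * th k) / 4

theorem fk_contOn : ContinuousOn fk (Ioi 0) := by
  unfold fk
  refine ContinuousOn.div_const (ContinuousOn.sub (by fun_prop) ?_) _
  exact ContinuousOn.mul (by fun_prop) th_contOn

theorem vk_nonneg {k : ℝ} (hk : 0 < k) : 0 ≤ vk k := by
  rw [← int_vol hk]
  exact intervalIntegral.integral_nonneg (by norm_num) fun x _ => by positivity

theorem fk_nonneg {k : ℝ} (hk : 0 < k) : 0 ≤ fk k := by
  unfold fk
  rw [← int_flux hk]
  refine intervalIntegral.integral_nonneg (by norm_num) fun x hx => ?_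
  exact intervalIntegral.integral_nonneg (rho_nonneg hk hx) fun r hr =>
    mul_nonneg hr.1 (dvr_nonneg x r)

theorem ev {F κ : ℝ → ℝ} (hF : ContinuousOn F (Ioi 0)) (hF0 : ∀ k, 0 < k → 0 ≤ F k)
    (hκ : Continuous κ) (hκ0 : ∀ θ ∈ Icc (-phm) phm, 0 < κ θ) :
    ∫⁻ θ in Ioo (-phm) phm, ENNReal.ofReal (F (κ θ))
      = ENNReal.ofReal (∫ θ in (-phm)..phm, F (κ θ)) := by
  have hc : ContinuousOn (fun θ => F (κ θ)) (Icc (-phm) phm) :=
    hF.comp hκ.continuousOn hκ0
  have hp := phm_pos
  rw [intervalIntegral.integral_of_le (by linarith), ofReal_integral_eq_lintegral_ofReal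
    (hc.integrableOn_Icc.mono_set Ioc_subset_Icc_self)
    ((ae_restrict_mem measurableSet_Ioc).mono fun θ hθ =>
      hF0 _ (hκ0 θ (Ioc_subset_Icc_self hθ)))]
  rw [restrict_Ioo_eq_restrict_Ioc]

theorem kap_pos' : ∀ θ ∈ Ioo (-phm) phm, 0 < kap θ := fun _ h => kap_pos (Ioo_subset_Icc_self h)

theorem int_vk_KK : ∫ ψ in (0 : ℝ)..phm, vk (KK ψ) = -(11 / 24) * phm + √2 / 24 + 2 / 3 * om := by
  have e : ∀ ψ, vk (KK ψ) = 1 / 2 * KK ψ ^ 2 + 1 / 12 - KK ψ ^ 3 * th (KK ψ)
      - 1 / 4 * (KK ψ * th (KK ψ)) := fun ψ => by unfold vk; ring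
  simp_rw [e]
  have c2 : IntervalIntegrable (fun ψ => 1 / 2 * KK ψ ^ 2) volume 0 phm :=
    (continuous_const.mul (KK_cont.pow 2)).intervalIntegrable _ _
  have c0 : IntervalIntegrable (fun _ : ℝ => (1 / 12 : ℝ)) volume 0 phm :=
    continuous_const.intervalIntegrable _ _
  have c3 : IntervalIntegrable (fun ψ => KK ψ ^ 3 * th (KK ψ)) volume 0 phm := by
    apply ContinuousOn.intervalIntegrable
    rw [uI]; exact (KK_cont.pow 3).continuousOn.mul thK_cont
  have c1 : IntervalIntegrable (fun ψ => KK ψ * th (KK ψ)) volume 0 phm := by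
    apply ContinuousOn.intervalIntegrable
    rw [uI]; exact KK_cont.continuousOn.mul thK_cont
  rw [intervalIntegral.integral_sub ((c2.add c0).sub c3) (c1.const_mul _),
    intervalIntegral.integral_sub (c2.add c0) c3, intervalIntegral.integral_add c2 c0,
    intervalIntegral.integral_const_mul, intervalIntegral.integral_const_mul, I1, I2, I3]
  simp only [intervalIntegral.integral_const, smul_eq_mul]
  ring

theorem int_fk_KK : ∫ ψ in (0 : ℝ)..phm, fk (KK ψ) = (2 * om - phm) / 4 := by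
  have e : ∀ ψ, fk (KK ψ) = 1 / 4 - 1 / 2 * (KK ψ * th (KK ψ)) := fun ψ => by unfold fk; ring
  simp_rw [e]
  have c0 : IntervalIntegrable (fun _ : ℝ => (1 / 4 : ℝ)) volume 0 phm :=
    continuous_const.intervalIntegrable _ _
  have c1 : IntervalIntegrable (fun ψ => KK ψ * th (KK ψ)) volume 0 phm := by
    apply ContinuousOn.intervalIntegrable
    rw [uI]; exact KK_cont.continuousOn.mul thK_cont
  rw [intervalIntegral.integral_sub c0 (c1.const_mul _), intervalIntegral.integral_const_mul, I1]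
  simp only [intervalIntegral.integral_const, smul_eq_mul]
  ring

theorem KK_ii {F : ℝ → ℝ} (hF : ContinuousOn F (Ioi 0)) :
    IntervalIntegrable (fun ψ => F (KK ψ)) volume 0 phm := by
  apply ContinuousOn.intervalIntegrable
  rw [uI]
  exact hF.comp KK_cont.continuousOn fun ψ hψ => KK_pos hψ

/-- value of the volume of `X* ∩ Z` -/
noncomputable def vAs : ℝ := √2 / 12 + 4 / 3 * om - 11 / 12 * phm

/-- value of the volume of the spindle part -/
noncomputable def vAx : ℝ := phm * (11 / 12 - √3 * π / 6)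

noncomputable def fAs : ℝ := om - phm / 2

noncomputable def fAx : ℝ := phm / 2 * (1 - √3 * π / 6)

theorem volume_As : volume As = ENNReal.ofReal vAs := by
  rw [lint_vol As_meas kap_pos' As_iff, ev vk_contOn (fun k hk => vk_nonneg hk) kap_cont
    (fun θ h => kap_pos h), ang (KK_ii vk_contOn), int_vk_KK]
  congr 1
  unfold vAs
  ring

theorem volume_Ax : volume Ax = ENNReal.ofReal vAx := by
  rw [lint_vol (κ := fun _ => k0) Ax_meas (fun _ _ => k0_pos) Ax_iff,
    ev (κ := fun _ => k0) vk_contOn (fun k hk => vk_nonneg hk) continuous_const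
    (fun θ h => k0_pos)]
  congr 1
  simp only [intervalIntegral.integral_const, smul_eq_mul]
  unfold vAx vk
  rw [k0_sq, th_k0]
  unfold k0
  ring

theorem lint_As : ∫⁻ p in As, ENNReal.ofReal (dvp p) = ENNReal.ofReal fAs := by
  rw [lint_div As_meas kap_pos' As_iff]
  rw [show (fun θ => ENNReal.ofReal ((1 - 2 * kap θ * th (kap θ)) / 4))
    = fun θ => ENNReal.ofReal (fk (kap θ)) from rfl, ev fk_contOn (fun k hk => fk_nonneg hk)
    kap_cont (fun θ h => kap_pos h), ang (KK_ii fk_contOn), int_fk_KK]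
  congr 1
  unfold fAs
  ring

theorem lint_Ax : ∫⁻ p in Ax, ENNReal.ofReal (dvp p) = ENNReal.ofReal fAx := by
  rw [lint_div (κ := fun _ => k0) Ax_meas (fun _ _ => k0_pos) Ax_iff]
  rw [show (fun _ : ℝ => ENNReal.ofReal ((1 - 2 * k0 * th k0) / 4))
    = fun θ : ℝ => ENNReal.ofReal (fk ((fun _ => k0) θ)) from rfl,
    ev (κ := fun _ => k0) fk_contOn (fun k hk => fk_nonneg hk) continuous_const
    (fun θ h => k0_pos)]
  congr 1
  simp only [intervalIntegral.integral_const, smul_eq_mul]
  unfold fAx fk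
  rw [th_k0]
  unfold k0
  ring

theorem vAs_nonneg : 0 ≤ vAs := by
  have h : vAs = 2 * ∫ ψ in (0 : ℝ)..phm, vk (KK ψ) := by rw [int_vk_KK]; unfold vAs; ring
  rw [h]
  refine mul_nonneg zero_le_two (intervalIntegral.integral_nonneg phm_pos.le fun ψ hψ => ?_)
  exact vk_nonneg (KK_pos hψ)

theorem vAx_nonneg : 0 ≤ vAx := by
  have h : vAx = 2 * phm * vk k0 := by
    unfold vAx vk
    rw [k0_sq, th_k0]
    unfold k0
    ring
  rw [h]
  exact mul_nonneg (by linarith [phm_pos]) (vk_nonneg k0_pos)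

theorem fAs_nonneg : 0 ≤ fAs := by
  have h : fAs = 2 * ∫ ψ in (0 : ℝ)..phm, fk (KK ψ) := by rw [int_fk_KK]; unfold fAs; ring
  rw [h]
  refine mul_nonneg zero_le_two (intervalIntegral.integral_nonneg phm_pos.le fun ψ hψ => ?_)
  exact fk_nonneg (KK_pos hψ)

theorem fAx_nonneg : 0 ≤ fAx := by
  have h : fAx = 2 * phm * fk k0 := by
    unfold fAx fk
    rw [th_k0]
    unfold k0
    ring
  rw [h]
  exact mul_nonneg (by linarith [phm_pos]) (fk_nonneg k0_pos)

theorem real_As : (volume As).toReal = vAs := by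
  rw [volume_As, ENNReal.toReal_ofReal vAs_nonneg]

theorem real_Ax : (volume Ax).toReal = vAx := by
  rw [volume_Ax, ENNReal.toReal_ofReal vAx_nonneg]

theorem dvp_intOn {S : Set (ℝ × ℝ × ℝ)} (h : ∫⁻ p in S, ENNReal.ofReal (dvp p) ≠ ⊤) :
    IntegrableOn dvp S := by
  refine ⟨dvp_cont.aestronglyMeasurable, ?_⟩
  rw [hasFiniteIntegral_iff_ofReal (Filter.Eventually.of_forall dvp_nonneg)]
  exact lt_of_le_of_ne le_top h

theorem intOn_As : IntegrableOn dvp As := dvp_intOn (by rw [lint_As]; exact ENNReal.ofReal_ne_top)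

theorem intOn_Ax : IntegrableOn dvp Ax := dvp_intOn (by rw [lint_Ax]; exact ENNReal.ofReal_ne_top)

theorem int_As : ∫ p in As, dvp p = fAs := by
  rw [integral_eq_lintegral_of_nonneg_ae (Filter.Eventually.of_forall dvp_nonneg)
    dvp_cont.aestronglyMeasurable, lint_As, ENNReal.toReal_ofReal fAs_nonneg]

theorem int_Ax : ∫ p in Ax, dvp p = fAx := by
  rw [integral_eq_lintegral_of_nonneg_ae (Filter.Eventually.of_forall dvp_nonneg)
    dvp_cont.aestronglyMeasurable, lint_Ax, ENNReal.toReal_ofReal fAx_nonneg]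

/-! ### relation of the angles -/

theorem om_eq : om = π / 2 - 2 * phm := by
  have h2 : √2 ≠ 0 := by positivity
  have h : tan (2 * phm) = 2 * √2 := by
    rw [Real.tan_two_mul]
    unfold phm
    rw [Real.tan_arctan, div_pow, Real.sq_sqrt (by norm_num)]
    norm_num
    ring
  have hc : cos phm ^ 2 = 2 / 3 := by
    rw [cos_phm, div_pow, Real.sq_sqrt (by norm_num), Real.sq_sqrt (by norm_num)]
  have hlt : 2 * phm < π / 2 := by
    by_contra hn
    push Not at hn
    have h1 : cos (2 * phm) ≤ 0 := Real.cos_nonpos_of_pi_div_two_le_of_le hn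
      (by linarith [phm_lt, Real.pi_pos])
    rw [Real.cos_two_mul, hc] at h1
    norm_num at h1
  have h3 : arctan (2 * √2) = 2 * phm := by
    rw [← h]
    exact Real.arctan_tan (by linarith [phm_pos, Real.pi_pos]) hlt
  have h4 : om = arctan ((2 * √2)⁻¹) := by
    unfold om
    congr 1
    field_simp
    rw [sq, s2]; norm_num
  rw [h4, Real.arctan_inv_of_pos (by positivity), h3]

theorem arccos_third : arccos (1 / 3) = 2 * phm := by
  have hc : cos phm ^ 2 = 2 / 3 := by
    rw [cos_phm, div_pow, Real.sq_sqrt (by norm_num), Real.sq_sqrt (by norm_num)]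
  have h : cos (2 * phm) = 1 / 3 := by
    rw [Real.cos_two_mul, hc]; norm_num
  rw [← h]
  exact Real.arccos_cos (by linarith [phm_pos]) (by linarith [phm_lt])

/-- `V_M` -/
noncomputable def VM : ℝ := π * (2 / 3 - √3 / 4 * arccos (1 / 3))

/-- solid angle of the regular tetrahedron at a vertex -/
noncomputable def Om : ℝ := 3 * arccos (1 / 3) - π

/-- first constant identity (the flux) -/
theorem K1 : (∫ p in As, (dvp p - 1 / 2)) + ∫ p in Ax, (dvp p - 1 / 2)
    = (π / 6 - 3 / 2 * (√2 / 12) - Om / 3) / 3 := by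
  have fin1 : volume As ≠ ⊤ := by rw [volume_As]; exact ENNReal.ofReal_ne_top
  have fin2 : volume Ax ≠ ⊤ := by rw [volume_Ax]; exact ENNReal.ofReal_ne_top
  have i1 : IntegrableOn (fun _ : ℝ × ℝ × ℝ => (1 / 2 : ℝ)) As := integrableOn_const fin1
  have i2 : IntegrableOn (fun _ : ℝ × ℝ × ℝ => (1 / 2 : ℝ)) Ax := integrableOn_const fin2
  rw [integral_sub intOn_As i1, integral_sub intOn_Ax i2, int_As, int_Ax]
  simp only [integral_const, smul_eq_mul, Measure.real, Measure.restrict_apply_univ]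
  rw [real_As, real_Ax]
  unfold fAs fAx vAs vAx Om
  rw [om_eq, arccos_third]
  ring

/-- second constant identity (the volume) -/
theorem K2 : (volume As).toReal + (volume Ax).toReal
    = (VM - √2 / 12 - 4 * (Om / 3 - √2 / 12)) / 3 := by
  rw [real_As, real_Ax]
  unfold vAs vAx VM Om
  rw [om_eq, arccos_third]
  ring

end Pool.Agent.Helper95.MEI.Cst
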