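import Mathlib

/-!
# Project MEI, class T, row E: the Fubini inequality, abstract form
-/

namespace Pool.Agent.Helper95.MEI

open MeasureTheory

variable {α β : Type*} [MeasurableSpace α] [MeasurableSpace β] {μ : Measure α} {ν : Measure β}

/-- Iterated integration of a bilinear inequality. -/
theorem fubini_abs {m A0 y x w : α → ℝ} {n B0 η ξ w' : β → ℝ}
    (hm : ∀ᵐ P ∂μ, 0 ≤ m P) (hn : ∀ᵐ Q ∂ν, 0 ≤ n Q)
    (im : Integrable m μ) (iA : Integrable (fun P => A0 P * m P) μ)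
    (iy : Integrable (fun P => y P * m P) μ) (ix : Integrable (fun P => x P * m P) μ)
    (iw : Integrable (fun P => w P * m P) μ)
    (jn : Integrable n ν) (jB : Integrable (fun Q => B0 Q * n Q) ν)
    (jη : Integrable (fun Q => η Q * n Q) ν) (jξ : Integrable (fun Q => ξ Q * n Q) ν)
    (jw : Integrable (fun Q => w' Q * n Q) ν)
    (h : ∀ᵐ P ∂μ, ∀ᵐ Q ∂ν,
      2 * w P * w' Q ≤ A0 P + 2 * (y P * η Q) + B0 Q + 2 * (x P * ξ Q)) :
    2 * (∫ P, w P * m P ∂μ) * (∫ Q, w' Q * n Q ∂ν)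
      ≤ (∫ P, A0 P * m P ∂μ) * (∫ Q, n Q ∂ν)
        + 2 * ((∫ P, y P * m P ∂μ) * (∫ Q, η Q * n Q ∂ν))
        + (∫ P, m P ∂μ) * (∫ Q, B0 Q * n Q ∂ν)
        + 2 * ((∫ P, x P * m P ∂μ) * (∫ Q, ξ Q * n Q ∂ν)) := by
  set In := ∫ Q, n Q ∂ν with hIn
  set Iη := ∫ Q, η Q * n Q ∂ν with hIη
  set IB := ∫ Q, B0 Q * n Q ∂ν with hIB
  set Iξ := ∫ Q, ξ Q * n Q ∂ν with hIξ
  set Iw := ∫ Q, w' Q * n Q ∂ν with hIw
  -- inner integration
  have inner : ∀ᵐ P ∂μ, 2 * w P * Iw ≤ A0 P * In + 2 * (y P * Iη) + IB + 2 * (x P * Iξ) := by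
    filter_upwards [h] with P hP
    have h1 : ∫ Q, 2 * w P * (w' Q * n Q) ∂ν
        ≤ ∫ Q, (A0 P * n Q + 2 * (y P * (η Q * n Q)) + B0 Q * n Q
            + 2 * (x P * (ξ Q * n Q))) ∂ν := by
      refine integral_mono_ae (jw.const_mul _) ?_ ?_
      · exact (((jn.const_mul _).add ((jη.const_mul _).const_mul _)).add jB).add
          ((jξ.const_mul _).const_mul _)
      · filter_upwards [hP, hn] with Q hQ hQn
        have := mul_le_mul_of_nonneg_right hQ hQn
        nlinarith [this]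
    rw [integral_const_mul] at h1
    rw [integral_add, integral_add, integral_add, integral_const_mul, integral_const_mul,
      integral_const_mul, integral_const_mul, integral_const_mul] at h1
    · exact h1
    · exact jn.const_mul _
    · exact (jη.const_mul _).const_mul _
    · exact (jn.const_mul _).add ((jη.const_mul _).const_mul _)
    · exact jB
    · exact ((jn.const_mul _).add ((jη.const_mul _).const_mul _)).add jB
    · exact (jξ.const_mul _).const_mul _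
  -- outer integration
  have h2 : ∫ P, 2 * Iw * (w P * m P) ∂μ
      ≤ ∫ P, (In * (A0 P * m P) + 2 * Iη * (y P * m P) + IB * m P
          + 2 * Iξ * (x P * m P)) ∂μ := by
    refine integral_mono_ae (iw.const_mul _) ?_ ?_
    · exact (((iA.const_mul _).add (iy.const_mul _)).add (im.const_mul _)).add (ix.const_mul _)
    · filter_upwards [inner, hm] with P hP hPm
      have := mul_le_mul_of_nonneg_right hP hPm
      nlinarith [this]
  rw [integral_const_mul] at h2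
  rw [integral_add, integral_add, integral_add, integral_const_mul, integral_const_mul,
    integral_const_mul, integral_const_mul] at h2
  · linarith
  · exact iA.const_mul _
  · exact iy.const_mul _
  · exact (iA.const_mul _).add (iy.const_mul _)
  · exact im.const_mul _
  · exact ((iA.const_mul _).add (iy.const_mul _)).add (im.const_mul _)
  · exact ix.const_mul _

/-- The same with the absorption of the two cross terms. -/
theorem fubini_absorb {m A0 y x w : α → ℝ} {n B0 η ξ w' : β → ℝ} {Y0 : ℝ}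
    (hm : ∀ᵐ P ∂μ, 0 ≤ m P) (hn : ∀ᵐ Q ∂ν, 0 ≤ n Q)
    (im : Integrable m μ) (iA : Integrable (fun P => A0 P * m P) μ)
    (iy : Integrable (fun P => y P * m P) μ) (ix : Integrable (fun P => x P * m P) μ)
    (iw : Integrable (fun P => w P * m P) μ)
    (jn : Integrable n ν) (jB : Integrable (fun Q => B0 Q * n Q) ν)
    (jη : Integrable (fun Q => η Q * n Q) ν) (jξ : Integrable (fun Q => ξ Q * n Q) ν)
    (jw : Integrable (fun Q => w' Q * n Q) ν)
    (h : ∀ᵐ P ∂μ, ∀ᵐ Q ∂ν,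
      2 * w P * w' Q ≤ A0 P + 2 * (y P * η Q) + B0 Q + 2 * (x P * ξ Q))
    (hy : ∀ᵐ P ∂μ, |y P| ≤ A0 P) (hξ : ∀ᵐ Q ∂ν, |ξ Q| ≤ B0 Q)
    (hη : |∫ Q, η Q * n Q ∂ν| ≤ Y0 * ∫ Q, n Q ∂ν)
    (hx : |∫ P, x P * m P ∂μ| ≤ Y0 * ∫ P, m P ∂μ) :
    2 * (∫ P, w P * m P ∂μ) * (∫ Q, w' Q * n Q ∂ν)
      ≤ (1 + 2 * Y0) * ((∫ Q, n Q ∂ν) * (∫ P, A0 P * m P ∂μ)
        + (∫ P, m P ∂μ) * (∫ Q, B0 Q * n Q ∂ν)) := by
  have key := fubini_abs hm hn im iA iy ix iw jn jB jη jξ jw h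
  have h1 : |∫ P, y P * m P ∂μ| ≤ ∫ P, A0 P * m P ∂μ := by
    refine (abs_integral_le_integral_abs).trans (integral_mono_ae iy.abs iA ?_)
    filter_upwards [hy, hm] with P hP hPm
    show |y P * m P| ≤ A0 P * m P
    rw [abs_mul, abs_of_nonneg hPm]
    exact mul_le_mul_of_nonneg_right hP hPm
  have h2 : |∫ Q, ξ Q * n Q ∂ν| ≤ ∫ Q, B0 Q * n Q ∂ν := by
    refine (abs_integral_le_integral_abs).trans (integral_mono_ae jξ.abs jB ?_)
    filter_upwards [hξ, hn] with Q hQ hQn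
    show |ξ Q * n Q| ≤ B0 Q * n Q
    rw [abs_mul, abs_of_nonneg hQn]
    exact mul_le_mul_of_nonneg_right hQ hQn
  have h3 : (∫ P, y P * m P ∂μ) * (∫ Q, η Q * n Q ∂ν)
      ≤ (∫ P, A0 P * m P ∂μ) * (Y0 * ∫ Q, n Q ∂ν) := by
    refine (le_abs_self _).trans ?_
    rw [abs_mul]
    exact mul_le_mul h1 hη (abs_nonneg _) ((abs_nonneg _).trans h1)
  have h4 : (∫ P, x P * m P ∂μ) * (∫ Q, ξ Q * n Q ∂ν)
      ≤ (Y0 * ∫ P, m P ∂μ) * (∫ Q, B0 Q * n Q ∂ν) := by
    refine (le_abs_self _).trans ?_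
    rw [abs_mul]
    exact mul_le_mul hx h2 (abs_nonneg _) ((abs_nonneg _).trans hx)
  nlinarith [key, h3, h4]

end Pool.Agent.Helper95.MEI
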