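import Pool.Agent.Helper22.MEI.Flux
import Pool.Agent.Helper95.MEI.EAbs

/-!
# Project MEI, class T, row E: the Fubini coercivity
-/

namespace Pool.Agent.Helper95.MEI

open Set MeasureTheory Helper22.MEI

variable {f : ℝ × ℝ → ℝ}

/-- the complementary function -/
noncomputable def co (f : ℝ × ℝ → ℝ) (p : ℝ × ℝ) : ℝ := NN p - f p

/-- `3/4 - |v + m'|^2` -/
noncomputable def EE (v : ℝ × ℝ × ℝ) : ℝ := 3 / 4 - v.1 ^ 2 - v.2.1 ^ 2 - (v.2.2 + t) ^ 2

/-- depth coordinate of the gradient point -/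
noncomputable def dw (f : ℝ × ℝ → ℝ) (p : ℝ × ℝ) : ℝ := (gp f p).2.2 - t

theorem t_sq : t ^ 2 = 1 / 8 := by
  unfold t; rw [div_pow, Real.sq_sqrt (by norm_num)]; norm_num

/-- the exact coupling identity -/
theorem coupling (a b : ℝ × ℝ × ℝ) :
    EE a + 2 * (a.2.1 * (-b.2.1)) + EE b + 2 * (a.1 * (-b.1))
      = 2 * (a.2.2 - t) * (b.2.2 - t)
        + (1 - ((a.1 + b.1) ^ 2 + (a.2.1 + b.2.1) ^ 2 + (a.2.2 + b.2.2) ^ 2)) := by
  unfold EE
  linear_combination (-4 : ℝ) * t_sq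

theorem coupling_le {a b : ℝ × ℝ × ℝ}
    (h : (a.1 + b.1) ^ 2 + (a.2.1 + b.2.1) ^ 2 + (a.2.2 + b.2.2) ^ 2 ≤ 1) :
    2 * (a.2.2 - t) * (b.2.2 - t)
      ≤ EE a + 2 * (a.2.1 * (-b.2.1)) + EE b + 2 * (a.1 * (-b.1)) := by
  rw [coupling]; linarith

/-! ### the complementary function -/

theorem dX_co (h : Adm f) (p : ℝ × ℝ) : dX (co f) p = p.1 / NN p - dX f p := dX_Nsub h p

theorem dY_co (h : Adm f) (p : ℝ × ℝ) : dY (co f) p = p.2 / NN p - dY f p := dY_Nsub h p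

theorem gp_co (h : Adm f) (p : ℝ × ℝ) :
    gp (co f) p = (p.1 / NN p - (gp f p).1, p.2 / NN p - (gp f p).2.1,
      1 / NN p - (gp f p).2.2) := by
  unfold gp
  rw [dX_co h, dY_co h]
  refine Prod.ext rfl (Prod.ext rfl ?_)
  show co f p - p.1 * (p.1 / NN p - dX f p) - p.2 * (p.2 / NN p - dY f p)
    = 1 / NN p - (f p - p.1 * dX f p - p.2 * dY f p)
  unfold co
  have hn := NN_ne p
  have hN2 := NN_sq p
  have e : NN p - p.1 * (p.1 / NN p) - p.2 * (p.2 / NN p) = 1 / NN p := by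
    field_simp
    linarith
  linear_combination e

theorem co_co (f : ℝ × ℝ → ℝ) : co (co f) = f := by
  funext p; unfold co; ring

/-- facts which hold for `f` and for `co f` -/
structure Half (g : ℝ × ℝ → ℝ) : Prop where
  gX : Continuous (dX g)
  gY : Continuous (dY g)
  gpc : Continuous (gp g)
  hg : Good (hd g)
  pos : ∀ᵐ p : ℝ × ℝ, 0 ≤ hd g p

theorem det_nonneg {A B C : ℝ} (h : ∀ a b : ℝ, 0 ≤ A * a ^ 2 + 2 * B * a * b + C * b ^ 2) :
    0 ≤ A * C - B * B := by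
  have hA : 0 ≤ A := by simpa using h 1 0
  rcases hA.eq_or_lt with h0 | h0
  · rw [← h0] at h ⊢
    have hB : B = 0 := by
      by_contra hB
      have h1 := h (-(C + 1) / (2 * B)) 1
      have : 2 * B * (-(C + 1) / (2 * B)) * 1 = -(C + 1) := by field_simp
      rw [this] at h1
      linarith
    rw [hB]; simp
  · have h1 := h (-B) A
    have h2 : 0 ≤ A * (A * C - B * B) := by nlinarith
    exact nonneg_of_mul_nonneg_right h2 h0

theorem half_of {g : ℝ × ℝ → ℝ} (hd' : Differentiable ℝ g) (hc : ConvexOn ℝ univ g)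
    {K L : NNReal} (hX : LipschitzWith K (dX g)) (hY : LipschitzWith L (dY g)) : Half g where
  gX := hX.continuous
  gY := hY.continuous
  gpc := by
    have h1 := hX.continuous
    have h2 := hY.continuous
    have h3 := hd'.continuous
    unfold Helper22.MEI.gp
    fun_prop
  hg := by
    unfold hd
    exact ((good_fd hX _).mul (good_fd hY _)).sub ((good_fd hY _).mul (good_fd hX _))
  pos := by
    filter_upwards [hX.ae_differentiableAt (μ := volume), hY.ae_differentiableAt (μ := volume)]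
      with p h1 h2
    have hs := hess_symm hd' h1 h2
    have hp := hess_pos hd' hc h1 h2 hs
    unfold hd
    rw [hs]
    exact det_nonneg hp

theorem half_f (h : Adm f) : Half f := half_of h.diff h.cv h.LX h.LY

theorem dist_sw (p q : ℝ × ℝ) : dist ((p.2, p.1) : ℝ × ℝ) (q.2, q.1) = dist p q := by
  rw [Prod.dist_eq, Prod.dist_eq, max_comm]

theorem co_eq (f : ℝ × ℝ → ℝ) : co f = fun p => sw f (p.2, p.1) := by
  funext p
  unfold co sw
  rw [NN_swap]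

theorem half_co (h : Adm f) : Half (co f) := by
  refine half_of (K := 2) (L := 2) h.diffN h.cvN ?_ ?_
  · apply LipschitzWith.of_dist_le_mul
    intro p q
    have e : ∀ p, dX (co f) p = dY (sw f) (p.2, p.1) := fun p => by
      rw [dX_co h, dY_sw h.diff, NN_swap]
    rw [e, e, ← dist_sw p q]
    exact h.swap.LY.dist_le_mul _ _
  · apply LipschitzWith.of_dist_le_mul
    intro p q
    have e : ∀ p, dY (co f) p = dX (sw f) (p.2, p.1) := fun p => by
      rw [dY_co h, dX_sw h.diff, NN_swap]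
    rw [e, e, ← dist_sw p q]
    exact h.swap.LX.dist_le_mul _ _

theorem Half.gEE {g : ℝ × ℝ → ℝ} (H : Half g) : Good (fun p => EE (gp g p)) := by
  have h0 : Continuous EE := by unfold EE; fun_prop
  exact Good.cont (h0.comp H.gpc)

theorem Half.g1 {g : ℝ × ℝ → ℝ} (H : Half g) : Good (fun p => (gp g p).1) :=
  Good.cont H.gpc.fst

theorem Half.g2 {g : ℝ × ℝ → ℝ} (H : Half g) : Good (fun p => (gp g p).2.1) :=
  Good.cont H.gpc.snd.fst

theorem Half.gw {g : ℝ × ℝ → ℝ} (H : Half g) : Good (dw g) :=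
  Good.cont (H.gpc.snd.snd.sub continuous_const)

theorem Half.gm {g : ℝ × ℝ → ℝ} (H : Half g) : Good (fun p => NN p * hd g p) :=
  (Good.cont NN_cont).mul H.hg

theorem Half.mpos {g : ℝ × ℝ → ℝ} (H : Half g) :
    ∀ᵐ p : ℝ × ℝ ∂(volume.restrict SQ), 0 ≤ NN p * hd g p := by
  apply ae_restrict_of_ae
  filter_upwards [H.pos] with p hp
  exact mul_nonneg (NN_pos p).le hp

/-- Row E, form with the complementary function. -/
theorem rowE (h : Adm f) {Y0 : ℝ}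
    (P1 : ∀ P ∈ SQ, ∀ Q ∈ SQ, ((gp f P).1 + (gp (co f) Q).1) ^ 2
      + ((gp f P).2.1 + (gp (co f) Q).2.1) ^ 2 + ((gp f P).2.2 + (gp (co f) Q).2.2) ^ 2 ≤ 1)
    (hA : ∀ P ∈ SQ, |(gp f P).2.1| ≤ EE (gp f P))
    (hB : ∀ Q ∈ SQ, |(gp (co f) Q).1| ≤ EE (gp (co f) Q))
    (hY : ∀ P ∈ SQ, |(gp f P).2.1| ≤ Y0) (hX : ∀ Q ∈ SQ, |(gp (co f) Q).1| ≤ Y0)
    (n1 : ∫ p in SQ, p.2 * hd f p = 0) (n2 : ∫ p in SQ, p.1 * hd (co f) p = 0) :
    2 * (∫ p in SQ, dw f p * (NN p * hd (co f) p)) * (∫ p in SQ, dw (co f) p * (NN p * hd f p))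
      ≤ (1 + 2 * Y0) * ((∫ p in SQ, NN p * hd f p)
            * (∫ p in SQ, EE (gp f p) * (NN p * hd (co f) p))
          + (∫ p in SQ, NN p * hd (co f) p)
            * (∫ p in SQ, EE (gp (co f) p) * (NN p * hd f p))) := by
  have Hf := half_f h
  have Hg := half_co h
  have hSQ : MeasurableSet SQ := SQ_meas
  refine fubini_absorb (μ := volume.restrict SQ) (ν := volume.restrict SQ)
    (m := fun p => NN p * hd (co f) p) (n := fun p => NN p * hd f p)
    (A0 := fun p => EE (gp f p)) (y := fun p => (gp f p).2.1) (x := fun p => (gp f p).1)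
    (w := dw f) (B0 := fun p => EE (gp (co f) p)) (η := fun p => -(gp (co f) p).2.1)
    (ξ := fun p => -(gp (co f) p).1) (w' := dw (co f))
    Hg.mpos Hf.mpos Hg.gm.int (Hf.gEE.mul Hg.gm).int (Hf.g2.mul Hg.gm).int
    (Hf.g1.mul Hg.gm).int (Hf.gw.mul Hg.gm).int Hf.gm.int (Hg.gEE.mul Hf.gm).int
    (Hg.g2.neg.mul Hf.gm).int (Hg.g1.neg.mul Hf.gm).int (Hg.gw.mul Hf.gm).int ?_ ?_ ?_ ?_ ?_
  · filter_upwards [ae_restrict_mem hSQ] with P hP
    filter_upwards [ae_restrict_mem hSQ] with Q hQ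
    exact coupling_le (P1 P hP Q hQ)
  · filter_upwards [ae_restrict_mem hSQ] with P hP using hA P hP
  · filter_upwards [ae_restrict_mem hSQ] with Q hQ
    rw [abs_neg]; exact hB Q hQ
  · -- int eta n
    have e : ∫ p in SQ, -(gp (co f) p).2.1 * (NN p * hd f p)
        = ∫ p in SQ, (gp f p).2.1 * (NN p * hd f p) := by
      have e1 : ∫ p in SQ, -(gp (co f) p).2.1 * (NN p * hd f p)
          = ∫ p in SQ, ((gp f p).2.1 * (NN p * hd f p) - p.2 * hd f p) := by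
        congr 1
        funext p
        rw [gp_co h]
        have hn := NN_ne p
        field_simp
        ring
      rw [e1, integral_sub (Hf.g2.mul Hf.gm).int
        ((Good.cont continuous_snd).mul Hf.hg).int, n1, sub_zero]
    rw [e, ← integral_const_mul]
    refine abs_integral_le_integral_abs.trans
      (integral_mono_ae (Hf.g2.mul Hf.gm).int.abs (Hf.gm.int.const_mul _) ?_)
    filter_upwards [ae_restrict_mem hSQ, Hf.mpos] with p hp hm
    show |(gp f p).2.1 * (NN p * hd f p)| ≤ Y0 * (NN p * hd f p)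
    rw [abs_mul, abs_of_nonneg hm]
    exact mul_le_mul_of_nonneg_right (hY p hp) hm
  · have e : ∫ p in SQ, (gp f p).1 * (NN p * hd (co f) p)
        = ∫ p in SQ, -(gp (co f) p).1 * (NN p * hd (co f) p) := by
      have e1 : ∫ p in SQ, (gp f p).1 * (NN p * hd (co f) p)
          = ∫ p in SQ, (p.1 * hd (co f) p + -(gp (co f) p).1 * (NN p * hd (co f) p)) := by
        congr 1
        funext p
        rw [gp_co h]
        have hn := NN_ne p
        field_simp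
        ring
      rw [e1, integral_add ((Good.cont continuous_fst).mul Hg.hg).int
        (Hg.g1.neg.mul Hg.gm).int, n2, zero_add]
    rw [e, ← integral_const_mul]
    refine abs_integral_le_integral_abs.trans
      (integral_mono_ae (Hg.g1.neg.mul Hg.gm).int.abs (Hg.gm.int.const_mul _) ?_)
    filter_upwards [ae_restrict_mem hSQ, Hg.mpos] with p hp hm
    show |-(gp (co f) p).1 * (NN p * hd (co f) p)| ≤ Y0 * (NN p * hd (co f) p)
    rw [abs_mul, abs_of_nonneg hm, abs_neg]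
    exact mul_le_mul_of_nonneg_right (hX p hp) hm

/-! ### the swap -/

theorem fderiv_swap (k : ℝ × ℝ → ℝ) (p v : ℝ × ℝ) :
    fderiv ℝ (fun q : ℝ × ℝ => k (q.2, q.1)) p v = fderiv ℝ k (p.2, p.1) (v.2, v.1) := by
  have h := (ContinuousLinearEquiv.prodComm ℝ ℝ ℝ).comp_right_fderiv (f := k) (x := p)
  have e : (k ∘ (ContinuousLinearEquiv.prodComm ℝ ℝ ℝ)) = fun q : ℝ × ℝ => k (q.2, q.1) := by
    funext q; rfl
  rw [e] at h
  rw [h]
  rfl

theorem dX_swap (k : ℝ × ℝ → ℝ) :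
    dX (fun q : ℝ × ℝ => k (q.2, q.1)) = fun q : ℝ × ℝ => dY k (q.2, q.1) := by
  funext p; unfold dX dY; rw [fderiv_swap]

theorem dY_swap (k : ℝ × ℝ → ℝ) :
    dY (fun q : ℝ × ℝ => k (q.2, q.1)) = fun q : ℝ × ℝ => dX k (q.2, q.1) := by
  funext p; unfold dX dY; rw [fderiv_swap]

theorem hd_swap (k : ℝ × ℝ → ℝ) (p : ℝ × ℝ) :
    hd (fun q : ℝ × ℝ => k (q.2, q.1)) p = hd k (p.2, p.1) := by
  unfold hd
  simp only [dX_swap, dY_swap]
  ring

theorem gp_swap (k : ℝ × ℝ → ℝ) (p : ℝ × ℝ) :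
    gp (fun q : ℝ × ℝ => k (q.2, q.1)) p
      = ((gp k (p.2, p.1)).2.1, (gp k (p.2, p.1)).1, (gp k (p.2, p.1)).2.2) := by
  unfold gp
  simp only [dX_swap, dY_swap]
  refine Prod.ext rfl (Prod.ext rfl ?_)
  show k (p.2, p.1) - p.1 * dY k (p.2, p.1) - p.2 * dX k (p.2, p.1)
    = k (p.2, p.1) - p.2 * dX k (p.2, p.1) - p.1 * dY k (p.2, p.1)
  ring

theorem sw_eq (f : ℝ × ℝ → ℝ) : sw f = fun p : ℝ × ℝ => co f (p.2, p.1) := by
  funext p; unfold sw co; rw [NN_swap]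

theorem co_sw (f : ℝ × ℝ → ℝ) : co (sw f) = fun p : ℝ × ℝ => f (p.2, p.1) := by
  funext p; unfold sw co; ring

theorem hd_sw (f : ℝ × ℝ → ℝ) (p : ℝ × ℝ) : hd (sw f) p = hd (co f) (p.2, p.1) := by
  rw [sw_eq, hd_swap]

theorem dw_co_sw (f : ℝ × ℝ → ℝ) (p : ℝ × ℝ) : dw (co (sw f)) p = dw f (p.2, p.1) := by
  unfold dw
  rw [co_sw, gp_swap]

theorem EE_co_sw (f : ℝ × ℝ → ℝ) (p : ℝ × ℝ) : EE (gp (co (sw f)) p) = EE (gp f (p.2, p.1)) := by
  rw [co_sw, gp_swap]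
  unfold EE
  ring

/-- `alpha(f)` -/
noncomputable def al (f : ℝ × ℝ → ℝ) : ℝ := ∫ p in SQ, dw (co f) p * (NN p * hd f p)

/-- `∫ B0 dS_p` -/
noncomputable def TE (f : ℝ × ℝ → ℝ) : ℝ := ∫ p in SQ, EE (gp (co f) p) * (NN p * hd f p)

theorem al_sw (f : ℝ × ℝ → ℝ) : al (sw f) = ∫ p in SQ, dw f p * (NN p * hd (co f) p) := by
  unfold al
  rw [← int_swap (fun p => dw f p * (NN p * hd (co f) p))]
  congr 1
  funext p
  rw [dw_co_sw, hd_sw, NN_swap]

theorem TE_sw (f : ℝ × ℝ → ℝ) : TE (sw f) = ∫ p in SQ, EE (gp f p) * (NN p * hd (co f) p) := by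
  unfold TE
  rw [← int_swap (fun p => EE (gp f p) * (NN p * hd (co f) p))]
  congr 1
  funext p
  rw [EE_co_sw, hd_sw, NN_swap]

theorem St_sw (f : ℝ × ℝ → ℝ) : ∫ p in SQ, NN p * hd (sw f) p = ∫ p in SQ, NN p * hd (co f) p := by
  rw [← int_swap (fun p => NN p * hd (co f) p)]
  congr 1
  funext p
  rw [hd_sw, NN_swap]

/-- Row E, symmetric form: all facts are needed only for `f` and `sw f` on the square. -/
theorem rowE_sw (h : Adm f) {Y0 : ℝ}
    (P1 : ∀ P ∈ SQ, ∀ Q ∈ SQ, ((gp f P).1 + (gp (co f) Q).1) ^ 2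
      + ((gp f P).2.1 + (gp (co f) Q).2.1) ^ 2 + ((gp f P).2.2 + (gp (co f) Q).2.2) ^ 2 ≤ 1)
    (hA : ∀ P ∈ SQ, |dY f P| ≤ EE (gp f P)) (hA' : ∀ P ∈ SQ, |dY (sw f) P| ≤ EE (gp (sw f) P))
    (hY : ∀ P ∈ SQ, |dY f P| ≤ Y0) (hY' : ∀ P ∈ SQ, |dY (sw f) P| ≤ Y0)
    (n1 : ∫ p in SQ, p.2 * hd f p = 0) (n2 : ∫ p in SQ, p.2 * hd (sw f) p = 0) :
    2 * al f * al (sw f)
      ≤ (1 + 2 * Y0) * ((∫ p in SQ, NN p * hd f p) * TE (sw f)
          + (∫ p in SQ, NN p * hd (sw f) p) * TE f) := by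
  have hm : ∀ {Q : ℝ × ℝ}, Q ∈ SQ → ((Q.2, Q.1) : ℝ × ℝ) ∈ SQ := fun hQ => ⟨hQ.2, hQ.1⟩
  have e1 : ∀ Q : ℝ × ℝ, (gp (co f) Q).1 = dY (sw f) (Q.2, Q.1) := fun Q => by
    show dX (co f) Q = _
    rw [dX_co h, dY_sw h.diff, NN_swap]
  have e2 : ∀ Q : ℝ × ℝ, EE (gp (co f) Q) = EE (gp (sw f) (Q.2, Q.1)) := fun Q => by
    rw [sw_eq, gp_swap]; unfold EE; ring
  have n3 : ∫ p in SQ, p.1 * hd (co f) p = 0 := by
    rw [← n2, ← int_swap (fun p => p.1 * hd (co f) p)]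
    congr 1
    funext p
    rw [hd_sw]
  have key := rowE h (Y0 := Y0) P1 hA (fun Q hQ => by rw [e1, e2]; exact hA' _ (hm hQ)) hY
    (fun Q hQ => by rw [e1]; exact hY' _ (hm hQ)) n1 n3
  rw [al_sw, TE_sw, St_sw]
  unfold al TE
  linarith [key]

end Pool.Agent.Helper95.MEI
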