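import Pool.Agent.Helper95.MEI.E
import Pool.Agent.Helper14.CW.Geo1

/-!
# Project MEI, class T, row E: final form
-/

namespace Pool.Agent.Helper95.MEI

open Set MeasureTheory Helper22.MEI Helper14.CW.Geo

variable {f : ℝ × ℝ → ℝ}

theorem SQ_abs {p : ℝ × ℝ} (hp : p ∈ SQ) : |p.1| ≤ s ∧ |p.2| ≤ s :=
  ⟨abs_le.2 ⟨hp.1.1.le, hp.1.2.le⟩, abs_le.2 ⟨hp.2.1.le, hp.2.2.le⟩⟩

theorem gp_co1 (h : Adm f) (p : ℝ × ℝ) : (gp (co f) p).1 = -qx f p := by
  rw [gp_co h]; unfold qx gp; ring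

theorem gp_co2 (h : Adm f) (p : ℝ × ℝ) : (gp (co f) p).2.1 = -qy f p := by
  rw [gp_co h]; unfold qy gp; ring

theorem gp_co3 (h : Adm f) (p : ℝ × ℝ) : (gp (co f) p).2.2 = -qz f p := by
  rw [gp_co h]; unfold qz pz gp; ring

theorem EE_gp (f : ℝ × ℝ → ℝ) (p : ℝ × ℝ) : EE (gp f p) = Ap f p 0 := by
  unfold EE Ap gp pz; ring

theorem EE_gp_co (h : Adm f) (p : ℝ × ℝ) : EE (gp (co f) p) = Bq f p 0 := by
  unfold EE Bq
  rw [gp_co1 h, gp_co2 h, gp_co3 h]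
  ring

theorem dw_eq (f : ℝ × ℝ → ℝ) (p : ℝ × ℝ) : dw f p = pz f p - t := rfl

theorem dw_co (h : Adm f) (p : ℝ × ℝ) : dw (co f) p = -qz f p - t := by
  unfold dw; rw [gp_co3 h]

/-- Fubini coercivity, all geometric facts inserted. -/
theorem coercive (h : Adm f) (n1 : ∫ p in SQ, p.2 * hd f p = 0)
    (n2 : ∫ p in SQ, p.2 * hd (sw f) p = 0) :
    2 * al f * al (sw f)
      ≤ (1 + 2 * 0.0774) * ((∫ p in SQ, NN p * hd f p) * TE (sw f)
          + (∫ p in SQ, NN p * hd (sw f) p) * TE f) := by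
  refine rowE_sw h ?_ ?_ ?_ ?_ ?_ n1 n2
  · intro P hP Q hQ
    have a := SQ_abs hP
    have b := SQ_abs hQ
    have := dist_all h b.1 b.2 a.1 a.2
    rw [gp_co1 h, gp_co2 h, gp_co3 h]
    exact this
  · intro P hP
    have a := SQ_abs hP
    rw [EE_gp]
    exact abs_dY_le_Ap h a.1 a.2
  · intro P hP
    have a := SQ_abs hP
    rw [EE_gp]
    exact abs_dY_le_Ap h.swap a.1 a.2
  · intro P hP
    have a := SQ_abs hP
    exact abs_dY h a.1 a.2
  · intro P hP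
    have a := SQ_abs hP
    exact abs_dY h.swap a.1 a.2

/-- `TE f ≥ 0` -/
theorem TE_nonneg (h : Adm f) : 0 ≤ TE f := by
  refine integral_nonneg_of_ae ?_
  filter_upwards [ae_restrict_mem SQ_meas, (half_f h).mpos] with p hp hm
  have a := SQ_abs hp
  rw [EE_gp_co h]
  exact mul_nonneg ((abs_nonneg _).trans (abs_qx_le_Bq h a.1 a.2)) hm

/-- `al f ≥ 0` -/
theorem al_nonneg (h : Adm f) : 0 ≤ al f := by
  refine integral_nonneg_of_ae ?_
  filter_upwards [ae_restrict_mem SQ_meas, (half_f h).mpos] with p hp hm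
  have a := SQ_abs hp
  rw [dw_co h]
  exact mul_nonneg (wg_nonneg h a.1 a.2) hm

theorem St_nonneg (h : Adm f) : 0 ≤ ∫ p in SQ, NN p * hd f p :=
  integral_nonneg_of_ae (half_f h).mpos

/-- Fubini coercivity with the constant 1.16. -/
theorem coercive' (h : Adm f) (n1 : ∫ p in SQ, p.2 * hd f p = 0)
    (n2 : ∫ p in SQ, p.2 * hd (sw f) p = 0) :
    2 * (al f * al (sw f))
      ≤ 1.16 * ((∫ p in SQ, NN p * hd f p) * TE (sw f)
          + (∫ p in SQ, NN p * hd (sw f) p) * TE f) := by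
  have h1 := coercive h n1 n2
  have h2 := mul_nonneg (St_nonneg h) (TE_nonneg h.swap)
  have h3 := mul_nonneg (St_nonneg h.swap) (TE_nonneg h)
  nlinarith

end Pool.Agent.Helper95.MEI
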