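import Pool.Agent.Helper95.MEI.EAbs
import Pool.Agent.Helper93.MEI.R1
import Pool.Agent.Helper78.MEI.GArith

/-!
# Project MEI, all bodies, regime I, row S5: the Fubini inequality for the pair measure

`σ` is a finite measure on pairs `(p, q)` of points of `K`, `‖p - q‖ ≤ 1` for all points of `K`.
The edge cells of the opposite edges `01` and `23`.
-/

namespace Pool.Agent.Helper95.MEI.Fub

open MeasureTheory Set Real
open Helper80.CW Helper14.CW Helper93.MEI
open Pool.Agent.Helper8.MEI (DD DD_pos)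
open scoped RealInnerProductSpace

section abs

variable {α β : Type*} [MeasurableSpace α] [MeasurableSpace β] {μ : Measure α} {ν : Measure β}

/-- abstract form: masses and absolute values of two null integrals -/
theorem fub_mass [IsFiniteMeasure μ] [IsFiniteMeasure ν] {A y x w : α → ℝ} {B η ξ v : β → ℝ}
    (iA : Integrable A μ) (iy : Integrable y μ) (ix : Integrable x μ) (iw : Integrable w μ)
    (jB : Integrable B ν) (jη : Integrable η ν) (jξ : Integrable ξ ν) (jv : Integrable v ν)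
    (h : ∀ᵐ P ∂μ, ∀ᵐ Q ∂ν, 2 * w P * v Q ≤ A P + 2 * (y P * η Q) + B Q + 2 * (x P * ξ Q))
    (hy : ∀ᵐ P ∂μ, |y P| ≤ A P) (hξ : ∀ᵐ Q ∂ν, |ξ Q| ≤ B Q) :
    2 * ((∫ Q, v Q ∂ν) * (∫ P, w P ∂μ)) ≤
      ν.real univ * (∫ P, A P ∂μ) + 2 * |∫ Q, η Q ∂ν| * (∫ P, A P ∂μ)
        + μ.real univ * (∫ Q, B Q ∂ν) + 2 * |∫ P, x P ∂μ| * (∫ Q, B Q ∂ν) := by
  have key := fubini_abs (μ := μ) (ν := ν) (m := fun _ => 1) (n := fun _ => 1) (A0 := A) (y := y)
    (x := x) (w := w) (B0 := B) (η := η) (ξ := ξ) (w' := v)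
    (Filter.Eventually.of_forall fun _ => zero_le_one)
    (Filter.Eventually.of_forall fun _ => zero_le_one)
    (integrable_const _) (by simpa using iA) (by simpa using iy) (by simpa using ix)
    (by simpa using iw) (integrable_const _) (by simpa using jB) (by simpa using jη)
    (by simpa using jξ) (by simpa using jv) h
  simp only [mul_one, integral_const, smul_eq_mul] at key
  have h1 : |∫ P, y P ∂μ| ≤ ∫ P, A P ∂μ :=
    (abs_integral_le_integral_abs).trans (integral_mono_ae iy.abs iA hy)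
  have h2 : |∫ Q, ξ Q ∂ν| ≤ ∫ Q, B Q ∂ν :=
    (abs_integral_le_integral_abs).trans (integral_mono_ae jξ.abs jB hξ)
  have h3 : (∫ P, y P ∂μ) * (∫ Q, η Q ∂ν) ≤ (∫ P, A P ∂μ) * |∫ Q, η Q ∂ν| := by
    refine (le_abs_self _).trans ?_
    rw [abs_mul]
    exact mul_le_mul_of_nonneg_right h1 (abs_nonneg _)
  have h4 : (∫ P, x P ∂μ) * (∫ Q, ξ Q ∂ν) ≤ |∫ P, x P ∂μ| * (∫ Q, B Q ∂ν) := by
    refine (le_abs_self _).trans ?_
    rw [abs_mul]
    exact mul_le_mul_of_nonneg_left h2 (abs_nonneg _)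
  nlinarith [key, h3, h4]

end abs

/-! ### pointwise -/

section pt

variable {a : Fin 4 → E3} (h : Gram4 (al a))
include h

/-- `Âh` of a point near the edge `01` -/
noncomputable def hA (a : Fin 4 → E3) (z : E3) : ℝ := (pp (-Qv a 2 z) + pp (-Qv a 3 z)) / 2

noncomputable def hB (a : Fin 4 → E3) (q : E3) : ℝ := (pp (-Qv a 0 q) + pp (-Qv a 1 q)) / 2

omit h in
theorem half_abs {u v : ℝ} (hu : 0 ≤ u) (hv : 0 ≤ v) : |(u - v) / 2| ≤ (u + v) / 2 := by
  rw [abs_le]; constructor <;> linarith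

omit h in
theorem neg_le_pp (u : ℝ) : -u ≤ pp (-u) := le_pp _

/-- (R3) -/
theorem R3 {z q : E3} (hz : Pl a z) (hq : Pl a q) (hzq : ‖z - q‖ ≤ 1) :
    2 * eW a z * eV a q ≤ hA a z + 2 * ((pp (-Qv a 2 z) - pp (-Qv a 3 z)) / 2 * eY a q)
      + hB a q + 2 * (eX a z * ((pp (-Qv a 0 q) - pp (-Qv a 1 q)) / 2)) := by
  have key := fubini_id h z q
  have hn : ‖z - q‖ ^ 2 ≤ 1 := by
    have := norm_nonneg (z - q)
    nlinarith
  obtain ⟨_, _, hy⟩ := pl_e h hq
  obtain ⟨_, hx, _⟩ := pl_e h hz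
  obtain ⟨y1, y2⟩ := abs_le.1 hy
  obtain ⟨x1, x2⟩ := abs_le.1 hx
  have a1 := mul_le_mul_of_nonneg_left (neg_le_pp (Qv a 2 z)) (by linarith : 0 ≤ 1 / 2 + eY a q)
  have a2 := mul_le_mul_of_nonneg_left (neg_le_pp (Qv a 3 z)) (by linarith : 0 ≤ 1 / 2 - eY a q)
  have a3 := mul_le_mul_of_nonneg_left (neg_le_pp (Qv a 0 q)) (by linarith : 0 ≤ 1 / 2 + eX a z)
  have a4 := mul_le_mul_of_nonneg_left (neg_le_pp (Qv a 1 q)) (by linarith : 0 ≤ 1 / 2 - eX a z)
  unfold hA hB
  linarith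

end pt

/-! ### integrability of continuous functions -/

section int

variable {σ : Measure (E3 × E3)} [IsFiniteMeasure σ] {K : Set E3}

/-- continuous functions are integrable -/
theorem int_cont (hK : IsCompact K) (hσ : ∀ᵐ z ∂σ, z.1 ∈ K ∧ z.2 ∈ K) {F : E3 × E3 → ℝ}
    (hF : Continuous F) : Integrable F σ := by
  have hKK : IsCompact (K ×ˢ K) := hK.prod hK
  obtain ⟨C, hC⟩ := hKK.bddAbove_image (hF.norm).continuousOn
  refine Integrable.of_bound hF.aestronglyMeasurable C ?_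
  filter_upwards [hσ] with z hz
  exact hC ⟨z, ⟨hz.1, hz.2⟩, rfl⟩

end int

theorem al_cont (a : Fin 4 → E3) (i : Fin 4) : Continuous fun x : E3 => ⟪al a i, x - cen a⟫ := by
  fun_prop

theorem bar_cont (a : Fin 4 → E3) (i : Fin 4) : Continuous (bar a i) := by
  unfold bar
  exact continuous_const.add (continuous_const.mul (al_cont a i))

theorem eX_cont (a : Fin 4 → E3) : Continuous (eX a) := by
  unfold eX
  exact ((bar_cont a 0).sub (bar_cont a 1)).div_const 2

theorem eY_cont (a : Fin 4 → E3) : Continuous (eY a) := by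
  unfold eY
  exact ((bar_cont a 2).sub (bar_cont a 3)).div_const 2

theorem eW_cont (a : Fin 4 → E3) : Continuous (eW a) := by
  unfold eW
  exact continuous_const.mul ((bar_cont a 2).add (bar_cont a 3))

theorem eV_cont (a : Fin 4 → E3) : Continuous (eV a) := by
  unfold eV
  exact continuous_const.mul ((bar_cont a 0).add (bar_cont a 1))

theorem Qv_cont (a : Fin 4 → E3) (i : Fin 4) : Continuous (Qv a i) := by
  unfold Qv
  fun_prop

theorem pp_cont : Continuous pp := by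
  unfold pp
  fun_prop

theorem hA_cont (a : Fin 4 → E3) : Continuous (hA a) := by
  unfold hA
  exact ((pp_cont.comp (Qv_cont a 2).neg).add (pp_cont.comp (Qv_cont a 3).neg)).div_const 2

theorem hB_cont (a : Fin 4 → E3) : Continuous (hB a) := by
  unfold hB
  exact ((pp_cont.comp (Qv_cont a 0).neg).add (pp_cont.comp (Qv_cont a 1).neg)).div_const 2

theorem hA_nonneg (a : Fin 4 → E3) (z : E3) : 0 ≤ hA a z := by
  unfold hA
  linarith [pp_nonneg (-Qv a 2 z), pp_nonneg (-Qv a 3 z)]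

theorem hB_nonneg (a : Fin 4 → E3) (z : E3) : 0 ≤ hB a z := by
  unfold hB
  linarith [pp_nonneg (-Qv a 0 z), pp_nonneg (-Qv a 1 z)]

/-! ### the integrated inequality -/

/-- pairs with first point in the (open) edge cell where `bar k, bar l < 0` -/
def Zp (a : Fin 4 → E3) (k l : Fin 4) : Set (E3 × E3) := {z | bar a k z.1 < 0 ∧ bar a l z.1 < 0}

theorem Zp_meas (a : Fin 4 → E3) (k l : Fin 4) : MeasurableSet (Zp a k l) :=
  (measurableSet_lt ((bar_cont a k).comp continuous_fst).measurable measurable_const).inter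
    (measurableSet_lt ((bar_cont a l).comp continuous_fst).measurable measurable_const)

section main

variable {a : Fin 4 → E3} (h : Gram4 (al a)) {K : Set E3} (hK : IsCompact K)
  (hpl : ∀ x ∈ K, Pl a x) (hd : ∀ x ∈ K, ∀ y ∈ K, ‖x - y‖ ≤ 1)
  {σ : Measure (E3 × E3)} [IsFiniteMeasure σ] (hσ : ∀ᵐ z ∂σ, z.1 ∈ K ∧ z.2 ∈ K)
include h hK hpl hd hσ

/-- **Fubini** for any two measurable sets of pairs: `S₁` (points near the edge `01`) and `S₂`
(points near the edge `23`). -/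
theorem fub_sets (S₁ S₂ : Set (E3 × E3)) :
    2 * ((∫ z in S₁, eV a z.2 ∂σ) * (∫ z in S₂, eW a z.2 ∂σ)) ≤
      σ.real S₁ * (∫ z in S₂, hA a z.2 ∂σ)
        + 2 * |∫ z in S₁, eY a z.2 ∂σ| * (∫ z in S₂, hA a z.2 ∂σ)
        + σ.real S₂ * (∫ z in S₁, hB a z.2 ∂σ)
        + 2 * |∫ z in S₂, eX a z.2 ∂σ| * (∫ z in S₁, hB a z.2 ∂σ) := by
  have c2 : ∀ {f : E3 → ℝ}, Continuous f → Integrable (fun z : E3 × E3 => f z.2) σ :=
    fun hf => int_cont hK hσ (hf.comp continuous_snd)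
  have i1 : ∀ {f : E3 → ℝ}, Continuous f →
      Integrable (fun z : E3 × E3 => f z.2) (σ.restrict S₁) := fun hf => (c2 hf).restrict
  have i2 : ∀ {f : E3 → ℝ}, Continuous f →
      Integrable (fun z : E3 × E3 => f z.2) (σ.restrict S₂) := fun hf => (c2 hf).restrict
  have cy : Continuous fun z => (pp (-Qv a 2 z) - pp (-Qv a 3 z)) / 2 :=
    ((pp_cont.comp (Qv_cont a 2).neg).sub (pp_cont.comp (Qv_cont a 3).neg)).div_const 2
  have cx : Continuous fun z => (pp (-Qv a 0 z) - pp (-Qv a 1 z)) / 2 :=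
    ((pp_cont.comp (Qv_cont a 0).neg).sub (pp_cont.comp (Qv_cont a 1).neg)).div_const 2
  have hσ1 := ae_restrict_of_ae (s := S₁) hσ
  have hσ2 := ae_restrict_of_ae (s := S₂) hσ
  have key := fub_mass (μ := σ.restrict S₂) (ν := σ.restrict S₁)
    (A := fun z => hA a z.2) (y := fun z => (pp (-Qv a 2 z.2) - pp (-Qv a 3 z.2)) / 2)
    (x := fun z => eX a z.2) (w := fun z => eW a z.2) (B := fun z => hB a z.2)
    (η := fun z => eY a z.2) (ξ := fun z => (pp (-Qv a 0 z.2) - pp (-Qv a 1 z.2)) / 2)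
    (v := fun z => eV a z.2) (i2 (hA_cont a)) (i2 cy) (i2 (eX_cont a)) (i2 (eW_cont a))
    (i1 (hB_cont a)) (i1 (eY_cont a)) (i1 cx) (i1 (eV_cont a)) (by
      filter_upwards [hσ2] with P hP
      filter_upwards [hσ1] with Q hQ
      exact R3 h (hpl _ hP.2) (hpl _ hQ.2) (hd _ hP.2 _ hQ.2))
    (Filter.Eventually.of_forall fun z => half_abs (pp_nonneg _) (pp_nonneg _))
    (Filter.Eventually.of_forall fun z => half_abs (pp_nonneg _) (pp_nonneg _))
  simp only [measureReal_restrict_apply_univ] at key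
  exact key

end main

end Pool.Agent.Helper95.MEI.Fub
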