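import Pool.Agent.Helper55.MEI.Sx4

/-!
# Half tents and the central tent on the flat simplex (polynomial integrals)
-/

namespace Pool.Agent.Helper95.MEI.Half

open Set MeasureTheory
open Pool.Agent.Helper55.Sx

theorem ha1 (x : ℝ) : ∫ y in (0 : ℝ)..(x), y * (1 + 2 * e2 (x, y) + 3 * e2 (x, y) ^ 2 + 4 * e2 (x, y) ^ 3 + 5 * e2 (x, y) ^ 4
      + 6 * e2 (x, y) ^ 5) = (1 / 2) * x ^ 2 + (5 / 3) * x ^ 3 + (25 / 12) * x ^ 4 + (-7 / 5) * x ^ 5 + (-41 / 4) * x ^ 6 + (-121 / 7) * x ^ 7 + (-498 / 5) * x ^ 8 + (80399 / 126) * x ^ 9 + (-277327 / 252) * x ^ 10 + (53651 / 66) * x ^ 11 + (-69667 / 308) * x ^ 12 := by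
  refine Eq.trans (intervalIntegral.integral_congr fun y _ => ?_)
    ((P12
      ((0 : ℝ))
      ((1) * x ^ 0 + (2) * x ^ 1 + (1) * x ^ 2 + (-2) * x ^ 3 + (-4) * x ^ 4 + (-2) * x ^ 5 + (-4) * x ^ 6 + (40) * x ^ 7 + (-55) * x ^ 8 + (30) * x ^ 9 + (-6) * x ^ 10)
      ((2) * x ^ 0 + (4) * x ^ 1 + (-10) * x ^ 3 + (-14) * x ^ 4 + (-42) * x ^ 5 + (220) * x ^ 6 + (-280) * x ^ 7 + (150) * x ^ 8 + (-30) * x ^ 9)
      ((1) * x ^ 0 + (-9) * x ^ 2 + (-20) * x ^ 3 + (-114) * x ^ 4 + (540) * x ^ 5 + (-730) * x ^ 6 + (420) * x ^ 7 + (-90) * x ^ 8)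
      ((-2) * x ^ 0 + (-10) * x ^ 1 + (-20) * x ^ 2 + (-148) * x ^ 3 + (820) * x ^ 4 + (-1240) * x ^ 5 + (780) * x ^ 6 + (-180) * x ^ 7)
      ((-4) * x ^ 0 + (-14) * x ^ 1 + (-114) * x ^ 2 + (820) * x ^ 3 + (-1465) * x ^ 4 + (1050) * x ^ 5 + (-270) * x ^ 6)
      ((-2) * x ^ 0 + (-42) * x ^ 1 + (540) * x ^ 2 + (-1240) * x ^ 3 + (1050) * x ^ 4 + (-306) * x ^ 5)
      ((-4) * x ^ 0 + (220) * x ^ 1 + (-730) * x ^ 2 + (780) * x ^ 3 + (-270) * x ^ 4)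
      ((40) * x ^ 0 + (-280) * x ^ 1 + (420) * x ^ 2 + (-180) * x ^ 3)
      ((-55) * x ^ 0 + (150) * x ^ 1 + (-90) * x ^ 2)
      ((30) * x ^ 0 + (-30) * x ^ 1)
      ((-6) * x ^ 0)
      (0 : ℝ) (x)).trans ?_)
  · simp only [e2, t3]
    ring
  · ring

theorem ha2 (x : ℝ) : ∫ y in (x)..(1 - x), x * (1 + 2 * e2 (x, y) + 3 * e2 (x, y) ^ 2 + 4 * e2 (x, y) ^ 3 + 5 * e2 (x, y) ^ 4
      + 6 * e2 (x, y) ^ 5) = (10201 / 6930) * x ^ 1 + (-43 / 210) * x ^ 2 + (-391 / 70) * x ^ 3 + (-99 / 14) * x ^ 4 + (24 / 7) * x ^ 5 + (108 / 5) * x ^ 6 + (133 / 5) * x ^ 7 + (4401 / 35) * x ^ 8 + (-5886 / 7) * x ^ 9 + (89363 / 63) * x ^ 10 + (-21466 / 21) * x ^ 11 + (21424 / 77) * x ^ 12 := by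
  refine Eq.trans (intervalIntegral.integral_congr fun y _ => ?_)
    ((P11
      ((1) * x ^ 1 + (2) * x ^ 2 + (1) * x ^ 3 + (-2) * x ^ 4 + (-4) * x ^ 5 + (-2) * x ^ 6 + (-4) * x ^ 7 + (40) * x ^ 8 + (-55) * x ^ 9 + (30) * x ^ 10 + (-6) * x ^ 11)
      ((2) * x ^ 1 + (4) * x ^ 2 + (-10) * x ^ 4 + (-14) * x ^ 5 + (-42) * x ^ 6 + (220) * x ^ 7 + (-280) * x ^ 8 + (150) * x ^ 9 + (-30) * x ^ 10)
      ((1) * x ^ 1 + (-9) * x ^ 3 + (-20) * x ^ 4 + (-114) * x ^ 5 + (540) * x ^ 6 + (-730) * x ^ 7 + (420) * x ^ 8 + (-90) * x ^ 9)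
      ((-2) * x ^ 1 + (-10) * x ^ 2 + (-20) * x ^ 3 + (-148) * x ^ 4 + (820) * x ^ 5 + (-1240) * x ^ 6 + (780) * x ^ 7 + (-180) * x ^ 8)
      ((-4) * x ^ 1 + (-14) * x ^ 2 + (-114) * x ^ 3 + (820) * x ^ 4 + (-1465) * x ^ 5 + (1050) * x ^ 6 + (-270) * x ^ 7)
      ((-2) * x ^ 1 + (-42) * x ^ 2 + (540) * x ^ 3 + (-1240) * x ^ 4 + (1050) * x ^ 5 + (-306) * x ^ 6)
      ((-4) * x ^ 1 + (220) * x ^ 2 + (-730) * x ^ 3 + (780) * x ^ 4 + (-270) * x ^ 5)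
      ((40) * x ^ 1 + (-280) * x ^ 2 + (420) * x ^ 3 + (-180) * x ^ 4)
      ((-55) * x ^ 1 + (150) * x ^ 2 + (-90) * x ^ 3)
      ((30) * x ^ 1 + (-30) * x ^ 2)
      ((-6) * x ^ 1)
      (x) (1 - x)).trans ?_)
  · simp only [e2, t3]
    ring
  · ring

theorem ha3 (x : ℝ) : ∫ y in (0 : ℝ)..(1 - x), y * (1 + 2 * e2 (x, y) + 3 * e2 (x, y) ^ 2 + 4 * e2 (x, y) ^ 3 + 5 * e2 (x, y) ^ 4
      + 6 * e2 (x, y) ^ 5) = (10201 / 13860) * x ^ 0 + (-67 / 198) * x ^ 1 + (-71 / 42) * x ^ 2 + (-121 / 210) * x ^ 3 + (7 / 3) * x ^ 4 + (94 / 35) * x ^ 5 + (-7 / 4) * x ^ 6 + (-26 / 7) * x ^ 7 + (-27 / 5) * x ^ 8 + (2551 / 126) * x ^ 9 + (-4871 / 252) * x ^ 10 + (535 / 66) * x ^ 11 + (-403 / 308) * x ^ 12 := by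
  refine Eq.trans (intervalIntegral.integral_congr fun y _ => ?_)
    ((P12
      ((0 : ℝ))
      ((1) * x ^ 0 + (2) * x ^ 1 + (1) * x ^ 2 + (-2) * x ^ 3 + (-4) * x ^ 4 + (-2) * x ^ 5 + (-4) * x ^ 6 + (40) * x ^ 7 + (-55) * x ^ 8 + (30) * x ^ 9 + (-6) * x ^ 10)
      ((2) * x ^ 0 + (4) * x ^ 1 + (-10) * x ^ 3 + (-14) * x ^ 4 + (-42) * x ^ 5 + (220) * x ^ 6 + (-280) * x ^ 7 + (150) * x ^ 8 + (-30) * x ^ 9)
      ((1) * x ^ 0 + (-9) * x ^ 2 + (-20) * x ^ 3 + (-114) * x ^ 4 + (540) * x ^ 5 + (-730) * x ^ 6 + (420) * x ^ 7 + (-90) * x ^ 8)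
      ((-2) * x ^ 0 + (-10) * x ^ 1 + (-20) * x ^ 2 + (-148) * x ^ 3 + (820) * x ^ 4 + (-1240) * x ^ 5 + (780) * x ^ 6 + (-180) * x ^ 7)
      ((-4) * x ^ 0 + (-14) * x ^ 1 + (-114) * x ^ 2 + (820) * x ^ 3 + (-1465) * x ^ 4 + (1050) * x ^ 5 + (-270) * x ^ 6)
      ((-2) * x ^ 0 + (-42) * x ^ 1 + (540) * x ^ 2 + (-1240) * x ^ 3 + (1050) * x ^ 4 + (-306) * x ^ 5)
      ((-4) * x ^ 0 + (220) * x ^ 1 + (-730) * x ^ 2 + (780) * x ^ 3 + (-270) * x ^ 4)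
      ((40) * x ^ 0 + (-280) * x ^ 1 + (420) * x ^ 2 + (-180) * x ^ 3)
      ((-55) * x ^ 0 + (150) * x ^ 1 + (-90) * x ^ 2)
      ((30) * x ^ 0 + (-30) * x ^ 1)
      ((-6) * x ^ 0)
      (0 : ℝ) (1 - x)).trans ?_)
  · simp only [e2, t3]
    ring
  · ring

theorem ho1 : ∫ x in (0 : ℝ)..(1 / 2), ((10201 / 6930) * x ^ 1 + (31 / 105) * x ^ 2 + (-823 / 210) * x ^ 3 + (-419 / 84) * x ^ 4 + (71 / 35) * x ^ 5 + (227 / 20) * x ^ 6 + (326 / 35) * x ^ 7 + (183 / 7) * x ^ 8 + (-25549 / 126) * x ^ 9 + (80125 / 252) * x ^ 10 + (-96695 / 462) * x ^ 11 + (16029 / 308) * x ^ 12) = (1392079 / 11354112 : ℝ) := by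
  refine Eq.trans (intervalIntegral.integral_congr fun x _ => ?_)
    ((P13
      (0)
      (10201 / 6930)
      (31 / 105)
      (-823 / 210)
      (-419 / 84)
      (71 / 35)
      (227 / 20)
      (326 / 35)
      (183 / 7)
      (-25549 / 126)
      (80125 / 252)
      (-96695 / 462)
      (16029 / 308)
      (0 : ℝ) (1 / 2)).trans ?_)
  · ring
  · norm_num

theorem ho2 : ∫ x in (1 / 2 : ℝ)..(1), ((10201 / 13860) * x ^ 0 + (-67 / 198) * x ^ 1 + (-71 / 42) * x ^ 2 + (-121 / 210) * x ^ 3 + (7 / 3) * x ^ 4 + (94 / 35) * x ^ 5 + (-7 / 4) * x ^ 6 + (-26 / 7) * x ^ 7 + (-27 / 5) * x ^ 8 + (2551 / 126) * x ^ 9 + (-4871 / 252) * x ^ 10 + (535 / 66) * x ^ 11 + (-403 / 308) * x ^ 12) = (2119849 / 56770560 : ℝ) := by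
  refine Eq.trans (intervalIntegral.integral_congr fun x _ => ?_)
    ((P13
      (10201 / 13860)
      (-67 / 198)
      (-71 / 42)
      (-121 / 210)
      (7 / 3)
      (94 / 35)
      (-7 / 4)
      (-26 / 7)
      (-27 / 5)
      (2551 / 126)
      (-4871 / 252)
      (535 / 66)
      (-403 / 308)
      (1 / 2 : ℝ) (1)).trans ?_)
  · ring
  · norm_num

end Pool.Agent.Helper95.MEI.Half
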