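import Pool.Agent.Helper95.MEI.Half1

/-!
# The central tent on the flat simplex (polynomial integrals)
-/

namespace Pool.Agent.Helper95.MEI.Half

open Set MeasureTheory
open Pool.Agent.Helper55.Sx

theorem ma2 (x : ℝ) : ∫ y in (x)..(1 - 2 * x), x * (1 + 2 * e2 (x, y) + 3 * e2 (x, y) ^ 2 + 4 * e2 (x, y) ^ 3 + 5 * e2 (x, y) ^ 4
      + 6 * e2 (x, y) ^ 5) = (10201 / 6930) * x ^ 1 + (-253 / 210) * x ^ 2 + (-601 / 70) * x ^ 3 + (-437 / 42) * x ^ 4 + (83 / 14) * x ^ 5 + (369 / 10) * x ^ 6 + (252 / 5) * x ^ 7 + (8964 / 35) * x ^ 8 + (-11664 / 7) * x ^ 9 + (19683 / 7) * x ^ 10 + (-28431 / 14) * x ^ 11 + (85293 / 154) * x ^ 12 := by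
  refine Eq.trans (intervalIntegral.integral_congr fun y _ => ?_)
    ((P11
      ((1) * x ^ 1 + (2) * x ^ 2 + (1) * x ^ 3 + (-2) * x ^ 4 + (-4) * x ^ 5 + (-2) * x ^ 6 + (-4) * x ^ 7 + (40) * x ^ 8 + (-55) * x ^ 9 + (30) * x ^ 10 + (-6) * x ^ 11)
      ((2) * x ^ 1 + (4) * x ^ 2 + (-10) * x ^ 4 + (-14) * x ^ 5 + (-42) * x ^ 6 + (220) * x ^ 7 + (-280) * x ^ 8 + (150) * x ^ 9 + (-30) * x ^ 10)
      ((1) * x ^ 1 + (-9) * x ^ 3 + (-20) * x ^ 4 + (-114) * x ^ 5 + (540) * x ^ 6 + (-730) * x ^ 7 + (420) * x ^ 8 + (-90) * x ^ 9)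
      ((-2) * x ^ 1 + (-10) * x ^ 2 + (-20) * x ^ 3 + (-148) * x ^ 4 + (820) * x ^ 5 + (-1240) * x ^ 6 + (780) * x ^ 7 + (-180) * x ^ 8)
      ((-4) * x ^ 1 + (-14) * x ^ 2 + (-114) * x ^ 3 + (820) * x ^ 4 + (-1465) * x ^ 5 + (1050) * x ^ 6 + (-270) * x ^ 7)
      ((-2) * x ^ 1 + (-42) * x ^ 2 + (540) * x ^ 3 + (-1240) * x ^ 4 + (1050) * x ^ 5 + (-306) * x ^ 6)
      ((-4) * x ^ 1 + (220) * x ^ 2 + (-730) * x ^ 3 + (780) * x ^ 4 + (-270) * x ^ 5)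
      ((40) * x ^ 1 + (-280) * x ^ 2 + (420) * x ^ 3 + (-180) * x ^ 4)
      ((-55) * x ^ 1 + (150) * x ^ 2 + (-90) * x ^ 3)
      ((30) * x ^ 1 + (-30) * x ^ 2)
      ((-6) * x ^ 1)
      (x) (1 - 2 * x)).trans ?_)
  · simp only [e2, t3]
    ring
  · ring

theorem ma3 (x : ℝ) : ∫ y in (1 - 2 * x)..(1 - x), (1 - x - y) * (1 + 2 * e2 (x, y) + 3 * e2 (x, y) ^ 2 + 4 * e2 (x, y) ^ 3 + 5 * e2 (x, y) ^ 4
      + 6 * e2 (x, y) ^ 5) = (1 / 2) * x ^ 2 + (5 / 3) * x ^ 3 + (25 / 12) * x ^ 4 + (-7 / 5) * x ^ 5 + (-41 / 4) * x ^ 6 + (-121 / 7) * x ^ 7 + (-498 / 5) * x ^ 8 + (80399 / 126) * x ^ 9 + (-277327 / 252) * x ^ 10 + (53651 / 66) * x ^ 11 + (-69667 / 308) * x ^ 12 := by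
  refine Eq.trans (intervalIntegral.integral_congr fun y _ => ?_)
    ((P12
      ((1) * x ^ 0 + (1) * x ^ 1 + (-1) * x ^ 2 + (-3) * x ^ 3 + (-2) * x ^ 4 + (2) * x ^ 5 + (-2) * x ^ 6 + (44) * x ^ 7 + (-95) * x ^ 8 + (85) * x ^ 9 + (-36) * x ^ 10 + (6) * x ^ 11)
      ((1) * x ^ 0 + (-5) * x ^ 2 + (-8) * x ^ 3 + (-26) * x ^ 5 + (266) * x ^ 6 + (-540) * x ^ 7 + (485) * x ^ 8 + (-210) * x ^ 9 + (36) * x ^ 10)
      ((-1) * x ^ 0 + (-5) * x ^ 1 + (-9) * x ^ 2 + (-1) * x ^ 3 + (-80) * x ^ 4 + (696) * x ^ 5 + (-1490) * x ^ 6 + (1430) * x ^ 7 + (-660) * x ^ 8 + (120) * x ^ 9)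
      ((-3) * x ^ 0 + (-8) * x ^ 1 + (-1) * x ^ 2 + (-108) * x ^ 3 + (1082) * x ^ 4 + (-2600) * x ^ 5 + (2750) * x ^ 6 + (-1380) * x ^ 7 + (270) * x ^ 8)
      ((-2) * x ^ 0 + (-80) * x ^ 2 + (1082) * x ^ 3 + (-3105) * x ^ 4 + (3755) * x ^ 5 + (-2100) * x ^ 6 + (450) * x ^ 7)
      ((2) * x ^ 0 + (-26) * x ^ 1 + (696) * x ^ 2 + (-2600) * x ^ 3 + (3755) * x ^ 4 + (-2406) * x ^ 5 + (576) * x ^ 6)
      ((-2) * x ^ 0 + (266) * x ^ 1 + (-1490) * x ^ 2 + (2750) * x ^ 3 + (-2100) * x ^ 4 + (576) * x ^ 5)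
      ((44) * x ^ 0 + (-540) * x ^ 1 + (1430) * x ^ 2 + (-1380) * x ^ 3 + (450) * x ^ 4)
      ((-95) * x ^ 0 + (485) * x ^ 1 + (-660) * x ^ 2 + (270) * x ^ 3)
      ((85) * x ^ 0 + (-210) * x ^ 1 + (120) * x ^ 2)
      ((-36) * x ^ 0 + (36) * x ^ 1)
      ((6) * x ^ 0)
      (1 - 2 * x) (1 - x)).trans ?_)
  · simp only [e2, t3]
    ring
  · ring

theorem mb1 (x : ℝ) : ∫ y in (0 : ℝ)..((1 - x) / 2), y * (1 + 2 * e2 (x, y) + 3 * e2 (x, y) ^ 2 + 4 * e2 (x, y) ^ 3 + 5 * e2 (x, y) ^ 4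
      + 6 * e2 (x, y) ^ 5) = (5716099 / 28385280) * x ^ 0 + (-22919 / 202752) * x ^ 1 + (-40595 / 86016) * x ^ 2 + (-20267 / 215040) * x ^ 3 + (18067 / 24576) * x ^ 4 + (23733 / 35840) * x ^ 5 + (-1669 / 2048) * x ^ 6 + (-9469 / 7168) * x ^ 7 + (34833 / 40960) * x ^ 8 + (278897 / 129024) * x ^ 9 + (-764161 / 258048) * x ^ 10 + (95225 / 67584) * x ^ 11 + (-153413 / 630784) * x ^ 12 := by
  refine Eq.trans (intervalIntegral.integral_congr fun y _ => ?_)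
    ((P12
      ((0 : ℝ))
      ((1) * x ^ 0 + (2) * x ^ 1 + (1) * x ^ 2 + (-2) * x ^ 3 + (-4) * x ^ 4 + (-2) * x ^ 5 + (-4) * x ^ 6 + (40) * x ^ 7 + (-55) * x ^ 8 + (30) * x ^ 9 + (-6) * x ^ 10)
      ((2) * x ^ 0 + (4) * x ^ 1 + (-10) * x ^ 3 + (-14) * x ^ 4 + (-42) * x ^ 5 + (220) * x ^ 6 + (-280) * x ^ 7 + (150) * x ^ 8 + (-30) * x ^ 9)
      ((1) * x ^ 0 + (-9) * x ^ 2 + (-20) * x ^ 3 + (-114) * x ^ 4 + (540) * x ^ 5 + (-730) * x ^ 6 + (420) * x ^ 7 + (-90) * x ^ 8)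
      ((-2) * x ^ 0 + (-10) * x ^ 1 + (-20) * x ^ 2 + (-148) * x ^ 3 + (820) * x ^ 4 + (-1240) * x ^ 5 + (780) * x ^ 6 + (-180) * x ^ 7)
      ((-4) * x ^ 0 + (-14) * x ^ 1 + (-114) * x ^ 2 + (820) * x ^ 3 + (-1465) * x ^ 4 + (1050) * x ^ 5 + (-270) * x ^ 6)
      ((-2) * x ^ 0 + (-42) * x ^ 1 + (540) * x ^ 2 + (-1240) * x ^ 3 + (1050) * x ^ 4 + (-306) * x ^ 5)
      ((-4) * x ^ 0 + (220) * x ^ 1 + (-730) * x ^ 2 + (780) * x ^ 3 + (-270) * x ^ 4)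
      ((40) * x ^ 0 + (-280) * x ^ 1 + (420) * x ^ 2 + (-180) * x ^ 3)
      ((-55) * x ^ 0 + (150) * x ^ 1 + (-90) * x ^ 2)
      ((30) * x ^ 0 + (-30) * x ^ 1)
      ((-6) * x ^ 0)
      (0 : ℝ) ((1 - x) / 2)).trans ?_)
  · simp only [e2, t3]
    ring
  · ring

theorem mb2 (x : ℝ) : ∫ y in ((1 - x) / 2)..(1 - x), (1 - x - y) * (1 + 2 * e2 (x, y) + 3 * e2 (x, y) ^ 2 + 4 * e2 (x, y) ^ 3 + 5 * e2 (x, y) ^ 4
      + 6 * e2 (x, y) ^ 5) = (5716099 / 28385280) * x ^ 0 + (-22919 / 202752) * x ^ 1 + (-40595 / 86016) * x ^ 2 + (-20267 / 215040) * x ^ 3 + (18067 / 24576) * x ^ 4 + (23733 / 35840) * x ^ 5 + (-1669 / 2048) * x ^ 6 + (-9469 / 7168) * x ^ 7 + (34833 / 40960) * x ^ 8 + (278897 / 129024) * x ^ 9 + (-764161 / 258048) * x ^ 10 + (95225 / 67584) * x ^ 11 + (-153413 / 630784) * x ^ 12 := by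
  refine Eq.trans (intervalIntegral.integral_congr fun y _ => ?_)
    ((P12
      ((1) * x ^ 0 + (1) * x ^ 1 + (-1) * x ^ 2 + (-3) * x ^ 3 + (-2) * x ^ 4 + (2) * x ^ 5 + (-2) * x ^ 6 + (44) * x ^ 7 + (-95) * x ^ 8 + (85) * x ^ 9 + (-36) * x ^ 10 + (6) * x ^ 11)
      ((1) * x ^ 0 + (-5) * x ^ 2 + (-8) * x ^ 3 + (-26) * x ^ 5 + (266) * x ^ 6 + (-540) * x ^ 7 + (485) * x ^ 8 + (-210) * x ^ 9 + (36) * x ^ 10)
      ((-1) * x ^ 0 + (-5) * x ^ 1 + (-9) * x ^ 2 + (-1) * x ^ 3 + (-80) * x ^ 4 + (696) * x ^ 5 + (-1490) * x ^ 6 + (1430) * x ^ 7 + (-660) * x ^ 8 + (120) * x ^ 9)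
      ((-3) * x ^ 0 + (-8) * x ^ 1 + (-1) * x ^ 2 + (-108) * x ^ 3 + (1082) * x ^ 4 + (-2600) * x ^ 5 + (2750) * x ^ 6 + (-1380) * x ^ 7 + (270) * x ^ 8)
      ((-2) * x ^ 0 + (-80) * x ^ 2 + (1082) * x ^ 3 + (-3105) * x ^ 4 + (3755) * x ^ 5 + (-2100) * x ^ 6 + (450) * x ^ 7)
      ((2) * x ^ 0 + (-26) * x ^ 1 + (696) * x ^ 2 + (-2600) * x ^ 3 + (3755) * x ^ 4 + (-2406) * x ^ 5 + (576) * x ^ 6)
      ((-2) * x ^ 0 + (266) * x ^ 1 + (-1490) * x ^ 2 + (2750) * x ^ 3 + (-2100) * x ^ 4 + (576) * x ^ 5)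
      ((44) * x ^ 0 + (-540) * x ^ 1 + (1430) * x ^ 2 + (-1380) * x ^ 3 + (450) * x ^ 4)
      ((-95) * x ^ 0 + (485) * x ^ 1 + (-660) * x ^ 2 + (270) * x ^ 3)
      ((85) * x ^ 0 + (-210) * x ^ 1 + (120) * x ^ 2)
      ((-36) * x ^ 0 + (36) * x ^ 1)
      ((6) * x ^ 0)
      ((1 - x) / 2) (1 - x)).trans ?_)
  · simp only [e2, t3]
    ring
  · ring

theorem mo1 : ∫ x in (0 : ℝ)..(1 / 3), ((10201 / 6930) * x ^ 1 + (-43 / 210) * x ^ 2 + (-1103 / 210) * x ^ 3 + (-131 / 21) * x ^ 4 + (219 / 70) * x ^ 5 + (82 / 5) * x ^ 6 + (554 / 35) * x ^ 7 + (1992 / 35) * x ^ 8 + (-3511 / 9) * x ^ 9 + (76967 / 126) * x ^ 10 + (-187109 / 462) * x ^ 11 + (7813 / 77) * x ^ 12) = (441272197 / 7365772260 : ℝ) := by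
  refine Eq.trans (intervalIntegral.integral_congr fun x _ => ?_)
    ((P13
      (0)
      (10201 / 6930)
      (-43 / 210)
      (-1103 / 210)
      (-131 / 21)
      (219 / 70)
      (82 / 5)
      (554 / 35)
      (1992 / 35)
      (-3511 / 9)
      (76967 / 126)
      (-187109 / 462)
      (7813 / 77)
      (0 : ℝ) (1 / 3)).trans ?_)
  · ring
  · norm_num

theorem mo2 : ∫ x in (1 / 3 : ℝ)..(1), ((5716099 / 14192640) * x ^ 0 + (-22919 / 101376) * x ^ 1 + (-40595 / 43008) * x ^ 2 + (-20267 / 107520) * x ^ 3 + (18067 / 12288) * x ^ 4 + (23733 / 17920) * x ^ 5 + (-1669 / 1024) * x ^ 6 + (-9469 / 3584) * x ^ 7 + (34833 / 20480) * x ^ 8 + (278897 / 64512) * x ^ 9 + (-764161 / 129024) * x ^ 10 + (95225 / 33792) * x ^ 11 + (-153413 / 315392) * x ^ 12) = (90452378 / 1841443065 : ℝ) := by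
  refine Eq.trans (intervalIntegral.integral_congr fun x _ => ?_)
    ((P13
      (5716099 / 14192640)
      (-22919 / 101376)
      (-40595 / 43008)
      (-20267 / 107520)
      (18067 / 12288)
      (23733 / 17920)
      (-1669 / 1024)
      (-9469 / 3584)
      (34833 / 20480)
      (278897 / 64512)
      (-764161 / 129024)
      (95225 / 33792)
      (-153413 / 315392)
      (1 / 3 : ℝ) (1)).trans ?_)
  · ring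
  · norm_num

end Pool.Agent.Helper95.MEI.Half
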