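import Pool.Agent.Helper95.MEI.Half2
import Pool.Agent.Helper29.MEI.Tent

/-!
# Half tents, central tent, two coordinate tents: integrals in the measure of directions
-/

namespace Pool.Agent.Helper95.MEI.Half

open Set MeasureTheory intervalIntegral
open Pool.Agent.Helper55.Sx

/-- the polynomial weight -/
def Wp (t : ℝ × ℝ) : ℝ := 1 + 2 * e2 t + 3 * e2 t ^ 2 + 4 * e2 t ^ 3 + 5 * e2 t ^ 4 + 6 * e2 t ^ 5

theorem Wp_cont : Continuous Wp := W_cont

theorem sec_cont (x : ℝ) {f : ℝ × ℝ → ℝ} (hf : Continuous f) : Continuous fun y : ℝ => f (x, y) :=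
  hf.comp (by fun_prop)

theorem ii {f : ℝ × ℝ → ℝ} (hf : Continuous f) (x a b : ℝ) :
    IntervalIntegrable (fun y => f (x, y)) volume a b := (sec_cont x hf).intervalIntegrable a b

/-- the integrand of the half tent -/
theorem hc : Continuous fun t : ℝ × ℝ => min t.1 t.2 * Wp t := by
  have := Wp_cont
  fun_prop

theorem inner1 {x : ℝ} (h0 : 0 ≤ x) (h1 : x ≤ 1 / 2) :
    ∫ y in (0 : ℝ)..(1 - x), min x y * Wp (x, y) = ((1 / 2) * x ^ 2 + (5 / 3) * x ^ 3 + (25 / 12) * x ^ 4 + (-7 / 5) * x ^ 5 + (-41 / 4) * x ^ 6 + (-121 / 7) * x ^ 7 + (-498 / 5) * x ^ 8 + (80399 / 126) * x ^ 9 + (-277327 / 252) * x ^ 10 + (53651 / 66) * x ^ 11 + (-69667 / 308) * x ^ 12) + ((10201 / 6930) * x ^ 1 + (-43 / 210) * x ^ 2 + (-391 / 70) * x ^ 3 + (-99 / 14) * x ^ 4 + (24 / 7) * x ^ 5 + (108 / 5) * x ^ 6 + (133 / 5) * x ^ 7 + (4401 / 35) * x ^ 8 + (-5886 / 7) * x ^ 9 + (89363 / 63) * x ^ 10 + (-21466 / 21) * x ^ 11 + (21424 / 77) * x ^ 12) := by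
  rw [← integral_add_adjacent_intervals (ii hc x 0 x) (ii hc x x (1 - x))]
  congr 1
  · rw [← ha1]
    refine integral_congr fun y hy => ?_
    rw [uIcc_of_le h0] at hy
    simp only [Wp]
    rw [min_eq_right hy.2]
  · rw [← ha2]
    refine integral_congr fun y hy => ?_
    rw [uIcc_of_le (by linarith)] at hy
    simp only [Wp]
    rw [min_eq_left hy.1]

theorem inner2 {x : ℝ} (h0 : 1 / 2 ≤ x) (h1 : x ≤ 1) :
    ∫ y in (0 : ℝ)..(1 - x), min x y * Wp (x, y) = (10201 / 13860) * x ^ 0 + (-67 / 198) * x ^ 1 + (-71 / 42) * x ^ 2 + (-121 / 210) * x ^ 3 + (7 / 3) * x ^ 4 + (94 / 35) * x ^ 5 + (-7 / 4) * x ^ 6 + (-26 / 7) * x ^ 7 + (-27 / 5) * x ^ 8 + (2551 / 126) * x ^ 9 + (-4871 / 252) * x ^ 10 + (535 / 66) * x ^ 11 + (-403 / 308) * x ^ 12 := by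
  rw [← ha3]
  refine integral_congr fun y hy => ?_
  rw [uIcc_of_le (by linarith)] at hy
  simp only [Wp]
  rw [min_eq_right (by linarith [hy.2])]

theorem half_W : ∫ t in Sim, min t.1 t.2 * Wp t = 252229 / 1576960 := by
  rw [int_Sim hc]
  have c1 : ∫ x in (0 : ℝ)..(1 / 2), (∫ y in (0 : ℝ)..(1 - x), min x y * Wp (x, y)) = 1392079 / 11354112 := by
    rw [← ho1]
    refine integral_congr fun x hx => ?_
    rw [uIcc_of_le (by norm_num)] at hx
    rw [inner1 hx.1 hx.2]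
    ring
  have c2 : ∫ x in (1 / 2 : ℝ)..(1), (∫ y in (0 : ℝ)..(1 - x), min x y * Wp (x, y)) = 2119849 / 56770560 := by
    rw [← ho2]
    refine integral_congr fun x hx => ?_
    rw [uIcc_of_le (by norm_num)] at hx
    rw [inner2 hx.1 hx.2]
  have i1 : IntervalIntegrable (fun x => ∫ y in (0 : ℝ)..(1 - x), min x y * Wp (x, y)) volume 0 (1 / 2) := by
    refine IntervalIntegrable.congr (f := fun x : ℝ => (10201 / 6930) * x ^ 1 + (31 / 105) * x ^ 2 + (-823 / 210) * x ^ 3 + (-419 / 84) * x ^ 4 + (71 / 35) * x ^ 5 + (227 / 20) * x ^ 6 + (326 / 35) * x ^ 7 + (183 / 7) * x ^ 8 + (-25549 / 126) * x ^ 9 + (80125 / 252) * x ^ 10 + (-96695 / 462) * x ^ 11 + (16029 / 308) * x ^ 12) ?_ (Continuous.intervalIntegrable (by fun_prop) _ _)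
    intro x hx
    rw [uIoc_of_le (by norm_num)] at hx
    simp only
    rw [inner1 hx.1.le hx.2]
    ring
  have i2 : IntervalIntegrable (fun x => ∫ y in (0 : ℝ)..(1 - x), min x y * Wp (x, y)) volume (1 / 2) 1 := by
    refine IntervalIntegrable.congr (f := fun x : ℝ => (10201 / 13860) * x ^ 0 + (-67 / 198) * x ^ 1 + (-71 / 42) * x ^ 2 + (-121 / 210) * x ^ 3 + (7 / 3) * x ^ 4 + (94 / 35) * x ^ 5 + (-7 / 4) * x ^ 6 + (-26 / 7) * x ^ 7 + (-27 / 5) * x ^ 8 + (2551 / 126) * x ^ 9 + (-4871 / 252) * x ^ 10 + (535 / 66) * x ^ 11 + (-403 / 308) * x ^ 12) ?_ (Continuous.intervalIntegrable (by fun_prop) _ _)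
    intro x hx
    rw [uIoc_of_le (by norm_num)] at hx
    simp only
    rw [inner2 hx.1.le hx.2]
  rw [← integral_add_adjacent_intervals i1 i2, c1, c2]
  norm_num

/-- the integrand of the central tent -/
theorem mc : Continuous fun t : ℝ × ℝ => min t.1 (min t.2 (1 - t.1 - t.2)) * Wp t := by
  have := Wp_cont
  fun_prop

theorem inner3 {x : ℝ} (h0 : 0 ≤ x) (h1 : x ≤ 1 / 3) :
    ∫ y in (0 : ℝ)..(1 - x), min x (min y (1 - x - y)) * Wp (x, y) = ((1 / 2) * x ^ 2 + (5 / 3) * x ^ 3 + (25 / 12) * x ^ 4 + (-7 / 5) * x ^ 5 + (-41 / 4) * x ^ 6 + (-121 / 7) * x ^ 7 + (-498 / 5) * x ^ 8 + (80399 / 126) * x ^ 9 + (-277327 / 252) * x ^ 10 + (53651 / 66) * x ^ 11 + (-69667 / 308) * x ^ 12) + (((10201 / 6930) * x ^ 1 + (-253 / 210) * x ^ 2 + (-601 / 70) * x ^ 3 + (-437 / 42) * x ^ 4 + (83 / 14) * x ^ 5 + (369 / 10) * x ^ 6 + (252 / 5) * x ^ 7 + (8964 / 35) * x ^ 8 + (-11664 / 7) * x ^ 9 + (19683 / 7) * x ^ 10 + (-28431 / 14) * x ^ 11 + (85293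 / 154) * x ^ 12) + ((1 / 2) * x ^ 2 + (5 / 3) * x ^ 3 + (25 / 12) * x ^ 4 + (-7 / 5) * x ^ 5 + (-41 / 4) * x ^ 6 + (-121 / 7) * x ^ 7 + (-498 / 5) * x ^ 8 + (80399 / 126) * x ^ 9 + (-277327 / 252) * x ^ 10 + (53651 / 66) * x ^ 11 + (-69667 / 308) * x ^ 12)) := by
  rw [← integral_add_adjacent_intervals (ii mc x 0 x) (ii mc x x (1 - x)),
    ← integral_add_adjacent_intervals (ii mc x x (1 - 2 * x)) (ii mc x (1 - 2 * x) (1 - x))]
  congr 1
  · rw [← ha1]
    refine integral_congr fun y hy => ?_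
    rw [uIcc_of_le h0] at hy
    simp only [Wp]
    rw [min_eq_left (a := y) (by linarith [hy.2]), min_eq_right hy.2]
  congr 1
  · rw [← ma2]
    refine integral_congr fun y hy => ?_
    rw [uIcc_of_le (by linarith)] at hy
    simp only [Wp]
    rw [min_eq_left (le_min hy.1 (by linarith [hy.2]))]
  · rw [← ma3]
    refine integral_congr fun y hy => ?_
    rw [uIcc_of_le (by linarith)] at hy
    simp only [Wp]
    rw [min_eq_right (a := y) (by linarith [hy.1]), min_eq_right (by linarith [hy.1])]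

theorem inner4 {x : ℝ} (h0 : 1 / 3 ≤ x) (h1 : x ≤ 1) :
    ∫ y in (0 : ℝ)..(1 - x), min x (min y (1 - x - y)) * Wp (x, y) = ((5716099 / 28385280) * x ^ 0 + (-22919 / 202752) * x ^ 1 + (-40595 / 86016) * x ^ 2 + (-20267 / 215040) * x ^ 3 + (18067 / 24576) * x ^ 4 + (23733 / 35840) * x ^ 5 + (-1669 / 2048) * x ^ 6 + (-9469 / 7168) * x ^ 7 + (34833 / 40960) * x ^ 8 + (278897 / 129024) * x ^ 9 + (-764161 / 258048) * x ^ 10 + (95225 / 67584) * x ^ 11 + (-153413 / 630784) * x ^ 12) + ((5716099 / 28385280) * x ^ 0 + (-22919 / 202752) * x ^ 1 + (-40595 / 86016) * x ^ 2 + (-20267 / 215040) * x ^ 3 + (18067 / 24576) * x ^ 4 + (23733 / 35840) * x ^ 5 + (-1669 / 2048) * x ^ 6 + (-9469 / 7168) * x ^ 7 + (34833 / 40960) * x ^ 8 + (278897 / 129024) * x ^ 9 + (-764161 / 258048) * x ^ 10 + (95225 / 67584) * x ^ 11 + (-153413 / 630784) * x ^ 12) := by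
  rw [← integral_add_adjacent_intervals (ii mc x 0 ((1 - x) / 2)) (ii mc x ((1 - x) / 2) (1 - x))]
  congr 1
  · rw [← mb1]
    refine integral_congr fun y hy => ?_
    rw [uIcc_of_le (by linarith)] at hy
    simp only [Wp]
    rw [min_eq_left (a := y) (by linarith [hy.2]), min_eq_right (by linarith [hy.2])]
  · rw [← mb2]
    refine integral_congr fun y hy => ?_
    rw [uIcc_of_le (by linarith)] at hy
    simp only [Wp]
    rw [min_eq_right (a := y) (by linarith [hy.1]), min_eq_right (by linarith [hy.1])]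

theorem min3_W : ∫ t in Sim, min t.1 (min t.2 (1 - t.1 - t.2)) * Wp t = 367207 / 3367980 := by
  rw [int_Sim mc]
  have c1 : ∫ x in (0 : ℝ)..(1 / 3), (∫ y in (0 : ℝ)..(1 - x), min x (min y (1 - x - y)) * Wp (x, y)) = 441272197 / 7365772260 := by
    rw [← mo1]
    refine integral_congr fun x hx => ?_
    rw [uIcc_of_le (by norm_num)] at hx
    rw [inner3 hx.1 hx.2]
    ring
  have c2 : ∫ x in (1 / 3 : ℝ)..(1), (∫ y in (0 : ℝ)..(1 - x), min x (min y (1 - x - y)) * Wp (x, y)) = 90452378 / 1841443065 := by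
    rw [← mo2]
    refine integral_congr fun x hx => ?_
    rw [uIcc_of_le (by norm_num)] at hx
    rw [inner4 hx.1 hx.2]
    ring
  have i1 : IntervalIntegrable (fun x => ∫ y in (0 : ℝ)..(1 - x), min x (min y (1 - x - y)) * Wp (x, y)) volume 0 (1 / 3) := by
    refine IntervalIntegrable.congr (f := fun x : ℝ => (10201 / 6930) * x ^ 1 + (-43 / 210) * x ^ 2 + (-1103 / 210) * x ^ 3 + (-131 / 21) * x ^ 4 + (219 / 70) * x ^ 5 + (82 / 5) * x ^ 6 + (554 / 35) * x ^ 7 + (1992 / 35) * x ^ 8 + (-3511 / 9) * x ^ 9 + (76967 / 126) * x ^ 10 + (-187109 / 462) * x ^ 11 + (7813 / 77) * x ^ 12) ?_ (Continuous.intervalIntegrable (by fun_prop) _ _)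
    intro x hx
    rw [uIoc_of_le (by norm_num)] at hx
    simp only
    rw [inner3 hx.1.le hx.2]
    ring
  have i2 : IntervalIntegrable (fun x => ∫ y in (0 : ℝ)..(1 - x), min x (min y (1 - x - y)) * Wp (x, y)) volume (1 / 3) 1 := by
    refine IntervalIntegrable.congr (f := fun x : ℝ => (5716099 / 14192640) * x ^ 0 + (-22919 / 101376) * x ^ 1 + (-40595 / 43008) * x ^ 2 + (-20267 / 107520) * x ^ 3 + (18067 / 12288) * x ^ 4 + (23733 / 17920) * x ^ 5 + (-1669 / 1024) * x ^ 6 + (-9469 / 3584) * x ^ 7 + (34833 / 20480) * x ^ 8 + (278897 / 64512) * x ^ 9 + (-764161 / 129024) * x ^ 10 + (95225 / 33792) * x ^ 11 + (-153413 / 315392) * x ^ 12) ?_ (Continuous.intervalIntegrable (by fun_prop) _ _)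
    intro x hx
    rw [uIoc_of_le (by norm_num)] at hx
    simp only
    rw [inner4 hx.1.le hx.2]
    ring
  rw [← integral_add_adjacent_intervals i1 i2, c1, c2]
  norm_num

theorem sq2 : √2 ≤ (1.41422 : ℝ) := by
  rw [show (1.41422 : ℝ) = √(1.41422 ^ 2) from (Real.sqrt_sq (by norm_num)).symm]
  exact Real.sqrt_le_sqrt (by norm_num)

theorem sc {c d : ℝ} (h : c * 1.41422 ≤ d) (hc : 0 ≤ c) : c ≤ 1 / √2 * d := by
  have h2 : 0 < √2 := by positivity
  rw [one_div, ← div_eq_inv_mul, le_div_iff₀ h2]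
  exact (mul_le_mul_of_nonneg_left sq2 hc).trans h

theorem half12 : (252229 / 1576960 : ℝ) ≤ ∫ t in Sim, min t.1 t.2 / mm t ^ 2 := by
  have h := low (f := fun t => min t.1 t.2) (by fun_prop) (fun t ht => le_min ht.1 ht.2.1)
  rw [← half_W]
  exact h

theorem half23 : (252229 / 1576960 : ℝ) ≤ ∫ t in Sim, min t.2 (t3 t) / mm t ^ 2 := by
  rw [← Sim_sh fun t => min t.2 (t3 t) / mm t ^ 2]
  refine half12.trans (le_of_eq (integral_congr_ae (Filter.Eventually.of_forall fun t => ?_)))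
  simp only [mm_sh]
  rw [min_comm t.1 t.2]
  simp only [sh, t3]
  congr 2
  ring

theorem half13 : (252229 / 1576960 : ℝ) ≤ ∫ t in Sim, min t.1 (t3 t) / mm t ^ 2 := by
  rw [← Sim_swap fun t => min t.1 (t3 t) / mm t ^ 2]
  refine half23.trans (le_of_eq (integral_congr_ae (Filter.Eventually.of_forall fun t => ?_)))
  simp only [mm_swap, t3]
  congr 2
  ring

/-- **half tents**: the integral of the minimum of two coordinates over the directions -/
theorem half_dir : (0.113 : ℝ) ≤ 1 / √2 * ∫ t in Sim, min t.1 t.2 / mm t ^ 2 ∧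
    (0.113 : ℝ) ≤ 1 / √2 * ∫ t in Sim, min t.1 (t3 t) / mm t ^ 2 ∧
    (0.113 : ℝ) ≤ 1 / √2 * ∫ t in Sim, min t.2 (t3 t) / mm t ^ 2 :=
  ⟨sc (le_trans (by norm_num) half12) (by norm_num), sc (le_trans (by norm_num) half13) (by norm_num),
    sc (le_trans (by norm_num) half23) (by norm_num)⟩

theorem min3 : (367207 / 3367980 : ℝ) ≤ ∫ t in Sim, min t.1 (min t.2 (t3 t)) / mm t ^ 2 := by
  have h := low (f := fun t => min t.1 (min t.2 (1 - t.1 - t.2))) (by fun_prop)
    (fun t ht => le_min ht.1 (le_min ht.2.1 (by linarith [ht.2.2])))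
  rw [← min3_W]
  exact h

/-- **central tent**: the integral of the minimum of the three coordinates over the directions -/
theorem min3_dir : (0.077 : ℝ) ≤ 1 / √2 * ∫ t in Sim, min t.1 (min t.2 (t3 t)) / mm t ^ 2 :=
  sc (le_trans (by norm_num) min3) (by norm_num)

/-- the two coordinate tent, sum one -/
theorem tent2_one {A B : ℝ} (hA : 0 < A) (hB : 0 < B) (hs : A + B = 1) :
    16 / 27 * (1 / 2 + 2 / 15 * (A * B)) ≤ ∫ t in Sim, min (t.1 / A) (t.2 / B) / mm t ^ 2 := by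
  have key : ∀ e : ℝ, 0 < e → e < 1 → (1 - e) * (16 / 27 * (1 / 2 + 2 / 15 * (A * B * (1 - e) ^ 2)))
      ≤ ∫ t in Sim, min (t.1 / A) (t.2 / B) / mm t ^ 2 := by
    intro e h0 h1
    have h1' : 0 < 1 - e := by linarith
    have h := Helper29.MEI.tent_flat1 (A := A * (1 - e)) (B := B * (1 - e)) (C := e)
      (mul_pos hA h1') (mul_pos hB h1') h0 (by rw [← add_mul, hs]; ring)
    have he : A * B * (1 - e) ^ 2 ≤ Helper29.MEI.e2 (A * (1 - e)) (B * (1 - e)) := by
      unfold Helper29.MEI.e2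
      have hp : 0 ≤ e * (1 - e) := by positivity
      have : B = 1 - A := by linarith
      subst this
      nlinarith
    have h3 : 16 / 27 * (1 / 2 + 2 / 15 * (A * B * (1 - e) ^ 2)) ≤ ∫ t in Sim,
        (1 - e)⁻¹ * (min (t.1 / A) (t.2 / B) / mm t ^ 2) := by
      refine le_trans ?_ (h.trans ?_)
      · linarith
      · have hm : ∀ t : ℝ × ℝ, mm t ^ 2 ≠ 0 := fun t => by have := mm_pos t; positivity
        have i1 : IntegrableOn (fun t : ℝ × ℝ => (1 - e)⁻¹ * (min (t.1 / A) (t.2 / B) / mm t ^ 2)) Sim :=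
          (continuous_const.mul (Continuous.div (by fun_prop) (mm_cont.pow 2)
            hm)).continuousOn.integrableOn_compact Sim_compact
        have i2 : IntegrableOn (fun t : ℝ × ℝ => Helper29.MEI.tent (A * (1 - e)) (B * (1 - e)) e t.1 t.2 /
            (1 - Helper29.MEI.e2 t.1 t.2) ^ 2) Helper29.MEI.TD :=
          (Helper29.MEI.tf_cont _ _ _).continuousOn.integrableOn_compact Helper29.MEI.TD_compact
        refine setIntegral_mono_on i2 i1 Sim_meas fun t ht => ?_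
        have hmm : (1 - Helper29.MEI.e2 t.1 t.2) = mm t := by
          simp only [Helper29.MEI.e2, mm, e2_eq]
        rw [hmm, ← mul_div_assoc]
        have := mm_pos t
        refine div_le_div_of_nonneg_right ?_ (by positivity)
        unfold Helper29.MEI.tent
        refine (min_le_min le_rfl (min_le_left _ _)).trans (le_of_eq ?_)
        rw [mul_min_of_nonneg _ _ (by positivity)]
        congr 1 <;> field_simp
    rw [MeasureTheory.integral_const_mul, inv_mul_eq_div, le_div_iff₀ h1'] at h3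
    linarith
  have ht : Filter.Tendsto (fun e : ℝ => (1 - e) * (16 / 27 * (1 / 2 + 2 / 15 * (A * B * (1 - e) ^ 2))))
      (nhdsWithin 0 (Ioi 0)) (nhds (16 / 27 * (1 / 2 + 2 / 15 * (A * B)))) := by
    have hc : Continuous fun e : ℝ => (1 - e) * (16 / 27 * (1 / 2 + 2 / 15 * (A * B * (1 - e) ^ 2))) := by
      fun_prop
    have := (hc.tendsto 0).mono_left (nhdsWithin_le_nhds (s := Ioi (0 : ℝ)))
    simpa using this
  refine le_of_tendsto ht ?_
  filter_upwards [Ioo_mem_nhdsGT (show (0 : ℝ) < 1 by norm_num)] with e he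
  exact key e he.1 he.2

/-- **two coordinate tent** -/
theorem tent2 {A B : ℝ} (hA : 0 < A) (hB : 0 < B) :
    (0.2095 + 0.0558 * (A * B / (A + B) ^ 2)) / (A + B)
      ≤ 1 / √2 * ∫ t in Sim, min (t.1 / A) (t.2 / B) / mm t ^ 2 := by
  have hS : 0 < A + B := by positivity
  set S := A + B with hSd
  have h1 := tent2_one (A := A / S) (B := B / S) (div_pos hA hS) (div_pos hB hS)
    (by rw [← add_div, ← hSd, div_self hS.ne'])
  have e : (∫ t in Sim, min (t.1 / A) (t.2 / B) / mm t ^ 2) =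
      (∫ t in Sim, min (t.1 / (A / S)) (t.2 / (B / S)) / mm t ^ 2) / S := by
    rw [← MeasureTheory.integral_div]
    apply MeasureTheory.integral_congr_ae
    filter_upwards with t
    rw [div_right_comm, ← min_div_div_right hS.le]
    congr 2 <;> field_simp
  have h5 : A / S * (B / S) = A * B / S ^ 2 := by field_simp
  rw [h5] at h1
  have h6 : 0 ≤ A * B / S ^ 2 := by positivity
  have h7 : 0.2095 + 0.0558 * (A * B / S ^ 2) ≤ 1 / √2 *
      ∫ t in Sim, min (t.1 / (A / S)) (t.2 / (B / S)) / mm t ^ 2 :=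
    sc (le_trans (by nlinarith) h1) (by positivity)
  rw [e]
  calc _ ≤ _ := div_le_div_of_nonneg_right h7 hS.le
    _ = _ := by ring

theorem tent2_13 {A B : ℝ} (hA : 0 < A) (hB : 0 < B) :
    (0.2095 + 0.0558 * (A * B / (A + B) ^ 2)) / (A + B)
      ≤ 1 / √2 * ∫ t in Sim, min (t.1 / A) (t3 t / B) / mm t ^ 2 := by
  have h := tent2 hB hA
  have e : ∫ t in Sim, min (t.1 / A) (t3 t / B) / mm t ^ 2 =
      ∫ t in Sim, min (t.1 / B) (t.2 / A) / mm t ^ 2 := by
    rw [← Sim_swap fun t => min (t.1 / A) (t3 t / B) / mm t ^ 2,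
      ← Sim_sh fun t => min (t.1 / B) (t.2 / A) / mm t ^ 2]
    refine integral_congr_ae (Filter.Eventually.of_forall fun t => ?_)
    simp only [mm_swap, mm_sh]
    rw [min_comm]
    simp only [t3, sh]
    congr 3
    ring
  rw [e, mul_comm A B, add_comm A B]
  exact h

theorem tent2_23 {A B : ℝ} (hA : 0 < A) (hB : 0 < B) :
    (0.2095 + 0.0558 * (A * B / (A + B) ^ 2)) / (A + B)
      ≤ 1 / √2 * ∫ t in Sim, min (t.2 / A) (t3 t / B) / mm t ^ 2 := by
  have h := tent2 hB hA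
  have e : ∫ t in Sim, min (t.2 / A) (t3 t / B) / mm t ^ 2 =
      ∫ t in Sim, min (t.1 / B) (t.2 / A) / mm t ^ 2 := by
    rw [← Sim_sh fun t => min (t.1 / B) (t.2 / A) / mm t ^ 2]
    refine integral_congr_ae (Filter.Eventually.of_forall fun t => ?_)
    simp only [mm_sh]
    rw [min_comm]
    simp only [t3, sh]
  rw [e, mul_comm A B, add_comm A B]
  exact h

end Pool.Agent.Helper95.MEI.Half
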