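import Pool.Agent.Helper95.MEI.Hc
import Pool.Agent.Helper22.MEI.Cpd

/-!
# Project MEI (M2), TEAM TC: coupling with a general profile, no height term

`xh` = the extra weight (`√2` times the height moment of the other cell when the two height
moments have opposite signs, else zero), `kx = (mp + xh)/M`.  `TL_l3x`: the system `l3 φ kx`
satisfies `TL` with `ε = 0`.
-/

set_option autoImplicit false

namespace Helper95.MEI.Hc

open Set Metric MeasureTheory Helper80.CW Helper14.CW Helper14.MEI2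
open Helper93.MEI Helper37.MEI Helper41.MEI Helper78.MEI
open Helper49.Cpl Helper22.Cpd
open Helper22.Sgn (gL TE_sgn)
open Pool.Agent.Helper73.MEI (PM TE TE_exc pf pr pr_apply pf_bij)
open Pool.Agent.Helper95.MEI.Fub (Zp exc eX_cont eY_cont eW_cont Qv_cont pp_cont
  int_cont Zp_meas mir mir_gram mir_eX mir_eY mir_eW mir_eV mir_Zp mir_perm mir_Pl)
open scoped RealInnerProductSpace Real

section defs
variable (φ : ℝ → ℝ) (σ : Measure (E3 × E3)) (a : Fin 4 → E3)

/-- the extra weight of the cell `e` of the pair `m` -/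
noncomputable def xh (m : Fin 3) (e : Bool) : ℝ :=
  if 0 ≤ pH φ σ (ap a m false) * pH φ σ (ap a m true) then 0 else
    √2 * pp (pH φ σ (ap a m (!e)))

/-- `(m + extra)/M` -/
noncomputable def kx (M : Fin 3 → ℝ) (m : Fin 3) (e i : Bool) : ℝ :=
  (mp φ σ a m e i + xh φ σ a m e) / M m

end defs

section int
variable {φ : ℝ → ℝ} {a : Fin 4 → E3} {K : Set E3} {σ : Measure (E3 × E3)} [IsFiniteMeasure σ]

/-- **levels and height moment of a cell**, any profile -/
theorem pQ_pH (hφ : Continuous φ) (hn : ∀ x, |x| ≤ 1 / 2 → 0 ≤ φ x) (h : Gram4 (al a))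
    (hK : IsCompact K) (hp : ∀ x ∈ K, Pl a x)
    (hσ : ∀ᵐ z ∂σ, z.1 ∈ K ∧ z.2 ∈ K) (hS : ∀ j, ∀ q ∈ K, Qv a j q ≤ 0.12) :
    pQ φ σ a 0 + pQ φ σ a 1 ≤ √2 * pH φ σ a := by
  have c : ∀ f : E3 → ℝ, Continuous f → Integrable (fun z : E3 × E3 => dp φ a z * f z.2) σ :=
    fun f hf => int_cont hK hσ ((dp_cont hφ a).mul (hf.comp continuous_snd))
  have hV : Continuous (eV a) := eV_cont a
  unfold pQ pH
  rw [← integral_add (c _ (Qv_cont a 0)).integrableOn (c _ (Qv_cont a 1)).integrableOn,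
    ← integral_const_mul]
  refine integral_mono_ae ((c _ (Qv_cont a 0)).integrableOn.add (c _ (Qv_cont a 1)).integrableOn)
    ((c _ hV).integrableOn.const_mul _) ?_
  filter_upwards [ae_restrict_of_ae hσ] with z hz
  have h1 := circ h (hp _ hz.2) fun j => hS j _ hz.2
  have h2 := dp_nonneg hn h (hp _ hz.1)
  nlinarith [mul_le_mul_of_nonneg_left h1 h2]

/-- general weights with a nonpositive combination of the levels -/
theorem te_pairp_w (hφ : Continuous φ)
    (hP : PM K σ) (ha : ∀ i j, i ≠ j → dist (a i) (a j) = 1) (m : Fin 3)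
    {B : Bool → OrthonormalBasis (Fin 3) ℝ E3} (hB : ∀ e, Fr (ap a m e) (B e)) {M : ℝ}
    (hM : 0 < M) {w : Bool → Bool → ℝ}
    (hw : ∑ e, ∑ i, w e i * pQ φ σ (ap a m e) (if i then 1 else 0) ≤ 0) :
    -(∑ e, ∑ i, gP φ σ a (w e i / M) m e i) ≤
      TE (B false) (cen a) σ + TE (B true) (cen a) σ := by
  rw [TE_sgn hP ha m false (hB false), TE_sgn hP ha m true (hB true)]
  simp only [Fintype.sum_bool] at hw ⊢
  rw [gP_eq hφ hP.cpt hP.mem, gP_eq hφ hP.cpt hP.mem, gP_eq hφ hP.cpt hP.mem,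
    gP_eq hφ hP.cpt hP.mem]
  simp only [if_true, Bool.false_eq_true, if_false] at hw ⊢
  set q0 := pQ φ σ (ap a m false) 0
  set q1 := pQ φ σ (ap a m false) 1
  set q2 := pQ φ σ (ap a m true) 0
  set q3 := pQ φ σ (ap a m true) 1
  have e : w true true / M / 2 * q3 + w true false / M / 2 * q2 +
      (w false true / M / 2 * q1 + w false false / M / 2 * q0) =
      (w true true * q3 + w true false * q2 + (w false true * q1 + w false false * q0)) /
        M / 2 := by
    field_simp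
  have k : (w true true * q3 + w true false * q2 + (w false true * q1 + w false false * q0)) /
        M / 2 ≤ 0 := by
    apply div_nonpos_of_nonpos_of_nonneg _ (by norm_num)
    exact div_nonpos_of_nonpos_of_nonneg hw hM.le
  rw [← e] at k
  linarith

theorem xh_nonneg (φ : ℝ → ℝ) (σ : Measure (E3 × E3)) (a : Fin 4 → E3) (m : Fin 3) (e : Bool) :
    0 ≤ xh φ σ a m e := by
  unfold xh
  split_ifs
  · exact le_rfl
  · exact mul_nonneg (Real.sqrt_nonneg 2) (pp_nonneg _)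

theorem xh_le (φ : ℝ → ℝ) (σ : Measure (E3 × E3)) (a : Fin 4 → E3) (m : Fin 3) (e : Bool) :
    xh φ σ a m e ≤ √2 * pp (pH φ σ (ap a m (!e))) := by
  unfold xh
  split_ifs
  · exact mul_nonneg (Real.sqrt_nonneg 2) (pp_nonneg _)
  · exact le_rfl

/-- **the coupling without height term**, any profile, levels `≤ .12` -/
theorem te_pairp_x (hφ : Continuous φ) (hn : ∀ x, |x| ≤ 1 / 2 → 0 ≤ φ x)
    (hP : PM K σ) (ha : ∀ i j, i ≠ j → dist (a i) (a j) = 1)
    (hd : ∀ x ∈ K, ∀ y ∈ K, ‖x - y‖ ≤ 1) (hp : ∀ x ∈ K, Pl a x)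
    (hS : ∀ j, ∀ q ∈ K, Qv a j q ≤ 0.12) (m : Fin 3)
    {B : Bool → OrthonormalBasis (Fin 3) ℝ E3} (hB : ∀ e, Fr (ap a m e) (B e)) {M : Fin 3 → ℝ}
    (hM : 0 < M m) :
    -(∑ e, ∑ i, gP φ σ a (kx φ σ a M m e i) m e i) ≤
      TE (B false) (cen a) σ + TE (B true) (cen a) σ := by
  have hg : ∀ e, Gram4 (al (ap a m e)) := fun e => gram_of_dist (hap ha m e)
  have hpl : ∀ e, ∀ x ∈ K, Pl (ap a m e) x := fun e x hx => Pl_perm (pr m e) (hp x hx)
  have key := cplp hφ hφ hn hn (hg false) hP.cpt hd (hpl false) hP.mem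
  rw [← ap_mir a m] at key
  have s2 := s2s
  have s0 := Real.sqrt_nonneg 2
  have hγ : ∀ e, √2 * (pQ φ σ (ap a m e) 0 + pQ φ σ (ap a m e) 1) ≤
      2 * pH φ σ (ap a m e) := by
    intro e
    have h3 := pQ_pH hφ hn (hg e) hP.cpt (hpl e) hP.mem (fun j q hq => hS (pf m e j) q hq)
    calc √2 * (pQ φ σ (ap a m e) 0 + pQ φ σ (ap a m e) 1)
        ≤ √2 * (√2 * pH φ σ (ap a m e)) := mul_le_mul_of_nonneg_left h3 s0
      _ = 2 * pH φ σ (ap a m e) := by rw [← mul_assoc, s2]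
  have g0 := hγ false
  have g1 := hγ true
  unfold kx
  refine te_pairp_w hφ hP ha m hB hM (w := fun e i => mp φ σ a m e i + xh φ σ a m e) ?_
  have e2 : xh φ σ a m false * (pQ φ σ (ap a m false) 0 + pQ φ σ (ap a m false) 1) +
      xh φ σ a m true * (pQ φ σ (ap a m true) 0 + pQ φ σ (ap a m true) 1) ≤
      2 * (pH φ σ (ap a m false) * pH φ σ (ap a m true)) := by
    unfold xh
    simp only [Bool.not_false, Bool.not_true]
    split_ifs with hc
    · linarith
    · push Not at hc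
      rcases lt_or_ge 0 (pH φ σ (ap a m true)) with ht | ht
      · have hf : pH φ σ (ap a m false) ≤ 0 := by nlinarith
        have e3 : pp (pH φ σ (ap a m true)) = pH φ σ (ap a m true) := max_eq_left ht.le
        have e4 : pp (pH φ σ (ap a m false)) = 0 := max_eq_right hf
        rw [e3, e4]
        nlinarith [mul_le_mul_of_nonneg_left g0 ht.le]
      · have hf : 0 ≤ pH φ σ (ap a m false) := by nlinarith
        have e3 : pp (pH φ σ (ap a m true)) = 0 := max_eq_right ht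
        have e4 : pp (pH φ σ (ap a m false)) = pH φ σ (ap a m false) := max_eq_left hf
        rw [e3, e4]
        nlinarith [mul_le_mul_of_nonneg_left g1 hf]
  simp only [Fintype.sum_bool]
  unfold mp
  simp only [Bool.not_false, Bool.not_true, if_true, Bool.false_eq_true, if_false]
  linarith

/-! ### the system -/

omit [IsFiniteMeasure σ] in
theorem kx_ge {M : Fin 3 → ℝ} (hM : ∀ m, 0 < M m) (m : Fin 3) (e i : Bool) :
    kp φ σ a M m e i ≤ kx φ σ a M m e i := by
  unfold kp kx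
  exact div_le_div_of_nonneg_right (by linarith [xh_nonneg φ σ a m e]) (hM m).le

omit [IsFiniteMeasure σ] in
/-- lower bound -/
theorem kx_ge' {M : Fin 3 → ℝ} (hM : ∀ m, 0 < M m) {m : Fin 3} {e i : Bool} {k : ℝ}
    (h : k * M m ≤ mp φ σ a m e i) : k ≤ kx φ σ a M m e i := by
  refine le_trans ?_ (kx_ge hM m e i)
  unfold kp
  rw [le_div_iff₀ (hM m)]
  exact h

omit [IsFiniteMeasure σ] in
/-- upper bound -/
theorem kx_le {M : Fin 3 → ℝ} (hM : ∀ m, 0 < M m) {m : Fin 3} {e i : Bool} {k : ℝ}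
    (h : mp φ σ a m e i + √2 * pp (pH φ σ (ap a m (!e))) ≤ k * M m) :
    kx φ σ a M m e i ≤ k := by
  unfold kx
  rw [div_le_iff₀ (hM m)]
  have := xh_le φ σ a m e
  linarith

theorem kx_nonneg (hφ : Prof φ) (ha : ∀ i j, i ≠ j → dist (a i) (a j) = 1)
    (hK : IsCompact K) (hσ : ∀ᵐ z ∂σ, z.1 ∈ K ∧ z.2 ∈ K) (hp : ∀ x ∈ K, Pl a x)
    {M : Fin 3 → ℝ} (hM : ∀ m, 0 < M m) (m : Fin 3) (e i : Bool) : 0 ≤ kx φ σ a M m e i :=
  (kp_nonneg hφ ha hK hσ hp hM m e i).trans (kx_ge hM m e i)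

/-- **`TL` with `ε = 0`** for the coupled system -/
theorem TL_l3x (hφ : Prof φ) (hP : PM K σ)
    (ha : ∀ i j, i ≠ j → dist (a i) (a j) = 1)
    (hd : ∀ x ∈ K, ∀ y ∈ K, ‖x - y‖ ≤ 1) (hp : ∀ x ∈ K, Pl a x)
    (hS : ∀ j, ∀ q ∈ K, Qv a j q ≤ 0.12)
    {B : Fin 3 → Bool → OrthonormalBasis (Fin 3) ℝ E3}
    (hB : ∀ m e, Fr (fun i => a (pr m e i)) (B m e)) {M : Fin 3 → ℝ} (hM : ∀ m, 0 < M m) :
    TL σ a B (l3 φ (kx φ σ a M) a) 0 := by
  have h0 := TL_pairs (σ := σ) (a := a) (B := B) (l := l3 φ (kx φ σ a M) a)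
    (εm := fun _ => 0) (fun m => by
      have h1 := te_pairp_x hφ.cont hφ.nn hP ha hd hp hS m (B := B m) (hB m) (hM m)
      have h2 := gP_le (κ := kx φ σ a M) (a := a) hφ hP.cpt hP.mem m false
      have h3 := gP_le (κ := kx φ σ a M) (a := a) hφ hP.cpt hP.mem m true
      simp only [Fintype.sum_bool] at h1
      linarith)
  exact h0.mono (by norm_num)

end int

end Helper95.MEI.Hc
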