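import Mathlib

/-!
# Project MEI, all bodies: integration by parts on cones

`ibp`: for Lipschitz functions in the direction `v` with a bounded weight which is invariant under
translations along `v`.
`comp_half`: the same for `ℓ φ` on a half space `{0 ≤ ℓ}` (weight invariant along `v`).
-/

namespace Pool.Agent.Helper95.MEI

open MeasureTheory Set Filter Topology
open scoped NNReal

variable {E : Type*} [NormedAddCommGroup E] [NormedSpace ℝ E] [MeasurableSpace E] [BorelSpace E]
  [FiniteDimensional ℝ E] {μ : Measure E} [μ.IsAddHaarMeasure] {C D : ℝ≥0} {f g : E → ℝ}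

/-- Integration by parts for Lipschitz functions with a weight invariant along `v`. -/
theorem ibp (hf : LipschitzWith C f) (hg : LipschitzWith D g) (h'g : HasCompactSupport g) (v : E)
    {w : E → ℝ} (hw : Measurable w) {M : ℝ} (hM : ∀ x, ‖w x‖ ≤ M)
    (hinv : ∀ (t : ℝ) (x : E), w (x + t • v) = w x) :
    ∫ x, w x * (lineDeriv ℝ f x v * g x) ∂μ = -∫ x, w x * (f x * lineDeriv ℝ g x v) ∂μ := by
  have gi : Integrable g μ := hg.continuous.integrable_of_hasCompactSupport h'g
  have wgi : Integrable (fun x => w x * g x) μ :=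
    gi.bdd_mul hw.aestronglyMeasurable (c := M) (Eventually.of_forall hM)
  have A := hf.integral_inv_smul_sub_mul_tendsto_integral_lineDeriv_mul (μ := μ) wgi v
  -- second limit
  let K := Metric.cthickening (‖v‖) (tsupport g)
  have K_compact : IsCompact K := IsCompact.cthickening h'g
  have fi : Integrable (K.indicator f) μ := by
    rw [integrable_indicator_iff K_compact.measurableSet]
    exact hf.continuous.continuousOn.integrableOn_compact K_compact
  have wfi : Integrable (fun x => w x * K.indicator f x) μ :=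
    fi.bdd_mul hw.aestronglyMeasurable (c := M) (Eventually.of_forall hM)
  have B := hg.integral_inv_smul_sub_mul_tendsto_integral_lineDeriv_mul (μ := μ) wfi (-v)
  -- outside of `K`
  have hout : ∀ x ∉ K, ∀ t ∈ Ioc (0 : ℝ) 1, g x = 0 ∧ g (x + t • (-v)) = 0 := by
    intro x hx t ht
    constructor
    · rw [← Function.notMem_support]
      contrapose hx
      exact Metric.self_subset_cthickening _ (subset_tsupport _ hx)
    · rw [← Function.notMem_support]
      contrapose hx
      apply Metric.mem_cthickening_of_dist_le _ _ (‖v‖) (tsupport g) (subset_tsupport _ hx)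
      simp only [dist_eq_norm, sub_add_cancel_left, norm_neg, norm_smul, Real.norm_eq_abs,
        abs_of_nonneg ht.1.le]
      exact mul_le_of_le_one_left (norm_nonneg v) ht.2
  have hder : ∀ x ∉ K, lineDeriv ℝ g x v = 0 := by
    intro x hx
    have hx2 : x ∉ tsupport g := fun h => hx (Metric.self_subset_cthickening _ h)
    have : g =ᶠ[𝓝 x] fun _ => 0 := by
      have := (isClosed_tsupport g).isOpen_compl.mem_nhds hx2
      filter_upwards [this] with y hy
      by_contra h
      exact hy (subset_tsupport _ h)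
    rw [this.lineDeriv_eq]
    simp [lineDeriv]
  have e1 : ∫ x, lineDeriv ℝ f x v * (w x * g x) ∂μ
      = ∫ x, w x * (lineDeriv ℝ f x v * g x) ∂μ := by
    congr 1; funext x; ring
  have e2 : ∫ x, lineDeriv ℝ g x (-v) * (w x * K.indicator f x) ∂μ
      = -∫ x, w x * (f x * lineDeriv ℝ g x v) ∂μ := by
    rw [← integral_neg]
    congr 1; funext x
    by_cases hx : x ∈ K
    · rw [indicator_of_mem hx, lineDeriv_neg]; ring
    · rw [indicator_of_notMem hx, hder x hx]; ring
  rw [e1] at A
  rw [e2] at B
  refine tendsto_nhds_unique A (B.congr' ?_)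
  filter_upwards [Ioc_mem_nhdsGT zero_lt_one] with t ht
  -- the two difference quotient integrals agree
  have hfc := hf.continuous
  have hgc := hg.continuous
  have i1 : Integrable (fun x => f (x + t • v) * (w x * g x)) μ := by
    have : Integrable (fun x => f (x + t • v) * g x) μ :=
      Continuous.integrable_of_hasCompactSupport (by fun_prop) h'g.mul_left
    refine (this.bdd_mul hw.aestronglyMeasurable (c := M) (Eventually.of_forall hM)).congr
      (Eventually.of_forall fun x => ?_)
    simp only; ring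
  have i2 : Integrable (fun x => f x * (w x * g x)) μ := by
    have : Integrable (fun x => f x * g x) μ :=
      Continuous.integrable_of_hasCompactSupport (by fun_prop) h'g.mul_left
    refine (this.bdd_mul hw.aestronglyMeasurable (c := M) (Eventually.of_forall hM)).congr
      (Eventually.of_forall fun x => ?_)
    simp only; ring
  have hgs : HasCompactSupport (fun x => g (x + t • (-v))) :=
    h'g.comp_homeomorph (Homeomorph.addRight (t • (-v)))
  have i3 : Integrable (fun x => f x * (w x * g (x + t • (-v)))) μ := by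
    have : Integrable (fun x => f x * g (x + t • (-v))) μ :=
      Continuous.integrable_of_hasCompactSupport (by fun_prop) hgs.mul_left
    refine (this.bdd_mul hw.aestronglyMeasurable (c := M) (Eventually.of_forall hM)).congr
      (Eventually.of_forall fun x => ?_)
    simp only; ring
  have tr : ∫ x, f (x + t • v) * (w x * g x) ∂μ = ∫ x, f x * (w x * g (x + t • (-v))) ∂μ := by
    rw [← integral_add_right_eq_self (fun x => f x * (w x * g (x + t • (-v)))) (t • v)]
    congr 1; funext x
    rw [hinv, smul_neg, add_neg_cancel_right]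
  have l1 : ∫ x, (t⁻¹ • (f (x + t • v) - f x)) * (w x * g x) ∂μ
      = t⁻¹ * ((∫ x, f (x + t • v) * (w x * g x) ∂μ) - ∫ x, f x * (w x * g x) ∂μ) := by
    rw [← integral_sub i1 i2, ← integral_const_mul]
    congr 1; funext x; simp only [smul_eq_mul]; ring
  have l2 : ∫ x, (t⁻¹ • (g (x + t • (-v)) - g x)) * (w x * K.indicator f x) ∂μ
      = t⁻¹ * ((∫ x, f x * (w x * g (x + t • (-v))) ∂μ) - ∫ x, f x * (w x * g x) ∂μ) := by
    rw [← integral_sub i3 i2, ← integral_const_mul]
    congr 1; funext x
    by_cases hx : x ∈ K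
    · rw [indicator_of_mem hx]; simp only [smul_eq_mul]; ring
    · obtain ⟨h1, h2⟩ := hout x hx t ht
      rw [h1, h2]; simp
  rw [l1, l2, tr]

theorem lineDeriv_zero_of_notMem {x v : E} (hx : x ∉ tsupport g) : lineDeriv ℝ g x v = 0 := by
  have : g =ᶠ[𝓝 x] fun _ => 0 := by
    have := (isClosed_tsupport g).isOpen_compl.mem_nhds hx
    filter_upwards [this] with y hy
    by_contra h
    exact hy (subset_tsupport _ h)
  rw [this.lineDeriv_eq]
  simp [lineDeriv]

/-- Local version: `f` is Lipschitz on a large ball only. -/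
theorem ibp_loc {R : ℝ} (hf : LipschitzOnWith C f (Metric.closedBall 0 R))
    (hg : LipschitzWith D g) (h'g : HasCompactSupport g) (hs : tsupport g ⊆ Metric.ball 0 R)
    (v : E) {w : E → ℝ} (hw : Measurable w) {M : ℝ} (hM : ∀ x, ‖w x‖ ≤ M)
    (hinv : ∀ (t : ℝ) (x : E), w (x + t • v) = w x) :
    ∫ x, w x * (lineDeriv ℝ f x v * g x) ∂μ = -∫ x, w x * (f x * lineDeriv ℝ g x v) ∂μ := by
  obtain ⟨F, hF, hEq⟩ := hf.extend_real
  have key := ibp (μ := μ) hF hg h'g v hw hM hinv
  have e1 : ∫ x, w x * (lineDeriv ℝ f x v * g x) ∂μ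
      = ∫ x, w x * (lineDeriv ℝ F x v * g x) ∂μ := by
    congr 1; funext x
    by_cases hx : x ∈ tsupport g
    · have hb := hs hx
      have : f =ᶠ[𝓝 x] F := by
        filter_upwards [Metric.isOpen_ball.mem_nhds hb] with y hy
        exact hEq (Metric.ball_subset_closedBall hy)
      rw [this.lineDeriv_eq]
    · have : g x = 0 := image_eq_zero_of_notMem_tsupport hx
      rw [this]; ring
  have e2 : ∫ x, w x * (f x * lineDeriv ℝ g x v) ∂μ
      = ∫ x, w x * (F x * lineDeriv ℝ g x v) ∂μ := by
    congr 1; funext x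
    by_cases hx : x ∈ tsupport g
    · rw [hEq (Metric.ball_subset_closedBall (hs hx))]
    · rw [lineDeriv_zero_of_notMem hx]; ring
  rw [e1, e2, key]

/-- a `C¹` function is Lipschitz on every closed ball -/
theorem contDiff_lipOn {φ : E → ℝ} (hφ : ContDiff ℝ 1 φ) (R : ℝ) :
    ∃ C : ℝ≥0, LipschitzOnWith C φ (Metric.closedBall (0 : E) R) := by
  have hc : IsCompact (Metric.closedBall (0 : E) R) := isCompact_closedBall 0 R
  obtain ⟨B, hB⟩ := hc.exists_bound_of_continuousOn (f := fderiv ℝ φ)
    (hφ.continuous_fderiv one_ne_zero).continuousOn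
  refine ⟨Real.toNNReal B, (convex_closedBall (0 : E) R).lipschitzOnWith_of_nnnorm_fderiv_le
    (𝕜 := ℝ) (fun x _ => hφ.differentiable one_ne_zero x) fun x hx => ?_⟩
  rw [← NNReal.coe_le_coe, coe_nnnorm]
  exact (hB x hx).trans (Real.le_coe_toNNReal B)

theorem lipOn_mul {a b : E → ℝ} {K L : ℝ≥0} {R : ℝ}
    (ha : LipschitzOnWith K a (Metric.closedBall (0 : E) R))
    (hb : LipschitzOnWith L b (Metric.closedBall (0 : E) R)) :
    ∃ N : ℝ≥0, LipschitzOnWith N (fun x => a x * b x) (Metric.closedBall (0 : E) R) := by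
  have hc : IsCompact (Metric.closedBall (0 : E) R) := isCompact_closedBall 0 R
  obtain ⟨A, hA⟩ := hc.exists_bound_of_continuousOn ha.continuousOn
  obtain ⟨B, hB⟩ := hc.exists_bound_of_continuousOn hb.continuousOn
  refine ⟨Real.toNNReal A * L + Real.toNNReal B * K, ?_⟩
  apply LipschitzOnWith.of_dist_le_mul
  intro x hx y hy
  rw [Real.dist_eq]
  have h1 : a x * b x - a y * b y = a x * (b x - b y) + b y * (a x - a y) := by ring
  have h2 := ha.dist_le_mul x hx y hy
  have h3 := hb.dist_le_mul x hx y hy
  rw [Real.dist_eq] at h2 h3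
  have h4 : |a x| ≤ Real.toNNReal A := (hA x hx).trans (Real.le_coe_toNNReal A)
  have h5 : |b y| ≤ Real.toNNReal B := (hB y hy).trans (Real.le_coe_toNNReal B)
  rw [h1]
  refine (abs_add_le _ _).trans ?_
  rw [abs_mul, abs_mul]
  have h6 : |a x| * |b x - b y| ≤ Real.toNNReal A * (L * dist x y) :=
    mul_le_mul h4 h3 (abs_nonneg _) (NNReal.coe_nonneg _)
  have h7 : |b y| * |a x - a y| ≤ Real.toNNReal B * (K * dist x y) :=
    mul_le_mul h5 h2 (abs_nonneg _) (NNReal.coe_nonneg _)
  push_cast
  linarith

/-- Component without constraint. -/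
theorem comp_free {φ : E → ℝ} (hφ : ContDiff ℝ 1 φ) (hg : LipschitzWith D g)
    (h'g : HasCompactSupport g) (v : E) {S : Set E} (hS : MeasurableSet S)
    (hinv : ∀ (t : ℝ) (x : E), x + t • v ∈ S ↔ x ∈ S) :
    ∫ x in S, fderiv ℝ φ x v * g x ∂μ = -∫ x in S, φ x * lineDeriv ℝ g x v ∂μ := by
  obtain ⟨R, hR⟩ := h'g.isBounded.subset_ball (0 : E)
  obtain ⟨C, hC⟩ := contDiff_lipOn hφ R
  have key := ibp_loc (μ := μ) hC hg h'g hR v (w := S.indicator fun _ => (1 : ℝ))
    (measurable_const.indicator hS) (M := 1)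
    (fun x => by by_cases hx : x ∈ S <;> simp [hx]) (fun t x => by
      by_cases hx : x ∈ S
      · rw [indicator_of_mem hx, indicator_of_mem ((hinv t x).2 hx)]
      · rw [indicator_of_notMem hx, indicator_of_notMem (fun h => hx ((hinv t x).1 h))])
  rw [← integral_indicator hS, ← integral_indicator hS]
  have e1 : (fun x => S.indicator (fun _ => (1 : ℝ)) x * (lineDeriv ℝ φ x v * g x))
      = S.indicator (fun x => fderiv ℝ φ x v * g x) := by
    funext x
    by_cases hx : x ∈ S
    · rw [indicator_of_mem hx, indicator_of_mem hx,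
        (hφ.differentiable one_ne_zero x).lineDeriv_eq_fderiv, one_mul]
    · rw [indicator_of_notMem hx, indicator_of_notMem hx, zero_mul]
  have e2 : (fun x => S.indicator (fun _ => (1 : ℝ)) x * (φ x * lineDeriv ℝ g x v))
      = S.indicator (fun x => φ x * lineDeriv ℝ g x v) := by
    funext x
    by_cases hx : x ∈ S
    · rw [indicator_of_mem hx, indicator_of_mem hx, one_mul]
    · rw [indicator_of_notMem hx, indicator_of_notMem hx, zero_mul]
  rw [e1, e2] at key
  exact key

/-- Component `ℓ φ` on the half space `0 ≤ ℓ = L + c`. -/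
theorem comp_half {φ : E → ℝ} (hφ : ContDiff ℝ 1 φ) (hg : LipschitzWith D g)
    (h'g : HasCompactSupport g) (v : E) {S : Set E} (hS : MeasurableSet S)
    (hinv : ∀ (t : ℝ) (x : E), x + t • v ∈ S ↔ x ∈ S) (L : E →L[ℝ] ℝ) (c : ℝ) (hv : L v = 1) :
    ∫ x in S ∩ {x | 0 ≤ L x + c}, (φ x + (L x + c) * fderiv ℝ φ x v) * g x ∂μ
      = -∫ x in S ∩ {x | 0 ≤ L x + c}, (L x + c) * φ x * lineDeriv ℝ g x v ∂μ := by
  obtain ⟨R, hR⟩ := h'g.isBounded.subset_ball (0 : E)
  obtain ⟨C, hC⟩ := contDiff_lipOn hφ R
  set ℓ : E → ℝ := fun x => L x + c with hℓ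
  have hLip : LipschitzWith (‖L‖₊) (fun x => max (ℓ x) 0) := by
    have h1 : LipschitzWith (‖L‖₊) ℓ := by
      apply LipschitzWith.of_dist_le_mul
      intro x y
      rw [hℓ]
      simp only [Real.dist_eq, add_sub_add_right_eq_sub, ← map_sub]
      rw [← Real.norm_eq_abs, dist_eq_norm]
      exact L.le_opNorm _
    exact h1.max_const 0
  obtain ⟨N, hN⟩ := lipOn_mul (hLip.lipschitzOnWith (s := Metric.closedBall (0 : E) R)) hC
  have hH : MeasurableSet {x : E | 0 ≤ ℓ x} :=
    measurableSet_le measurable_const (by rw [hℓ]; fun_prop)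
  have key := ibp_loc (μ := μ) hN hg h'g hR v (w := S.indicator fun _ => (1 : ℝ))
    (measurable_const.indicator hS) (M := 1)
    (fun x => by by_cases hx : x ∈ S <;> simp [hx]) (fun t x => by
      by_cases hx : x ∈ S
      · rw [indicator_of_mem hx, indicator_of_mem ((hinv t x).2 hx)]
      · rw [indicator_of_notMem hx, indicator_of_notMem (fun h => hx ((hinv t x).1 h))])
  rw [← integral_indicator (hS.inter hH), ← integral_indicator (hS.inter hH)]
  -- the interface is a null set
  have hnull : ∀ᵐ x ∂μ, ℓ x ≠ 0 := by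
    have hne : (⊤ : AffineSubspace ℝ E) ≠ ⊥ := by simp
    have : μ {x | ℓ x = 0} = 0 := by
      have hv0 : L ≠ 0 := by
        intro h; rw [h] at hv; simp at hv
      let A : AffineSubspace ℝ E :=
        { carrier := {x | ℓ x = 0}
          smul_vsub_vadd_mem' := by
            intro r p1 p2 p3 h1 h2 h3
            simp only [mem_setOf_eq, hℓ] at h1 h2 h3 ⊢
            simp only [vsub_eq_sub, vadd_eq_add, map_add, map_smul, map_sub, smul_eq_mul]
            linear_combination r * h1 - r * h2 + h3 }
      have hA : A ≠ ⊤ := by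
        intro h
        apply hv0
        ext x
        have m1 : x ∈ A := by rw [h]; trivial
        have m2 : (0 : E) ∈ A := by rw [h]; trivial
        have m1' : L x + c = 0 := m1
        have m2' : L 0 + c = 0 := m2
        rw [map_zero] at m2'
        simp only [ContinuousLinearMap.zero_apply]
        linarith
      exact Measure.addHaar_affineSubspace μ A hA
    rw [ae_iff]
    simpa using this
  have e1 : ∫ x, S.indicator (fun _ => (1 : ℝ)) x
        * (lineDeriv ℝ (fun x => max (ℓ x) 0 * φ x) x v * g x) ∂μ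
      = ∫ x, (S ∩ {x | 0 ≤ ℓ x}).indicator
        (fun x => (φ x + ℓ x * fderiv ℝ φ x v) * g x) x ∂μ := by
    refine integral_congr_ae ?_
    filter_upwards [hnull] with x hx
    by_cases hxS : x ∈ S
    · rw [indicator_of_mem hxS, one_mul]
      rcases lt_or_gt_of_ne hx with hneg | hpos
      · have hn : x ∉ S ∩ {x | 0 ≤ ℓ x} := fun h => absurd h.2 (not_le.2 hneg)
        rw [indicator_of_notMem hn]
        have hev : (fun x => max (ℓ x) 0 * φ x) =ᶠ[𝓝 x] fun _ => 0 := by
          have hc : ContinuousAt ℓ x := by rw [hℓ]; fun_prop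
          filter_upwards [hc.eventually (gt_mem_nhds hneg)] with y hy
          rw [max_eq_right hy.le, zero_mul]
        rw [hev.lineDeriv_eq]
        simp [lineDeriv]
      · have hn : x ∈ S ∩ {x | 0 ≤ ℓ x} := ⟨hxS, hpos.le⟩
        rw [indicator_of_mem hn]
        have hev : (fun x => max (ℓ x) 0 * φ x) =ᶠ[𝓝 x] fun x => ℓ x * φ x := by
          have hc : ContinuousAt ℓ x := by rw [hℓ]; fun_prop
          filter_upwards [hc.eventually (lt_mem_nhds hpos)] with y hy
          rw [max_eq_left (le_of_lt hy)]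
        rw [hev.lineDeriv_eq]
        have hd : HasFDerivAt (fun x => ℓ x * φ x) (ℓ x • fderiv ℝ φ x + φ x • L) x := by
          have h1 : HasFDerivAt ℓ L x := L.hasFDerivAt.add_const c
          exact h1.mul (hφ.differentiable one_ne_zero x).hasFDerivAt
        rw [hd.differentiableAt.lineDeriv_eq_fderiv, hd.fderiv]
        simp only [ContinuousLinearMap.add_apply, ContinuousLinearMap.smul_apply, smul_eq_mul, hv]
        ring
    · rw [indicator_of_notMem hxS, indicator_of_notMem (fun h => hxS h.1), zero_mul]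
  have e2 : ∫ x, S.indicator (fun _ => (1 : ℝ)) x
        * (max (ℓ x) 0 * φ x * lineDeriv ℝ g x v) ∂μ
      = ∫ x, (S ∩ {x | 0 ≤ ℓ x}).indicator (fun x => ℓ x * φ x * lineDeriv ℝ g x v) x ∂μ := by
    congr 1; funext x
    by_cases hxS : x ∈ S
    · rw [indicator_of_mem hxS, one_mul]
      by_cases hp : 0 ≤ ℓ x
      · rw [indicator_of_mem (show x ∈ S ∩ {x | 0 ≤ ℓ x} from ⟨hxS, hp⟩), max_eq_left hp]
      · rw [indicator_of_notMem (fun h => hp h.2), max_eq_right (not_le.1 hp).le]
        ring
    · rw [indicator_of_notMem hxS, indicator_of_notMem (fun h => hxS h.1), zero_mul]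
  rw [e1, e2] at key
  exact key

end Pool.Agent.Helper95.MEI
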