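import Pool.Agent.Helper95.MEI.Bc
import Pool.Agent.Helper22.MEI.Cpd4
import Pool.Agent.Helper21.MEI.JMom

/-!
# Project MEI (M2), TEAM TC: joint form of the coupling, no bound of the negative height moment

Numbers per pair: caps `U` (moment plus positive part of the height moment), lower bounds `L` of
the moments, sum numbers `s`.  `jt`: there are coefficients `κ` with `TL` and `ε = 0` and a point
`κ₁` of the polygon `L ≤ κ₁ M ≤ U`, `s ≤ (κ₁ + κ₁) M` with `κ₁ ≤ κ ≤ 1` and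
`(1 - κ_v) X_k ≤ (1 - κ₁_v) κ₁_k M`; `sM_jt`: the moment of an arc at the end of the opposite edge
is at most `ρ + T + (1 - κ₁_v) κ₁_k M/2`.
-/

set_option autoImplicit false

namespace Helper95.MEI.Jt

open Set Metric MeasureTheory Helper80.CW Helper14.CW Helper14.MEI2
open Helper93.MEI Helper37.MEI Helper41.MEI Helper78.MEI
open Helper49.Cpl Helper22.Cpd
open Helper22.Sgn (gL TE_sgn)
open Helper95.MEI.Hc (te_pairp_w)
open Pool.Agent.Helper73.MEI (PM TE TE_exc pf pr pr_apply pf_bij)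
open Pool.Agent.Helper95.MEI.Fub (Zp exc eX_cont eY_cont eW_cont Qv_cont pp_cont
  int_cont Zp_meas)
open scoped RealInnerProductSpace Real

/-! ### the algebra of a pair -/

/-- one height moment negative -/
theorem pair_neg {HA HB q0 q1 q2 q3 r : ℝ} (hr : r * r = 2) (hr0 : 0 < r)
    {mA mB UA UB LB : Bool → ℝ} {sA sB : ℝ}
    (key : mA false * q0 + mA true * q1 + mB false * q2 + mB true * q3 + 2 * (HA * HB) ≤ 0)
    (hA : q0 + q1 ≤ r * HA) (hB : q2 + q3 ≤ r * HB) (h1 : HA < 0) (h2 : 0 < q2 + q3)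
    (hUA : ∀ i, mA i + r / 2 * HB + r / 2 * max HB 0 ≤ UA i)
    (hUB : ∀ i, mB i + r / 2 * HA + r / 2 * max HA 0 ≤ UB i)
    (hLB : ∀ i, LB i ≤ mB i + r / 2 * HA)
    (hsA : sA ≤ mA false + mA true) (hsB : sB ≤ mB false + mB true)
    (hsB' : ∀ i, sB ≤ UB i + LB (!i)) :
    ∃ wA wB : Bool → ℝ,
      wA false * q0 + wA true * q1 + wB false * q2 + wB true * q3 ≤ 0 ∧
      (∀ i, mA i + r / 2 * HB ≤ wA i ∧ wA i ≤ UA i) ∧
      (∀ i, mB i + r / 2 * HA ≤ wB i ∧ wB i ≤ UB i) ∧
      sA ≤ wA false + wA true ∧ sB ≤ wB false + wB true := by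
  have hHB : 0 < HB := by
    by_contra hc
    push Not at hc
    nlinarith
  have hm : max HB 0 = HB := max_eq_left hHB.le
  have hm2 : max HA 0 = 0 := max_eq_right h1.le
  have hrB : 0 < r * HB := mul_pos hr0 hHB
  obtain ⟨d, hd⟩ : ∃ d : ℝ, d = max 0 (max (mB false - UB false) (mB true - UB true)) := ⟨_, rfl⟩
  have d0 : 0 ≤ d := hd ▸ le_max_left _ _
  have dF : mB false - UB false ≤ d := hd ▸ (le_max_left _ _).trans (le_max_right _ _)
  have dT : mB true - UB true ≤ d := hd ▸ (le_max_right _ _).trans (le_max_right _ _)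
  have uF := hUB false
  have uT := hUB true
  rw [hm2, mul_zero] at uF uT
  have dU : d ≤ -(r / 2 * HA) := by
    rw [hd]
    refine max_le ?_ (max_le (by linarith) (by linarith))
    have : r / 2 * HA ≤ 0 := mul_nonpos_of_nonneg_of_nonpos (by linarith) h1.le
    linarith
  refine ⟨fun i => mA i + r * HB, fun i => mB i - d, ?_, fun i => ⟨?_, ?_⟩, fun i => ⟨?_, ?_⟩,
    ?_, ?_⟩
  · show (mA false + r * HB) * q0 + (mA true + r * HB) * q1 + (mB false - d) * q2 +
      (mB true - d) * q3 ≤ 0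
    have k1 := mul_le_mul_of_nonneg_left hA hrB.le
    have k2 := mul_nonneg d0 h2.le
    have e : r * HB * (r * HA) = 2 * (HA * HB) := by
      linear_combination HA * HB * hr
    rw [e] at k1
    linarith
  · show mA i + r / 2 * HB ≤ mA i + r * HB
    linarith
  · show mA i + r * HB ≤ UA i
    have := hUA i
    rw [hm] at this
    linarith
  · show mB i + r / 2 * HA ≤ mB i - d
    linarith
  · show mB i - d ≤ UB i
    cases i
    · linarith
    · linarith
  · show sA ≤ mA false + r * HB + (mA true + r * HB)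
    linarith
  · show sB ≤ mB false - d + (mB true - d)
    have lF := hLB false
    have lT := hLB true
    have sF := hsB' false
    have sT := hsB' true
    rw [Bool.not_false] at sF
    rw [Bool.not_true] at sT
    rcases max_choice 0 (max (mB false - UB false) (mB true - UB true)) with h | h
    · rw [h] at hd
      rw [hd]
      linarith
    · rw [h] at hd
      rcases max_choice (mB false - UB false) (mB true - UB true) with h' | h'
      · rw [h'] at hd
        linarith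
      · rw [h'] at hd
        linarith

/-- **weights of a pair**: valid, above the moments, below the caps, sum rows -/
theorem pair_w {HA HB q0 q1 q2 q3 r : ℝ} (hr : r * r = 2) (hr0 : 0 < r)
    {mA mB UA UB LA LB : Bool → ℝ} {sA sB : ℝ}
    (key : mA false * q0 + mA true * q1 + mB false * q2 + mB true * q3 + 2 * (HA * HB) ≤ 0)
    (hA : q0 + q1 ≤ r * HA) (hB : q2 + q3 ≤ r * HB) (hn : ¬(q0 + q1 ≤ 0 ∧ q2 + q3 ≤ 0))
    (hUA : ∀ i, mA i + r / 2 * HB + r / 2 * max HB 0 ≤ UA i)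
    (hUB : ∀ i, mB i + r / 2 * HA + r / 2 * max HA 0 ≤ UB i)
    (hLA : ∀ i, LA i ≤ mA i + r / 2 * HB) (hLB : ∀ i, LB i ≤ mB i + r / 2 * HA)
    (hsA : sA ≤ mA false + mA true) (hsB : sB ≤ mB false + mB true)
    (hsA' : ∀ i, sA ≤ UA i + LA (!i)) (hsB' : ∀ i, sB ≤ UB i + LB (!i)) :
    ∃ wA wB : Bool → ℝ,
      wA false * q0 + wA true * q1 + wB false * q2 + wB true * q3 ≤ 0 ∧
      (∀ i, mA i + r / 2 * HB ≤ wA i ∧ wA i ≤ UA i) ∧
      (∀ i, mB i + r / 2 * HA ≤ wB i ∧ wB i ≤ UB i) ∧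
      sA ≤ wA false + wA true ∧ sB ≤ wB false + wB true := by
  rcases lt_or_ge HA 0 with h1 | h1
  · have hA0 : q0 + q1 ≤ 0 := hA.trans (mul_nonpos_of_nonneg_of_nonpos hr0.le h1.le)
    have hB0 : 0 < q2 + q3 := by
      by_contra hc
      exact hn ⟨hA0, not_lt.1 hc⟩
    exact pair_neg hr hr0 key hA hB h1 hB0 hUA hUB hLB hsA hsB hsB'
  · rcases lt_or_ge HB 0 with h2 | h2
    · have hB0 : q2 + q3 ≤ 0 := hB.trans (mul_nonpos_of_nonneg_of_nonpos hr0.le h2.le)
      have hA0 : 0 < q0 + q1 := by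
        by_contra hc
        exact hn ⟨not_lt.1 hc, hB0⟩
      obtain ⟨wB, wA, k1, k2, k3, k4, k5⟩ := pair_neg (HA := HB) (HB := HA) (q0 := q2) (q1 := q3)
        (q2 := q0) (q3 := q1) (mA := mB) (mB := mA) (UA := UB) (UB := UA) (LB := LA)
        (sA := sB) (sB := sA) hr hr0 (by linarith) hB hA h2 hA0 hUB hUA hLA hsB hsA hsA'
      exact ⟨wA, wB, by linarith, k3, k2, k5, k4⟩
    · refine ⟨fun i => mA i + r / 2 * HB, fun i => mB i + r / 2 * HA, ?_, fun i => ⟨le_rfl, ?_⟩,
        fun i => ⟨le_rfl, ?_⟩, ?_, ?_⟩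
      · show (mA false + r / 2 * HB) * q0 + (mA true + r / 2 * HB) * q1 +
          (mB false + r / 2 * HA) * q2 + (mB true + r / 2 * HA) * q3 ≤ 0
        have k1 := mul_le_mul_of_nonneg_left hA (mul_nonneg (by linarith : 0 ≤ r / 2) h2)
        have k2 := mul_le_mul_of_nonneg_left hB (mul_nonneg (by linarith : 0 ≤ r / 2) h1)
        have e1 : r / 2 * HB * (r * HA) = HA * HB := by linear_combination HA * HB / 2 * hr
        have e2 : r / 2 * HA * (r * HB) = HA * HB := by linear_combination HA * HB / 2 * hr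
        rw [e1] at k1
        rw [e2] at k2
        linarith
      · show mA i + r / 2 * HB ≤ UA i
        have := mul_nonneg (by linarith : 0 ≤ r / 2) (le_max_right HB 0)
        linarith [hUA i]
      · show mB i + r / 2 * HA ≤ UB i
        have := mul_nonneg (by linarith : 0 ≤ r / 2) (le_max_right HA 0)
        linarith [hUB i]
      · show sA ≤ mA false + r / 2 * HB + (mA true + r / 2 * HB)
        have := mul_nonneg (by linarith : 0 ≤ r / 2) h2
        linarith
      · show sB ≤ mB false + r / 2 * HA + (mB true + r / 2 * HA)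
        have := mul_nonneg (by linarith : 0 ≤ r / 2) h1
        linarith

/-! ### the coupling -/

section int
variable {φ : ℝ → ℝ} {a : Fin 4 → E3} {K : Set E3} {σ : Measure (E3 × E3)} [IsFiniteMeasure σ]

/-- the numbers of the pairs: caps `U`, lower bounds `L`, sum numbers `s`, normalisation `M` -/
structure JN (φ : ℝ → ℝ) (σ : Measure (E3 × E3)) (a : Fin 4 → E3) (M : Fin 3 → ℝ)
    (U L : Fin 3 → Bool → Bool → ℝ) (s : Fin 3 → Bool → ℝ) : Prop where
  pos : ∀ m, 0 < M m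
  up : ∀ m e i, mX φ σ a m e i + √2 / 2 * pp (pH φ σ (ap a m (!e))) ≤ U m e i
  le : ∀ m e i, U m e i ≤ M m
  low : ∀ m e i, L m e i ≤ mX φ σ a m e i
  nn : ∀ m e i, 0 ≤ L m e i
  mass : ∀ m e, s m e ≤ p0 φ σ (ap a m (!e))
  sum : ∀ m e i, s m e ≤ U m e i + L m e (!i)

/-- **one pair** -/
theorem jt_pair (hφ : Prof φ) (hP : PM K σ) (ha : ∀ i j, i ≠ j → dist (a i) (a j) = 1)
    (hd : ∀ x ∈ K, ∀ y ∈ K, ‖x - y‖ ≤ 1) (hp : ∀ x ∈ K, Pl a x)
    (hS : ∀ j, ∀ q ∈ K, Qv a j q ≤ 0.12) {M : Fin 3 → ℝ} {U L : Fin 3 → Bool → Bool → ℝ}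
    {s : Fin 3 → Bool → ℝ} (hN : JN φ σ a M U L s) (m : Fin 3)
    {B : Bool → OrthonormalBasis (Fin 3) ℝ E3} (hB : ∀ e, Fr (ap a m e) (B e)) :
    ∃ κ κ1 : Bool → Bool → ℝ,
      (∀ e i, 0 ≤ κ1 e i ∧ κ1 e i ≤ κ e i ∧ κ e i ≤ 1) ∧
      (∀ e i, L m e i ≤ κ1 e i * M m ∧ κ1 e i * M m ≤ U m e i) ∧
      (∀ e, s m e ≤ (κ1 e false + κ1 e true) * M m) ∧
      (∀ e i i', (1 - κ e i) * mX φ σ a m (!e) i' ≤ (1 - κ1 e i) * (κ1 (!e) i' * M m)) ∧
      -(∑ e, ∑ i, gP φ σ a (κ e i) m e i) ≤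
        TE (B false) (cen a) σ + TE (B true) (cen a) σ := by
  have hM := hN.pos m
  have hU0 : ∀ e i, L m e i ≤ U m e i := fun e i => by
    have h1 := hN.up m e i
    have h2 := hN.low m e i
    have h3 : 0 ≤ √2 / 2 * pp (pH φ σ (ap a m (!e))) :=
      mul_nonneg (by positivity) (pp_nonneg _)
    linarith
  by_cases hc : pQ φ σ (ap a m false) 0 + pQ φ σ (ap a m false) 1 ≤ 0 ∧
      pQ φ σ (ap a m true) 0 + pQ φ σ (ap a m true) 1 ≤ 0
  · refine ⟨fun _ _ => 1, fun e i => U m e i / M m, fun e i => ⟨?_, ?_, le_rfl⟩,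
      fun e i => ?_, fun e => ?_, fun e i i' => ?_, ?_⟩
    · exact div_nonneg ((hN.nn m e i).trans (hU0 e i)) hM.le
    · exact (div_le_one hM).2 (hN.le m e i)
    · rw [div_mul_cancel₀ _ hM.ne']
      exact ⟨hU0 e i, le_rfl⟩
    · have h1 := hN.sum m e false
      have h2 := hU0 e true
      rw [Bool.not_false] at h1
      rw [← add_div, div_mul_cancel₀ _ hM.ne']
      linarith
    · have h1 : U m e i / M m ≤ 1 := (div_le_one hM).2 (hN.le m e i)
      have h2 : 0 ≤ U m (!e) i' / M m * M m := by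
        rw [div_mul_cancel₀ _ hM.ne']
        exact (hN.nn m (!e) i').trans (hU0 (!e) i')
      have h3 := mul_nonneg (sub_nonneg.2 h1) h2
      rw [sub_self, zero_mul]
      exact h3
    · have h := te_pairp_w hφ.cont hP ha m hB hM (w := fun _ _ => M m) (by
        simp only [Fintype.sum_bool, if_true, Bool.false_eq_true, if_false]
        nlinarith [mul_le_mul_of_nonneg_left hc.1 hM.le, mul_le_mul_of_nonneg_left hc.2 hM.le])
      have e : M m / M m = 1 := div_self hM.ne'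
      simpa only [e] using h
  · have hg : ∀ e, Gram4 (al (ap a m e)) := fun e => gram_of_dist (hap ha m e)
    have hpl : ∀ e, ∀ x ∈ K, Pl (ap a m e) x := fun e x hx => Pl_perm (pr m e) (hp x hx)
    have key := cplp hφ.cont hφ.cont hφ.nn hφ.nn (hg false) hP.cpt hd (hpl false) hP.mem
    rw [← ap_mir a m] at key
    have hC : ∀ e, pQ φ σ (ap a m e) 0 + pQ φ σ (ap a m e) 1 ≤ √2 * pH φ σ (ap a m e) :=
      fun e => Helper22.Cpd.pQ_pH hφ (hg e) hP.cpt (hpl e) hP.mem
        (fun j q hq => hS (pf m e j) q hq)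
    have hx : ∀ e i, mX φ σ a m e i = mp φ σ a m e i + √2 / 2 * pH φ σ (ap a m (!e)) :=
      fun e i => mX_eq hφ ha hP.cpt hP.mem m e i
    have hms : ∀ e, mp φ σ a m e false + mp φ σ a m e true = p0 φ σ (ap a m (!e)) := fun e => by
      unfold mp
      simp only [Bool.false_eq_true, if_false, if_true]
      ring
    have s2 := s2s
    obtain ⟨wA, wB, k1, k2, k3, k4, k5⟩ := pair_w (r := √2) (HA := pH φ σ (ap a m false))
      (HB := pH φ σ (ap a m true)) (q0 := pQ φ σ (ap a m false) 0)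
      (q1 := pQ φ σ (ap a m false) 1) (q2 := pQ φ σ (ap a m true) 0)
      (q3 := pQ φ σ (ap a m true) 1) (mA := mp φ σ a m false) (mB := mp φ σ a m true)
      (UA := U m false) (UB := U m true) (LA := L m false) (LB := L m true)
      (sA := s m false) (sB := s m true) s2 (by positivity) (by
        unfold mp
        simp only [Bool.not_false, Bool.not_true, if_true, Bool.false_eq_true, if_false]
        linarith) (hC false) (hC true) hc
      (fun i => by
        have h1 := hN.up m false i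
        rw [hx] at h1
        exact h1)
      (fun i => by
        have h1 := hN.up m true i
        rw [hx] at h1
        exact h1)
      (fun i => by
        have h1 := hN.low m false i
        rw [hx] at h1
        exact h1)
      (fun i => by
        have h1 := hN.low m true i
        rw [hx] at h1
        exact h1)
      (by rw [hms]; exact hN.mass m false) (by rw [hms]; exact hN.mass m true)
      (fun i => hN.sum m false i) (fun i => hN.sum m true i)
    obtain ⟨w, hw⟩ : ∃ w : Bool → Bool → ℝ, w = fun e => if e then wB else wA := ⟨_, rfl⟩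
    have wf : w false = wA := by rw [hw]; rfl
    have wt' : w true = wB := by rw [hw]; rfl
    have hwX : ∀ e i, mX φ σ a m e i ≤ w e i ∧ w e i ≤ U m e i := by
      intro e i
      rw [hx]
      cases e
      · rw [wf]; exact k2 i
      · rw [wt']; exact k3 i
    have hws : ∀ e, s m e ≤ w e false + w e true := by
      intro e
      cases e
      · rw [wf]; exact k4
      · rw [wt']; exact k5
    have hle1 : ∀ e i, w e i / M m ≤ 1 := fun e i =>
      (div_le_one hM).2 ((hwX e i).2.trans (hN.le m e i))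
    have hge0 : ∀ e i, 0 ≤ w e i / M m := fun e i =>
      div_nonneg (((hN.nn m e i).trans (hN.low m e i)).trans (hwX e i).1) hM.le
    refine ⟨fun e i => w e i / M m, fun e i => w e i / M m,
      fun e i => ⟨hge0 e i, le_rfl, hle1 e i⟩, fun e i => ?_, fun e => ?_, fun e i i' => ?_, ?_⟩
    · rw [div_mul_cancel₀ _ hM.ne']
      exact ⟨(hN.low m e i).trans (hwX e i).1, (hwX e i).2⟩
    · rw [← add_div, div_mul_cancel₀ _ hM.ne']
      exact hws e
    · rw [div_mul_cancel₀ _ hM.ne']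
      exact mul_le_mul_of_nonneg_left (hwX (!e) i').1 (sub_nonneg.2 (hle1 e i))
    · refine te_pairp_w hφ.cont hP ha m hB hM (w := w) ?_
      simp only [Fintype.sum_bool, if_true, Bool.false_eq_true, if_false]
      rw [wf, wt']
      linarith

/-- **joint form of the coupling**: coefficients `κ` with `TL` and `ε = 0`, and a point `κ₁` of
the polygon of the numbers which bounds the arcs -/
theorem jt (hφ : Prof φ) (hP : PM K σ) (ha : ∀ i j, i ≠ j → dist (a i) (a j) = 1)
    (hd : ∀ x ∈ K, ∀ y ∈ K, ‖x - y‖ ≤ 1) (hp : ∀ x ∈ K, Pl a x)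
    (hS : ∀ j, ∀ q ∈ K, Qv a j q ≤ 0.12) {M : Fin 3 → ℝ} {U L : Fin 3 → Bool → Bool → ℝ}
    {s : Fin 3 → Bool → ℝ} (hN : JN φ σ a M U L s)
    {B : Fin 3 → Bool → OrthonormalBasis (Fin 3) ℝ E3}
    (hB : ∀ m e, Fr (fun i => a (pr m e i)) (B m e)) :
    ∃ κ κ1 : Fin 3 → Bool → Bool → ℝ,
      (∀ m e i, 0 ≤ κ1 m e i ∧ κ1 m e i ≤ κ m e i ∧ κ m e i ≤ 1) ∧
      (∀ m e i, L m e i ≤ κ1 m e i * M m ∧ κ1 m e i * M m ≤ U m e i) ∧
      (∀ m e, s m e ≤ (κ1 m e false + κ1 m e true) * M m) ∧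
      (∀ m e i i', (1 - κ m e i) * mX φ σ a m (!e) i' ≤
        (1 - κ1 m e i) * (κ1 m (!e) i' * M m)) ∧
      TL σ a B (l3 φ κ a) 0 := by
  choose κ κ1 h1 h2 h3 h4 h5 using fun m => jt_pair hφ hP ha hd hp hS hN m (B := B m) (hB m)
  refine ⟨κ, κ1, h1, h2, h3, h4, ?_⟩
  have h0 := TL_pairs (σ := σ) (a := a) (B := B) (l := l3 φ κ a)
    (εm := fun _ => 0) (fun m => by
      have g1 := h5 m
      have g2 := gP_le (κ := κ) (a := a) hφ hP.cpt hP.mem m false
      have g3 := gP_le (κ := κ) (a := a) hφ hP.cpt hP.mem m true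
      simp only [Fintype.sum_bool] at g1
      linarith)
  exact h0.mono (by norm_num)

/-- **moment of an arc at the end of the opposite edge**, joint form -/
theorem sM_jt (hφ : Prof φ) (ha : ∀ i j, i ≠ j → dist (a i) (a j) = 1)
    {κ κ1 : Fin 3 → Bool → Bool → ℝ} {M : Fin 3 → ℝ}
    (h1 : ∀ m e i, 0 ≤ κ1 m e i ∧ κ1 m e i ≤ κ m e i ∧ κ m e i ≤ 1)
    (h4 : ∀ m e i i', (1 - κ m e i) * mX φ σ a m (!e) i' ≤
        (1 - κ1 m e i) * (κ1 m (!e) i' * M m))
    (hK : IsCompact K) (hσ : ∀ᵐ z ∂σ, z.1 ∈ K ∧ z.2 ∈ K) (hp : ∀ x ∈ K, Pl a x)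
    (m : Fin 3) (e i i' : Bool) {ρ T : ℝ}
    (hρ : ∫ z in EE a m e, (wt (ap a m e) i z.1 - 1 / 2 * dp φ (ap a m e) z) *
          bar a (vx m (!e) i') z.2 ∂σ ≤ ρ)
    (hT : ∫ z in EE a m e, wt (ap a m e) i z.1 * pp (-bar a (vx m (!e) i') z.2) ∂σ ≤ T) :
    pp (sM σ a (l3 φ κ a) m e i (vx m (!e) i')) ≤
      ρ + T + (1 - κ1 m e i) * κ1 m (!e) i' * (M m / 2) := by
  have g0 : ∀ m e i, 0 ≤ κ m e i := fun m e i => (h1 m e i).1.trans (h1 m e i).2.1
  have key := Helper21.JMom.sM3_X (κ := κ) hφ ha g0 (fun m e i => (h1 m e i).2.2) hK hσ hp m e i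
    i' 1 (κ' := 0) (g0 m e i)
  have e0 : ∀ z : E3 × E3, wrt φ 0 (ap a m e) i z.1 = wt (ap a m e) i z.1 := fun z => by
    rw [wrt_dp]; ring
  simp only [e0] at key
  have h2 := h4 m e i i'
  have e2 : mX φ σ a m (!e) i' =
      ∫ z in EE a m e, dp φ (ap a m e) z * bar a (vx m (!e) i') z.2 ∂σ := by
    unfold mX
    rw [Bool.not_not]
  rw [e2] at h2
  linarith

end int

end Helper95.MEI.Jt
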