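import Pool.Agent.Helper95.MEI.Jt

/-!
# Project MEI (M2), TEAM TC: joint form of the coupling without lower bounds of the moments

`JL`: caps `U ≤ k₁ M`, masses `s` (`s ≤ U`), optional lower bounds `L ≤ X⁺` (`L = 0` allowed).
`jt2`: conclusion of `Jt.jt` with `κ ≤ k₁`.  When the sum of all four levels is not positive
every coefficient is `k₁`; a negative moment forces one end to be at its maximum.
-/

set_option autoImplicit false

namespace Helper95.MEI.Jt

open Set Metric MeasureTheory Helper80.CW Helper14.CW Helper14.MEI2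
open Helper93.MEI Helper37.MEI Helper41.MEI Helper78.MEI
open Helper49.Cpl Helper22.Cpd
open Helper22.Sgn (gL TE_sgn)
open Helper95.MEI.Hc (te_pairp_w)
open Pool.Agent.Helper73.MEI (PM TE TE_exc pf pr pr_apply pf_bij)
open Pool.Agent.Helper95.MEI.Fub (Zp exc eX_cont eY_cont eW_cont Qv_cont pp_cont
  int_cont Zp_meas)
open scoped RealInnerProductSpace Real

/-! ### the algebra of a pair -/

/-- one height moment negative, moments of the second cell nonnegative -/
theorem neg_a {HA HB q0 q1 q2 q3 r M : ℝ} (hr : r * r = 2) (hr0 : 0 < r)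
    {mA mB : Bool → ℝ}
    (key : mA false * q0 + mA true * q1 + mB false * q2 + mB true * q3 + 2 * (HA * HB) ≤ 0)
    (hA : q0 + q1 ≤ r * HA) (h1 : HA < 0) (h2 : 0 < q2 + q3) (hHB : 0 < HB)
    (hmA : ∀ i, 0 ≤ mA i)
    (hUA : ∀ i, mA i + r * HB ≤ M) (hUB : ∀ i, mB i + r / 2 * HA ≤ M)
    (hX : ∀ i, 0 ≤ mB i + r / 2 * HA) :
    ∃ wA wB : Bool → ℝ,
      wA false * q0 + wA true * q1 + wB false * q2 + wB true * q3 ≤ 0 ∧
      (∀ i, mA i + r / 2 * HB ≤ wA i ∧ 0 ≤ wA i ∧ wA i ≤ M) ∧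
      (∀ i, mB i + r / 2 * HA ≤ wB i ∧ 0 ≤ wB i ∧ wB i ≤ M) ∧
      ((∃ i, M ≤ wA i) ∨ mA false + mA true ≤ wA false + wA true) ∧
      ((∃ i, M ≤ wB i) ∨ mB false + mB true ≤ wB false + wB true) := by
  have hrB : 0 < r * HB := mul_pos hr0 hHB
  obtain ⟨d, hd⟩ : ∃ d : ℝ, d = max 0 (max (mB false - M) (mB true - M)) := ⟨_, rfl⟩
  have d0 : 0 ≤ d := hd ▸ le_max_left _ _
  have dF : mB false - M ≤ d := hd ▸ (le_max_left _ _).trans (le_max_right _ _)
  have dT : mB true - M ≤ d := hd ▸ (le_max_right _ _).trans (le_max_right _ _)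
  have uF := hUB false
  have uT := hUB true
  have dU : d ≤ -(r / 2 * HA) := by
    rw [hd]
    refine max_le ?_ (max_le (by linarith) (by linarith))
    have : r / 2 * HA ≤ 0 := mul_nonpos_of_nonneg_of_nonpos (by linarith) h1.le
    linarith
  refine ⟨fun i => mA i + r * HB, fun i => mB i - d, ?_, fun i => ⟨?_, ?_, ?_⟩,
    fun i => ⟨?_, ?_, ?_⟩, Or.inr ?_, ?_⟩
  · show (mA false + r * HB) * q0 + (mA true + r * HB) * q1 + (mB false - d) * q2 +
      (mB true - d) * q3 ≤ 0
    have k1 := mul_le_mul_of_nonneg_left hA hrB.le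
    have k2 := mul_nonneg d0 h2.le
    have e : r * HB * (r * HA) = 2 * (HA * HB) := by
      linear_combination HA * HB * hr
    rw [e] at k1
    linarith
  · show mA i + r / 2 * HB ≤ mA i + r * HB
    linarith
  · show 0 ≤ mA i + r * HB
    linarith [hmA i]
  · exact hUA i
  · show mB i + r / 2 * HA ≤ mB i - d
    linarith
  · show 0 ≤ mB i - d
    linarith [hX i]
  · show mB i - d ≤ M
    cases i
    · linarith
    · linarith
  · show mA false + mA true ≤ mA false + r * HB + (mA true + r * HB)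
    linarith
  · rcases max_choice 0 (max (mB false - M) (mB true - M)) with h | h
    · refine Or.inr ?_
      rw [h] at hd
      show mB false + mB true ≤ mB false - d + (mB true - d)
      rw [hd]
      linarith
    · rw [h] at hd
      rcases max_choice (mB false - M) (mB true - M) with h' | h'
      · refine Or.inl ⟨false, ?_⟩
        rw [h'] at hd
        show M ≤ mB false - d
        linarith
      · refine Or.inl ⟨true, ?_⟩
        rw [h'] at hd
        show M ≤ mB true - d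
        linarith

/-- one height moment negative, a moment of the second cell negative (the number `c`) -/
theorem neg_b {HA HB q0 q1 p q r M : ℝ} (hr : r * r = 2) (hr0 : 0 < r)
    {mA : Bool → ℝ} {n c : ℝ}
    (key : mA false * q0 + mA true * q1 + n * p + c * q + 2 * (HA * HB) ≤ 0)
    (hA : q0 + q1 ≤ r * HA) (hB : p + q ≤ r * HB) (h1 : HA < 0)
    (hHB : -HA < HB) (hmA : ∀ i, 0 ≤ mA i) (hn : 0 ≤ n) (hc : 0 ≤ c)
    (hUA : ∀ i, mA i + r * HB ≤ M) (hUB : n + r / 2 * HA ≤ M)
    (hX : c + r / 2 * HA < 0) :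
    ∃ wA : Bool → ℝ, ∃ u v : ℝ,
      wA false * q0 + wA true * q1 + u * p + v * q ≤ 0 ∧
      (∀ i, mA i + r / 2 * HB ≤ wA i ∧ 0 ≤ wA i ∧ wA i ≤ M) ∧
      (n + r / 2 * HA ≤ u ∧ 0 ≤ u ∧ u ≤ M) ∧ (c + r / 2 * HA ≤ v ∧ 0 ≤ v ∧ v ≤ M) ∧
      ((∃ i, M ≤ wA i) ∨ mA false + mA true ≤ wA false + wA true) ∧
      (M ≤ u ∨ n + c ≤ u + v) := by
  have hB0 : 0 < HB := by linarith
  have hrB : 0 < r * HB := mul_pos hr0 hB0
  have hrA : 0 < r * -HA := mul_pos hr0 (by linarith)
  have hBM : r * HB ≤ M := by linarith [hUA false, hmA false]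
  have hAB : r * -HA < r * HB := mul_lt_mul_of_pos_left hHB hr0
  have hcM : c ≤ M := by linarith
  have hM0 : 0 ≤ M := hrB.le.trans hBM
  rcases le_or_gt p 0 with hp | hp
  · refine ⟨fun _ => M, M, c, ?_, fun i => ⟨?_, hM0, le_rfl⟩, ⟨hUB, hM0, le_rfl⟩,
      ⟨by linarith, hc, hcM⟩, Or.inl ⟨false, le_rfl⟩, Or.inl le_rfl⟩
    · show M * q0 + M * q1 + M * p + c * q ≤ 0
      have k1 := mul_le_mul_of_nonneg_left hA hM0
      -- `c q ≤ c (r HB) + c (-p)`
      have k2 := mul_le_mul_of_nonneg_left hB hc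
      have k3 := mul_nonneg (sub_nonneg.2 hcM) (by linarith : 0 ≤ -p)
      -- `c (r HB) ≤ (r/2) (-HA) (r HB) = (-HA) HB`
      have k4 := mul_le_mul_of_nonneg_right (by linarith : c ≤ r / 2 * -HA) hrB.le
      have e4 : r / 2 * -HA * (r * HB) = -HA * HB := by
        linear_combination (-HA * HB / 2) * hr
      rw [e4] at k4
      -- `(-HA) HB ≤ M (r (-HA))`
      have k5 : -HA * HB ≤ M * (r * -HA) := by
        have k6 : -HA * (r * HB) ≤ -HA * M := mul_le_mul_of_nonneg_left hBM (by linarith)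
        have k7 : r * (-HA * (r * HB)) ≤ r * (-HA * M) := mul_le_mul_of_nonneg_left k6 hr0.le
        have e7 : r * (-HA * (r * HB)) = 2 * (-HA * HB) := by
          linear_combination (-HA * HB) * hr
        rw [e7] at k7
        have k8 : 0 ≤ -HA * HB := mul_nonneg (by linarith) hB0.le
        linarith
      linarith
    · have := hUA i
      linarith
  · refine ⟨fun i => mA i + r * HB, min n M, c, ?_, fun i => ⟨?_, ?_, hUA i⟩,
      ⟨le_min ?_ hUB, le_min hn hM0, min_le_right _ _⟩, ⟨by linarith, hc, hcM⟩, Or.inr ?_, ?_⟩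
    · show (mA false + r * HB) * q0 + (mA true + r * HB) * q1 + min n M * p + c * q ≤ 0
      have k1 := mul_le_mul_of_nonneg_left hA hrB.le
      have k2 := mul_le_mul_of_nonneg_right (min_le_left n M) hp.le
      have e : r * HB * (r * HA) = 2 * (HA * HB) := by
        linear_combination HA * HB * hr
      rw [e] at k1
      linarith
    · show mA i + r / 2 * HB ≤ mA i + r * HB
      linarith
    · show 0 ≤ mA i + r * HB
      linarith [hmA i]
    · have : r / 2 * HA ≤ 0 := by linarith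
      linarith
    · show mA false + mA true ≤ mA false + r * HB + (mA true + r * HB)
      linarith
    · rcases min_choice n M with h | h
      · rw [h]
        exact Or.inr le_rfl
      · rw [h]
        exact Or.inl le_rfl

/-- one height moment negative -/
theorem neg_ab {HA HB q0 q1 q2 q3 r M : ℝ} (hr : r * r = 2) (hr0 : 0 < r)
    {mA mB : Bool → ℝ}
    (key : mA false * q0 + mA true * q1 + mB false * q2 + mB true * q3 + 2 * (HA * HB) ≤ 0)
    (hA : q0 + q1 ≤ r * HA) (hB : q2 + q3 ≤ r * HB) (h1 : HA < 0)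
    (hn : 0 < q0 + q1 + (q2 + q3)) (hmA : ∀ i, 0 ≤ mA i) (hmB : ∀ i, 0 ≤ mB i)
    (hUA : ∀ i, mA i + r / 2 * HB + r / 2 * max HB 0 ≤ M)
    (hUB : ∀ i, mB i + r / 2 * HA + r / 2 * max HA 0 ≤ M) :
    ∃ wA wB : Bool → ℝ,
      wA false * q0 + wA true * q1 + wB false * q2 + wB true * q3 ≤ 0 ∧
      (∀ i, mA i + r / 2 * HB ≤ wA i ∧ 0 ≤ wA i ∧ wA i ≤ M) ∧
      (∀ i, mB i + r / 2 * HA ≤ wB i ∧ 0 ≤ wB i ∧ wB i ≤ M) ∧
      ((∃ i, M ≤ wA i) ∨ mA false + mA true ≤ wA false + wA true) ∧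
      ((∃ i, M ≤ wB i) ∨ mB false + mB true ≤ wB false + wB true) := by
  have hrA : r * HA < 0 := mul_neg_of_pos_of_neg hr0 h1
  have hB' : -(r * HA) < r * HB := by linarith
  have hHB : -HA < HB := by
    by_contra hc
    push Not at hc
    have := mul_le_mul_of_nonneg_left hc hr0.le
    linarith
  have hHB0 : 0 < HB := by linarith
  have hm : max HB 0 = HB := max_eq_left hHB0.le
  have hm2 : max HA 0 = 0 := max_eq_right h1.le
  rw [hm2, mul_zero] at hUB
  rw [hm] at hUA
  have hUA' : ∀ i, mA i + r * HB ≤ M := fun i => by linarith [hUA i]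
  have hUB' : ∀ i, mB i + r / 2 * HA ≤ M := fun i => by linarith [hUB i]
  by_cases hXf : mB false + r / 2 * HA < 0
  · obtain ⟨wA, u, v, k1, k2, k3, k4, k5, k6⟩ := neg_b (HA := HA) (HB := HB) (q0 := q0)
      (q1 := q1) (p := q3) (q := q2) (M := M) (mA := mA) (n := mB true) (c := mB false) hr hr0
      (by linarith) hA (by linarith) h1 hHB hmA (hmB true) (hmB false) hUA' (hUB' true) hXf
    refine ⟨wA, fun i => if i then u else v, ?_, k2, fun i => ?_, k5, ?_⟩
    · simp only [if_true, Bool.false_eq_true, if_false]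
      linarith
    · cases i
      · simp only [Bool.false_eq_true, if_false]; exact k4
      · simp only [if_true]; exact k3
    · simp only [if_true, Bool.false_eq_true, if_false]
      rcases k6 with h | h
      · exact Or.inl ⟨true, by simpa using h⟩
      · exact Or.inr (by linarith)
  by_cases hXt : mB true + r / 2 * HA < 0
  · obtain ⟨wA, u, v, k1, k2, k3, k4, k5, k6⟩ := neg_b (HA := HA) (HB := HB) (q0 := q0)
      (q1 := q1) (p := q2) (q := q3) (M := M) (mA := mA) (n := mB false) (c := mB true) hr hr0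
      (by linarith) hA (by linarith) h1 hHB hmA (hmB false) (hmB true) hUA' (hUB' false) hXt
    refine ⟨wA, fun i => if i then v else u, ?_, k2, fun i => ?_, k5, ?_⟩
    · simp only [if_true, Bool.false_eq_true, if_false]
      linarith
    · cases i
      · simp only [Bool.false_eq_true, if_false]; exact k3
      · simp only [if_true]; exact k4
    · simp only [if_true, Bool.false_eq_true, if_false]
      rcases k6 with h | h
      · exact Or.inl ⟨false, by simpa using h⟩
      · exact Or.inr (by linarith)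
  refine neg_a hr hr0 key hA h1 (by linarith) hHB0 hmA hUA' hUB' fun i => ?_
  cases i
  · exact not_lt.1 hXf
  · exact not_lt.1 hXt

/-- **weights of a pair**, not all equal -/
theorem pair_w2 {HA HB q0 q1 q2 q3 r M : ℝ} (hr : r * r = 2) (hr0 : 0 < r)
    {mA mB : Bool → ℝ}
    (key : mA false * q0 + mA true * q1 + mB false * q2 + mB true * q3 + 2 * (HA * HB) ≤ 0)
    (hA : q0 + q1 ≤ r * HA) (hB : q2 + q3 ≤ r * HB)
    (hn : 0 < q0 + q1 + (q2 + q3)) (hmA : ∀ i, 0 ≤ mA i) (hmB : ∀ i, 0 ≤ mB i)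
    (hUA : ∀ i, mA i + r / 2 * HB + r / 2 * max HB 0 ≤ M)
    (hUB : ∀ i, mB i + r / 2 * HA + r / 2 * max HA 0 ≤ M) :
    ∃ wA wB : Bool → ℝ,
      wA false * q0 + wA true * q1 + wB false * q2 + wB true * q3 ≤ 0 ∧
      (∀ i, mA i + r / 2 * HB ≤ wA i ∧ 0 ≤ wA i ∧ wA i ≤ M) ∧
      (∀ i, mB i + r / 2 * HA ≤ wB i ∧ 0 ≤ wB i ∧ wB i ≤ M) ∧
      ((∃ i, M ≤ wA i) ∨ mA false + mA true ≤ wA false + wA true) ∧
      ((∃ i, M ≤ wB i) ∨ mB false + mB true ≤ wB false + wB true) := by
  rcases lt_or_ge HA 0 with h1 | h1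
  · exact neg_ab hr hr0 key hA hB h1 hn hmA hmB hUA hUB
  · rcases lt_or_ge HB 0 with h2 | h2
    · obtain ⟨wB, wA, k1, k2, k3, k4, k5⟩ := neg_ab (HA := HB) (HB := HA) (q0 := q2) (q1 := q3)
        (q2 := q0) (q3 := q1) (mA := mB) (mB := mA) (M := M) hr hr0 (by linarith) hB hA h2
        (by linarith) hmB hmA hUB hUA
      exact ⟨wA, wB, by linarith, k3, k2, k5, k4⟩
    · have hrB := mul_nonneg (by linarith : 0 ≤ r / 2) h2
      have hrA := mul_nonneg (by linarith : 0 ≤ r / 2) h1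
      refine ⟨fun i => mA i + r / 2 * HB, fun i => mB i + r / 2 * HA, ?_,
        fun i => ⟨le_rfl, ?_, ?_⟩, fun i => ⟨le_rfl, ?_, ?_⟩, Or.inr ?_, Or.inr ?_⟩
      · show (mA false + r / 2 * HB) * q0 + (mA true + r / 2 * HB) * q1 +
          (mB false + r / 2 * HA) * q2 + (mB true + r / 2 * HA) * q3 ≤ 0
        have k1 := mul_le_mul_of_nonneg_left hA hrB
        have k2 := mul_le_mul_of_nonneg_left hB hrA
        have e1 : r / 2 * HB * (r * HA) = HA * HB := by linear_combination HA * HB / 2 * hr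
        have e2 : r / 2 * HA * (r * HB) = HA * HB := by linear_combination HA * HB / 2 * hr
        rw [e1] at k1
        rw [e2] at k2
        linarith
      · show 0 ≤ mA i + r / 2 * HB
        linarith [hmA i]
      · show mA i + r / 2 * HB ≤ M
        have := mul_nonneg (by linarith : 0 ≤ r / 2) (le_max_right HB 0)
        linarith [hUA i]
      · show 0 ≤ mB i + r / 2 * HA
        linarith [hmB i]
      · show mB i + r / 2 * HA ≤ M
        have := mul_nonneg (by linarith : 0 ≤ r / 2) (le_max_right HA 0)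
        linarith [hUB i]
      · show mA false + mA true ≤ mA false + r / 2 * HB + (mA true + r / 2 * HB)
        linarith
      · show mB false + mB true ≤ mB false + r / 2 * HA + (mB true + r / 2 * HA)
        linarith

/-! ### the coupling -/

section int
variable {φ : ℝ → ℝ} {a : Fin 4 → E3} {K : Set E3} {σ : Measure (E3 × E3)} [IsFiniteMeasure σ]

/-- the numbers of the pairs: caps `U`, optional lower bounds `L` of `X⁺` (`0` allowed), sum
numbers `s`, normalisation `M`, maximal coefficient `k1` -/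
structure JL (φ : ℝ → ℝ) (σ : Measure (E3 × E3)) (a : Fin 4 → E3) (k1 : ℝ) (M : Fin 3 → ℝ)
    (U L : Fin 3 → Bool → Bool → ℝ) (s : Fin 3 → Bool → ℝ) : Prop where
  kpos : 0 < k1
  kle : k1 ≤ 1
  pos : ∀ m, 0 < M m
  up : ∀ m e i, mX φ σ a m e i + √2 / 2 * pp (pH φ σ (ap a m (!e))) ≤ U m e i
  le : ∀ m e i, U m e i ≤ k1 * M m
  nn : ∀ m e i, 0 ≤ U m e i
  low : ∀ m e i, L m e i ≤ pp (mX φ σ a m e i)
  mass : ∀ m e, s m e ≤ p0 φ σ (ap a m (!e))
  sum : ∀ m e i, s m e ≤ U m e i + L m e (!i)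

/-- **one pair** -/
theorem jt2_pair (hφ : Prof φ) (hP : PM K σ) (ha : ∀ i j, i ≠ j → dist (a i) (a j) = 1)
    (hd : ∀ x ∈ K, ∀ y ∈ K, ‖x - y‖ ≤ 1) (hp : ∀ x ∈ K, Pl a x)
    (hS : ∀ j, ∀ q ∈ K, Qv a j q ≤ 0.12) {k1 : ℝ} {M : Fin 3 → ℝ}
    {U L : Fin 3 → Bool → Bool → ℝ}
    {s : Fin 3 → Bool → ℝ} (hN : JL φ σ a k1 M U L s) (m : Fin 3)
    {B : Bool → OrthonormalBasis (Fin 3) ℝ E3} (hB : ∀ e, Fr (ap a m e) (B e)) :
    ∃ κ κ1 : Bool → Bool → ℝ,
      (∀ e i, 0 ≤ κ1 e i ∧ κ1 e i ≤ κ e i ∧ κ e i ≤ k1) ∧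
      (∀ e i, L m e i ≤ κ1 e i * M m ∧ κ1 e i * M m ≤ U m e i) ∧
      (∀ e, s m e ≤ (κ1 e false + κ1 e true) * M m) ∧
      (∀ e i i', (1 - κ e i) * mX φ σ a m (!e) i' ≤ (1 - κ1 e i) * (κ1 (!e) i' * M m)) ∧
      -(∑ e, ∑ i, gP φ σ a (κ e i) m e i) ≤
        TE (B false) (cen a) σ + TE (B true) (cen a) σ := by
  have hM := hN.pos m
  have hkM : 0 < k1 * M m := mul_pos hN.kpos hM
  have hkM1 : k1 * M m ≤ M m := by
    have := mul_le_mul_of_nonneg_right hN.kle hM.le
    linarith
  have hXU : ∀ e i, pp (mX φ σ a m e i) ≤ U m e i := fun e i => by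
    have h1 := hN.up m e i
    have h3 : 0 ≤ √2 / 2 * pp (pH φ σ (ap a m (!e))) :=
      mul_nonneg (by positivity) (pp_nonneg _)
    exact max_le (by linarith) (hN.nn m e i)
  -- it is enough to find weights
  suffices hw : ∃ w : Bool → Bool → ℝ,
      (∑ e, ∑ i, w e i * pQ φ σ (ap a m e) (if i then 1 else 0) ≤ 0) ∧
      (∀ e i, pp (mX φ σ a m e i) ≤ w e i ∧ w e i ≤ k1 * M m) ∧
      (∀ e, (∃ i, k1 * M m ≤ w e i) ∨ p0 φ σ (ap a m (!e)) ≤ w e false + w e true) by
    obtain ⟨w, h1w, k2, k3⟩ := hw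
    have w0 : ∀ e i, 0 ≤ w e i := fun e i => (pp_nonneg _).trans (k2 e i).1
    have hm : ∀ e i, pp (mX φ σ a m e i) ≤ min (w e i) (U m e i) := fun e i =>
      le_min (k2 e i).1 (hXU e i)
    refine ⟨fun e i => w e i / M m, fun e i => min (w e i) (U m e i) / M m,
      fun e i => ⟨?_, ?_, ?_⟩, fun e i => ?_, fun e => ?_, fun e i i' => ?_, ?_⟩
    · exact div_nonneg ((pp_nonneg _).trans (hm e i)) hM.le
    · exact div_le_div_of_nonneg_right (min_le_left _ _) hM.le
    · exact (div_le_iff₀ hM).2 (k2 e i).2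
    · rw [div_mul_cancel₀ _ hM.ne']
      exact ⟨(hN.low m e i).trans (hm e i), min_le_right _ _⟩
    · rw [← add_div, div_mul_cancel₀ _ hM.ne']
      have key : (∃ i, U m e i ≤ w e i) ∨ s m e ≤ w e false + w e true := by
        rcases k3 e with ⟨i, h⟩ | h
        · exact Or.inl ⟨i, (hN.le m e i).trans h⟩
        · exact Or.inr ((hN.mass m e).trans h)
      have g : ∀ i, U m e i ≤ w e i → s m e ≤ min (w e i) (U m e i) +
          min (w e (!i)) (U m e (!i)) := fun i h => by
        rw [min_eq_right h]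
        have h1 := hN.sum m e i
        have h2 := (hN.low m e (!i)).trans (hm e (!i))
        linarith
      by_cases hF : U m e false ≤ w e false
      · have := g false hF
        rw [Bool.not_false] at this
        exact this
      · by_cases hT : U m e true ≤ w e true
        · have := g true hT
          rw [Bool.not_true] at this
          linarith
        · rw [min_eq_left (not_le.1 hF).le, min_eq_left (not_le.1 hT).le]
          rcases key with ⟨i, h⟩ | h
          · cases i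
            · exact absurd h hF
            · exact absurd h hT
          · exact h
    · rw [div_mul_cancel₀ _ hM.ne']
      have h1 : mX φ σ a m (!e) i' ≤ min (w (!e) i') (U m (!e) i') :=
        (le_max_left _ _).trans (hm (!e) i')
      have h2 : 0 ≤ 1 - w e i / M m :=
        sub_nonneg.2 ((div_le_one hM).2 ((k2 e i).2.trans hkM1))
      have h3 : 0 ≤ min (w (!e) i') (U m (!e) i') := (pp_nonneg _).trans (hm (!e) i')
      have h4 : 1 - w e i / M m ≤ 1 - min (w e i) (U m e i) / M m :=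
        sub_le_sub_left (div_le_div_of_nonneg_right (min_le_left _ _) hM.le) 1
      exact (mul_le_mul_of_nonneg_left h1 h2).trans (mul_le_mul_of_nonneg_right h4 h3)
    · exact te_pairp_w hφ.cont hP ha m hB hM (w := w) h1w
  by_cases hc : pQ φ σ (ap a m false) 0 + pQ φ σ (ap a m false) 1 +
      (pQ φ σ (ap a m true) 0 + pQ φ σ (ap a m true) 1) ≤ 0
  · refine ⟨fun _ _ => k1 * M m, ?_, fun e i => ⟨(hXU e i).trans (hN.le m e i), le_rfl⟩,
      fun e => Or.inl ⟨false, le_rfl⟩⟩
    simp only [Fintype.sum_bool, if_true, Bool.false_eq_true, if_false]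
    have := mul_le_mul_of_nonneg_left hc hkM.le
    linarith
  · have hg : ∀ e, Gram4 (al (ap a m e)) := fun e => gram_of_dist (hap ha m e)
    have hpl : ∀ e, ∀ x ∈ K, Pl (ap a m e) x := fun e x hx => Pl_perm (pr m e) (hp x hx)
    have key := cplp hφ.cont hφ.cont hφ.nn hφ.nn (hg false) hP.cpt hd (hpl false) hP.mem
    rw [← ap_mir a m] at key
    have hC : ∀ e, pQ φ σ (ap a m e) 0 + pQ φ σ (ap a m e) 1 ≤ √2 * pH φ σ (ap a m e) :=
      fun e => Helper22.Cpd.pQ_pH hφ (hg e) hP.cpt (hpl e) hP.mem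
        (fun j q hq => hS (pf m e j) q hq)
    have hx : ∀ e i, mX φ σ a m e i = mp φ σ a m e i + √2 / 2 * pH φ σ (ap a m (!e)) :=
      fun e i => mX_eq hφ ha hP.cpt hP.mem m e i
    have hms : ∀ e, mp φ σ a m e false + mp φ σ a m e true = p0 φ σ (ap a m (!e)) := fun e => by
      unfold mp
      simp only [Bool.false_eq_true, if_false, if_true]
      ring
    have hm0 : ∀ e i, 0 ≤ mp φ σ a m e i := fun e i => mp_nonneg hφ ha hP.cpt hP.mem hp m e i
    have s2 := s2s
    obtain ⟨wA, wB, g1, k2, k3, k4, k5⟩ := pair_w2 (r := √2) (M := k1 * M m)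
      (HA := pH φ σ (ap a m false))
      (HB := pH φ σ (ap a m true)) (q0 := pQ φ σ (ap a m false) 0)
      (q1 := pQ φ σ (ap a m false) 1) (q2 := pQ φ σ (ap a m true) 0)
      (q3 := pQ φ σ (ap a m true) 1) (mA := mp φ σ a m false) (mB := mp φ σ a m true)
      s2 (by positivity) (by
        unfold mp
        simp only [Bool.not_false, Bool.not_true, if_true, Bool.false_eq_true, if_false]
        linarith) (hC false) (hC true) (not_le.1 hc) (hm0 false) (hm0 true)
      (fun i => by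
        have h1 := hN.up m false i
        rw [hx] at h1
        exact le_trans h1 (hN.le m false i))
      (fun i => by
        have h1 := hN.up m true i
        rw [hx] at h1
        exact le_trans h1 (hN.le m true i))
    refine ⟨fun e => if e then wB else wA, ?_, fun e i => ?_, fun e => ?_⟩
    · simp only [Fintype.sum_bool, if_true, Bool.false_eq_true, if_false]
      linarith
    · rw [hx]
      cases e
      · simp only [Bool.false_eq_true, if_false]
        exact ⟨max_le (k2 i).1 (k2 i).2.1, (k2 i).2.2⟩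
      · simp only [if_true]
        exact ⟨max_le (k3 i).1 (k3 i).2.1, (k3 i).2.2⟩
    · rw [← hms]
      cases e
      · simp only [Bool.false_eq_true, if_false]
        exact k4
      · simp only [if_true]
        exact k5

/-- **joint form of the coupling**, no lower bounds of the moments needed -/
theorem jt2 (hφ : Prof φ) (hP : PM K σ) (ha : ∀ i j, i ≠ j → dist (a i) (a j) = 1)
    (hd : ∀ x ∈ K, ∀ y ∈ K, ‖x - y‖ ≤ 1) (hp : ∀ x ∈ K, Pl a x)
    (hS : ∀ j, ∀ q ∈ K, Qv a j q ≤ 0.12) {k1 : ℝ} {M : Fin 3 → ℝ}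
    {U L : Fin 3 → Bool → Bool → ℝ}
    {s : Fin 3 → Bool → ℝ} (hN : JL φ σ a k1 M U L s)
    {B : Fin 3 → Bool → OrthonormalBasis (Fin 3) ℝ E3}
    (hB : ∀ m e, Fr (fun i => a (pr m e i)) (B m e)) :
    ∃ κ κ1 : Fin 3 → Bool → Bool → ℝ,
      (∀ m e i, 0 ≤ κ1 m e i ∧ κ1 m e i ≤ κ m e i ∧ κ m e i ≤ k1) ∧
      (∀ m e i, L m e i ≤ κ1 m e i * M m ∧ κ1 m e i * M m ≤ U m e i) ∧
      (∀ m e, s m e ≤ (κ1 m e false + κ1 m e true) * M m) ∧
      (∀ m e i i', (1 - κ m e i) * mX φ σ a m (!e) i' ≤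
        (1 - κ1 m e i) * (κ1 m (!e) i' * M m)) ∧
      TL σ a B (l3 φ κ a) 0 := by
  choose κ κ1 h1 h2 h3 h4 h5 using fun m => jt2_pair hφ hP ha hd hp hS hN m (B := B m) (hB m)
  refine ⟨κ, κ1, h1, h2, h3, h4, ?_⟩
  have h0 := TL_pairs (σ := σ) (a := a) (B := B) (l := l3 φ κ a)
    (εm := fun _ => 0) (fun m => by
      have g1 := h5 m
      have g2 := gP_le (κ := κ) (a := a) hφ hP.cpt hP.mem m false
      have g3 := gP_le (κ := κ) (a := a) hφ hP.cpt hP.mem m true
      simp only [Fintype.sum_bool] at g1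
      linarith)
  exact h0.mono (by norm_num)

end int

end Helper95.MEI.Jt
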