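import Pool.Agent.Helper95.MEI.Jt2
import Pool.Agent.Helper22.MEI.P0
import Pool.Agent.Helper93.MEI.Blk10

/-!
# Project MEI (M2), TEAM TC: the numbers of the joint form, profile `fd = 1 - 7|x|/8`

`Xd θ τ S m e i`: upper bound of the moment `mX fd σ a m e i` (helper53, helper93);
`pH_num`: the positive part of the height moment; `jl_fd`: the structure `JL` with `L = 0`.
-/

set_option autoImplicit false

namespace Helper95.MEI.Jt

open Set Metric MeasureTheory Helper80.CW Helper14.CW Helper14.MEI2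
open Helper93.MEI Helper37.MEI Helper41.MEI Helper78.MEI
open Helper49.Cpl Helper22.Cpd
open Helper53.MEI (fd gp)
open Helper22.P0 (prof_fd dp_fd d0_low TS)
open Helper95.MEI.Hc (pb pH_up)
open Pool.Agent.Helper73.MEI (PM TE TE_exc pf pr pr_apply pf_bij)
open Pool.Agent.Helper95.MEI.Fub (Zp)
open scoped RealInnerProductSpace Real

/-- constant of the upper bound: bulk parameter `θ`, slab parameter `τ` -/
noncomputable def cX (θ τ : ℝ) : ℝ :=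
  0.05955 - (θ * (2 - θ) * 0.006009 + θ ^ 2 * (3 - 2 * θ) * 0.0015555) +
    1.41422 * ((9 / 16 + 7 / 8 * τ) * gp τ)

/-- coefficient of the level of the partner -/
noncomputable def cP (τ : ℝ) : ℝ := 0.4644 - 0.6523 * τ - 0.5073 * τ ^ 2

/-- coefficient of the two levels of the opposite edge -/
noncomputable def cO (θ : ℝ) : ℝ := 0.10255 + 0.036017 * θ + 0.01335 * θ ^ 2

/-- upper bound of the moment of the vertex `(m, e, i)` -/
noncomputable def Xd (θ τ : ℝ) (S : Fin 4 → ℝ) (m : Fin 3) (e i : Bool) : ℝ :=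
  cX θ τ + cP τ * S (vx m e (!i)) + cO θ * (S (vx m (!e) false) + S (vx m (!e) true))

/-- upper bound of the moment plus the positive part of the height moment -/
noncomputable def Ud (r θ τ : ℝ) (S : Fin 4 → ℝ) (m : Fin 3) (e i : Bool) : ℝ :=
  Xd θ τ S m e i + r / 2 * (Xd θ τ S m e false + Xd θ τ S m e true)

/-- the cap is affine in the levels -/
theorem Ud_eq (r θ τ : ℝ) (S : Fin 4 → ℝ) (m : Fin 3) (e i : Bool) :
    Ud r θ τ S m e i = (1 + r) * cX θ τ +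
      cP τ * ((1 + r / 2) * S (vx m e (!i)) + r / 2 * S (vx m e i)) +
      (1 + r) * cO θ * (S (vx m (!e) false) + S (vx m (!e) true)) := by
  unfold Ud Xd
  cases i
  · rw [Bool.not_false, Bool.not_true]
    ring
  · rw [Bool.not_false, Bool.not_true]
    ring

/-- numbers at `θ = 1`, `τ = 0, .05, .1, .15, .2` -/
theorem cX_num : cX 1 0 ≤ 0.051986 ∧ cX 1 (1 / 20) ≤ 0.05203 ∧ cX 1 (1 / 10) ≤ 0.052352 ∧
    cX 1 (3 / 20) ≤ 0.053278 ∧ cX 1 (1 / 5) ≤ 0.055182 := by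
  unfold cX gp
  norm_num

theorem cP_num : cP 0 ≤ 0.4644 ∧ cP (1 / 20) ≤ 0.43052 ∧ cP (1 / 10) ≤ 0.3941 ∧
    cP (3 / 20) ≤ 0.35515 ∧ cP (1 / 5) ≤ 0.31365 := by
  unfold cP
  norm_num

theorem cO_num : cO 1 ≤ 0.15192 := by
  unfold cO
  norm_num

/-- the six vertices of a pair: partner and opposite edge -/
theorem vx_all : ∀ (m : Fin 3) (e i : Bool) (S : Fin 4 → ℝ),
    S (vx m e i) + S (vx m e (!i)) + (S (vx m (!e) false) + S (vx m (!e) true)) =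
      S 0 + S 1 + S 2 + S 3 := by
  intro m e i S
  have h : ∀ (m : Fin 3) (e i : Bool), ∃ p : Equiv.Perm (Fin 4), vx m e i = p 0 ∧
      vx m e (!i) = p 1 ∧ vx m (!e) false = p 2 ∧ vx m (!e) true = p 3 := by decide
  obtain ⟨p, h0, h1, h2, h3⟩ := h m e i
  rw [h0, h1, h2, h3]
  have := Equiv.sum_comp p S
  simp only [Fin.sum_univ_four] at this
  linarith

theorem mX_pb (φ : ℝ → ℝ) (σ : Measure (E3 × E3)) (a : Fin 4 → E3) (m : Fin 3) (e i : Bool) :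
    mX φ σ a m e i = pb φ σ (ap a m (!e)) (if i then 3 else 2) := by
  have k : ∀ j x, bar (ap a m (!e)) j x = bar a (pf m (!e) j) x := fun j x =>
    bar_perm (pr m (!e)) j x
  have hv := vx_opp m e
  unfold mX pb
  cases i
  · rw [hv.1]
    simp only [k]
    rfl
  · rw [hv.2]
    simp only [k]
    rfl

theorem gp_nonneg {τ : ℝ} (h0 : 0 ≤ τ) (h1 : τ ≤ 3 / 10) : 0 ≤ gp τ := Helper53.MEI.gp_bd h0 h1

section int
variable {a : Fin 4 → E3} {K : Set E3} {σ : Measure (E3 × E3)} [IsFiniteMeasure σ]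
  (h : PM K σ) (ha : ∀ i j, i ≠ j → dist (a i) (a j) = 1)
  (hull : ∀ p, (∀ q ∈ K, ‖p - q‖ ≤ 1) → p ∈ K) (hp : ∀ x ∈ K, Pl a x)
  {B : Fin 3 → Bool → OrthonormalBasis (Fin 3) ℝ E3}
  (hB : ∀ m e, Fr (fun i => a (pr m e i)) (B m e)) {S : Fin 4 → ℝ} (hS0 : ∀ i, 0 ≤ S i)
  (hQ : ∀ i, ∀ q ∈ K, Qv a i q ≤ S i)
  {τ : ℝ} (t0 : 0 ≤ τ) (t1 : τ ≤ 3 / 10) {θ : ℝ} (u0 : 0 ≤ θ) (u1 : θ ≤ 1)

include h ha hull hp hB hS0 hQ t0 t1 u0 u1

/-- **upper bound of the moments** -/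
theorem mX_fd_le (m : Fin 3) (e i : Bool) : mX fd σ a m e i ≤ Xd θ τ S m e i := by
  have hv := vx_opp m e
  have g0 := gp_nonneg t0 t1
  have g1 : √2 * ((9 / 16 + 7 / 8 * τ) * gp τ) ≤ 1.41422 * ((9 / 16 + 7 / 8 * τ) * gp τ) :=
    mul_le_mul_of_nonneg_right Helper53.MEI.r2b.2 (mul_nonneg (by positivity) g0)
  unfold Xd cX cP cO mX
  simp only [dp_fd]
  cases i
  · have k := Helper93.MEI.Blk.mom_de2 h ha hull hp hB hS0 hQ m (!e) (k := 2) (k' := 3)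
      (Or.inl ⟨rfl, rfl⟩) t0 t1 u0 u1
    rw [← hv.1, ← hv.2, ← vx_false m (!e), ← vx_true m (!e)] at k
    rw [Bool.not_false]
    linarith
  · have k := Helper93.MEI.Blk.mom_de2 h ha hull hp hB hS0 hQ m (!e) (k := 3) (k' := 2)
      (Or.inr ⟨rfl, rfl⟩) t0 t1 u0 u1
    rw [← hv.1, ← hv.2, ← vx_false m (!e), ← vx_true m (!e)] at k
    rw [Bool.not_true]
    linarith

set_option linter.unusedSectionVars false in
omit [IsFiniteMeasure σ] h ha hull hp hB hQ in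
/-- the bound is nonnegative -/
theorem Xd_nonneg (m : Fin 3) (e i : Bool) : 0 ≤ Xd θ τ S m e i := by
  have g0 := gp_nonneg t0 t1
  have h1 := hS0 (vx m e (!i))
  have h2 := hS0 (vx m (!e) false)
  have h3 := hS0 (vx m (!e) true)
  have e1 : 0 ≤ cX θ τ := by
    have a1 : 0 ≤ 1.41422 * ((9 / 16 + 7 / 8 * τ) * gp τ) := by positivity
    have a2 : θ * (2 - θ) ≤ 1 := by nlinarith [sq_nonneg (1 - θ)]
    have a3 : θ ^ 2 * (3 - 2 * θ) ≤ 1 := by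
      have e : 1 - θ ^ 2 * (3 - 2 * θ) = (1 - θ) ^ 2 * (1 + 2 * θ) := by ring
      have : 0 ≤ (1 - θ) ^ 2 * (1 + 2 * θ) := mul_nonneg (sq_nonneg _) (by linarith)
      linarith
    unfold cX
    linarith
  have e2 : 0 ≤ cP τ := by
    unfold cP
    nlinarith
  have e3 : 0 ≤ cO θ := by
    unfold cO
    positivity
  unfold Xd
  have := mul_nonneg e2 h1
  have := mul_nonneg e3 (add_nonneg h2 h3)
  linarith

/-- **the positive part of the height moment** -/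
theorem pH_num {r T : ℝ} (hT : ∀ i, S i ≤ T) (hr0 : 0 ≤ r) (hr1 : r ≤ 1)
    (hr : (1 - r) ^ 2 * (3 / 2 + 2 * T) ≤ 1) (m : Fin 3) (e : Bool) :
    √2 / 2 * pp (pH fd σ (ap a m (!e))) ≤
      r / 2 * (Xd θ τ S m e false + Xd θ τ S m e true) := by
  have x0 := Xd_nonneg hS0 t0 t1 u0 u1 m e false
  have x1 := Xd_nonneg hS0 t0 t1 u0 u1 m e true
  have k0 := mX_fd_le h ha hull hp hB hS0 hQ t0 t1 u0 u1 m e false
  have k1 := mX_fd_le h ha hull hp hB hS0 hQ t0 t1 u0 u1 m e true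
  rw [mX_pb] at k0 k1
  simp only [Bool.false_eq_true, if_false] at k0
  simp only [if_true] at k1
  exact pH_up prof_fd.cont prof_fd.nn (gram_of_dist (hap ha m (!e))) h.cpt h.mem
    (fun x hx => Pl_perm (pr m (!e)) (hp x hx)) (S := T)
    (fun q hq => (hQ (pf m (!e) 0) q hq).trans (hT _))
    (fun q hq => (hQ (pf m (!e) 1) q hq).trans (hT _)) hr0 hr1 hr k0 k1 (add_nonneg x0 x1)

omit [IsFiniteMeasure σ] h ha hull hp hB hQ t0 t1 u0 u1 in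
/-- one affine normalisation for all pairs, `T1` = the maximal level -/
theorem Ud_le {r T1 : ℝ} (hT : ∀ i, S i ≤ T1) (m : Fin 3) (e i : Bool)
    (hc : (1 + r) * cO θ ≤ (1 + r / 2) * cP τ) (hc2 : r / 2 * cP τ ≤ (1 + r) * cO θ) :
    Ud r θ τ S m e i ≤ (1 + r) * cX θ τ + (1 + r / 2) * cP τ * T1 +
      (1 + r) * cO θ * (S 0 + S 1 + S 2 + S 3 - T1) := by
  have h1 := vx_all m e i S
  have k1 := mul_nonneg (sub_nonneg.2 (hT (vx m e (!i)))) (sub_nonneg.2 hc)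
  have k2 := mul_nonneg (hS0 (vx m e i)) (sub_nonneg.2 hc2)
  rw [Ud_eq, ← h1]
  linarith

/-- **the numbers of the joint form**, general mass row -/
theorem jl_gen {r T : ℝ} (hT : ∀ i, S i ≤ T) (hr0 : 0 ≤ r) (hr1 : r ≤ 1)
    (hr : (1 - r) ^ 2 * (3 / 2 + 2 * T) ≤ 1) {k1 : ℝ} (hk0 : 0 < k1) (hk1 : k1 ≤ 1)
    {M : Fin 3 → ℝ} {U : Fin 3 → Bool → Bool → ℝ} {s : Fin 3 → Bool → ℝ}
    (hM : ∀ m, 0 < M m) (hU : ∀ m e i, Ud r θ τ S m e i ≤ U m e i)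
    (hUM : ∀ m e i, U m e i ≤ k1 * M m)
    (hs : ∀ m e, s m e ≤ p0 fd σ (ap a m (!e))) (hsU : ∀ m e i, s m e ≤ U m e i) :
    JL fd σ a k1 M U (fun _ _ _ => 0) s where
  kpos := hk0
  kle := hk1
  pos := hM
  up m e i := by
    have k1 := mX_fd_le h ha hull hp hB hS0 hQ t0 t1 u0 u1 m e i
    have k2 := pH_num h ha hull hp hB hS0 hQ t0 t1 u0 u1 hT hr0 hr1 hr m e
    have k3 := hU m e i
    unfold Ud at k3
    linarith
  le := hUM
  nn m e i := by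
    have x0 := Xd_nonneg hS0 t0 t1 u0 u1 m e false
    have x1 := Xd_nonneg hS0 t0 t1 u0 u1 m e true
    have x2 := Xd_nonneg hS0 t0 t1 u0 u1 m e i
    have k3 := hU m e i
    unfold Ud at k3
    have := mul_nonneg (by linarith : 0 ≤ r / 2) (add_nonneg x0 x1)
    linarith
  low m e i := pp_nonneg _
  mass := hs
  sum m e i := by
    have := hsU m e i
    linarith

/-- **the numbers of the joint form**, mass row of helper22 -/
theorem jl_fd {r T : ℝ} (hT : ∀ i, S i ≤ T) (hT2 : T ≤ 3 / 20) (hr0 : 0 ≤ r) (hr1 : r ≤ 1)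
    (hr : (1 - r) ^ 2 * (3 / 2 + 2 * T) ≤ 1) {c0 : ℝ} (hc0 : 0 ≤ c0)
    (hc : c0 * (1 + TS T) ≤ 1) {k1 : ℝ} (hk0 : 0 < k1) (hk1 : k1 ≤ 1)
    {M : Fin 3 → ℝ} {U : Fin 3 → Bool → Bool → ℝ} {s : Fin 3 → Bool → ℝ}
    (hM : ∀ m, 0 < M m) (hU : ∀ m e i, Ud r θ τ S m e i ≤ U m e i)
    (hUM : ∀ m e i, U m e i ≤ k1 * M m)
    (hs : ∀ m e, s m e ≤ c0 * (0.08378 - 0.29 * (S (vx m (!e) false) + S (vx m (!e) true))))
    (hsU : ∀ m e i, s m e ≤ U m e i) :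
    JL fd σ a k1 M U (fun _ _ _ => 0) s := by
  refine jl_gen h ha hull hp hB hS0 hQ t0 t1 u0 u1 hT hr0 hr1 hr hk0 hk1 hM hU hUM
    (fun m e => ?_) hsU
  have k := d0_low h ha hull hp hB hS0 hQ m (!e) (s := T) (hT _) (hT _) hT2 hc0 hc
  exact (hs m e).trans k

/-- the same with the caps `Ud` and the sum numbers cut at the caps -/
theorem jl_min {r T : ℝ} (hT : ∀ i, S i ≤ T) (hr0 : 0 ≤ r) (hr1 : r ≤ 1)
    (hr : (1 - r) ^ 2 * (3 / 2 + 2 * T) ≤ 1) {k1 : ℝ} (hk0 : 0 < k1) (hk1 : k1 ≤ 1)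
    {M : Fin 3 → ℝ} {s : Fin 3 → Bool → ℝ}
    (hM : ∀ m, 0 < M m) (hUM : ∀ m e i, Ud r θ τ S m e i ≤ k1 * M m)
    (hs : ∀ m e, s m e ≤ p0 fd σ (ap a m (!e))) :
    JL fd σ a k1 M (Ud r θ τ S) (fun _ _ _ => 0)
      (fun m e => min (s m e) (min (Ud r θ τ S m e false) (Ud r θ τ S m e true))) := by
  refine jl_gen h ha hull hp hB hS0 hQ t0 t1 u0 u1 hT hr0 hr1 hr hk0 hk1 hM
    (fun m e i => le_rfl) hUM (fun m e => (min_le_left _ _).trans (hs m e)) fun m e i => ?_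
  cases i
  · exact (min_le_right _ _).trans (min_le_left _ _)
  · exact (min_le_right _ _).trans (min_le_right _ _)

end int

/-! ### values of the fraction `r` and of the factor `c0` -/

/-- `(1 - r)² (3/2 + 2T) ≤ 1` -/
theorem r_num : (1 - 0.1955 : ℝ) ^ 2 * (3 / 2 + 2 * 0.0225) ≤ 1 ∧
    (1 - 0.1995 : ℝ) ^ 2 * (3 / 2 + 2 * 0.0302) ≤ 1 ∧
    (1 - 0.2072 : ℝ) ^ 2 * (3 / 2 + 2 * 0.0453) ≤ 1 ∧
    (1 - 0.2137 : ℝ) ^ 2 * (3 / 2 + 2 * 0.0585) ≤ 1 ∧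
    (1 - 0.2205 : ℝ) ^ 2 * (3 / 2 + 2 * 0.0725) ≤ 1 ∧
    (1 - 0.2275 : ℝ) ^ 2 * (3 / 2 + 2 * 0.0874) ≤ 1 := by norm_num

/-- `c0 (1 + TS s) ≤ 1` -/
theorem c0_num : (0.891 : ℝ) * (1 + TS 0.0225) ≤ 1 ∧ (0.8855 : ℝ) * (1 + TS 0.0302) ≤ 1 ∧
    (0.875 : ℝ) * (1 + TS 0.0453) ≤ 1 ∧ (0.8655 : ℝ) * (1 + TS 0.0585) ≤ 1 ∧
    (0.8555 : ℝ) * (1 + TS 0.0725) ≤ 1 ∧ (0.8445 : ℝ) * (1 + TS 0.0874) ≤ 1 := by
  unfold TS
  norm_num

end Helper95.MEI.Jt
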